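import Pool.Agent.Run7.h650.SP.Fam

/-!
Products over a cube `∏ (u j or v j)`: spread modulo a prime `p`.
-/

set_option autoImplicit false

namespace Pool.Agent.Run7.h650.SP

open Finset
open Pool.Agent.TH83.SQ (cls dil)
open scoped Pointwise

variable {ι : Type*} [DecidableEq ι]

/-- the product of the `u j`, `j ∈ s`, and the `v j`, `j ∈ J \ s` -/
def mulJ (u v : ι → ℕ) (J s : Finset ι) : ℤ := ∏ j ∈ J, if j ∈ s then (u j : ℤ) else (v j : ℤ)

theorem mulJ_insert_right {u v : ι → ℕ} {J s : Finset ι} {j₀ : ι} (hj : j₀ ∉ J) (hs : s ⊆ J) :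
    mulJ u v (insert j₀ J) s = mulJ u v J s * (v j₀ : ℤ) := by
  unfold mulJ
  rw [Finset.prod_insert hj, if_neg (fun h => hj (hs h)), mul_comm]

theorem mulJ_insert_left {u v : ι → ℕ} {J s : Finset ι} {j₀ : ι} (hj : j₀ ∉ J) (_hs : s ⊆ J) :
    mulJ u v (insert j₀ J) (insert j₀ s) = mulJ u v J s * (u j₀ : ℤ) := by
  unfold mulJ
  rw [Finset.prod_insert hj, if_pos (Finset.mem_insert_self _ _), mul_comm]
  congr 1
  refine Finset.prod_congr rfl fun j hjJ => ?_
  have hne : j ≠ j₀ := fun h => hj (h ▸ hjJ)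
  simp [hne]

theorem mulJ_erase {u v : ι → ℕ} {J : Finset ι} {j : ι} (hj : j ∈ J) (s : Finset ι) :
    mulJ u v J s = (if j ∈ s then (u j : ℤ) else (v j : ℤ)) *
      ∏ i ∈ J.erase j, if i ∈ s then (u i : ℤ) else (v i : ℤ) := by
  unfold mulJ
  exact (Finset.mul_prod_erase J (fun i => if i ∈ s then (u i : ℤ) else (v i : ℤ)) hj).symm

theorem mulJ_coprime {u v : ι → ℕ} {J : Finset ι} {p : ℕ} (hp : p.Prime)
    (h : ∀ j ∈ J, ¬ p ∣ u j ∧ ¬ p ∣ v j) (s : Finset ι) : IsCoprime (p : ℤ) (mulJ u v J s) := by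
  unfold mulJ
  refine IsCoprime.prod_right fun j hj => ?_
  obtain ⟨h1, h2⟩ := h j hj
  split_ifs
  · exact Nat.isCoprime_iff_coprime.2 ((Nat.Prime.coprime_iff_not_dvd hp).2 h1)
  · exact Nat.isCoprime_iff_coprime.2 ((Nat.Prime.coprime_iff_not_dvd hp).2 h2)

/-- flip the membership of `j` -/
def flip (s : Finset ι) (j : ι) : Finset ι := if j ∈ s then s.erase j else insert j s

theorem flip_flip (s : Finset ι) (j : ι) : flip (flip s j) j = s := by
  unfold flip
  by_cases h : j ∈ s
  · rw [if_pos h, if_neg (Finset.notMem_erase j s), Finset.insert_erase h]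
  · rw [if_neg h, if_pos (Finset.mem_insert_self j s), Finset.erase_insert h]

theorem mem_flip_self (s : Finset ι) (j : ι) : j ∈ flip s j ↔ j ∉ s := by
  unfold flip
  by_cases h : j ∈ s
  · simp [h]
  · simp [h]

theorem mem_flip_ne (s : Finset ι) {i j : ι} (h : i ≠ j) : i ∈ flip s j ↔ i ∈ s := by
  unfold flip
  by_cases hj : j ∈ s
  · simp [hj, h]
  · simp [hj, h]

theorem flip_subset {s J : Finset ι} {j : ι} (hs : s ⊆ J) (hj : j ∈ J) : flip s j ⊆ J := by
  unfold flip
  split_ifs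
  · exact (Finset.erase_subset _ _).trans hs
  · exact Finset.insert_subset hj hs

/-- the ratio modulo `p` -/
def rho (p : ℕ) (u v : ι → ℕ) (j : ι) : ZMod p := (u j : ZMod p) * (v j : ZMod p)⁻¹

/-- many subsets with the same product: many equal ratios -/
theorem anti {p : ℕ} (hp : p.Prime) {u v : ι → ℕ} {J : Finset ι}
    (h : ∀ j ∈ J, ¬ p ∣ u j ∧ ¬ p ∣ v j) (Mm : ℕ)
    (hM : ∀ r : ZMod p, (J.filter fun j => rho p u v j = r).card ≤ Mm) (r : ZMod p) :
    J.card * (J.powerset.filter fun s => ((mulJ u v J s : ℤ) : ZMod p) = r).card ≤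
      2 * Mm * 2 ^ J.card := by
  have : Fact p.Prime := ⟨hp⟩
  set S := J.powerset.filter fun s => ((mulJ u v J s : ℤ) : ZMod p) = r with hS
  have hSm : ∀ s ∈ S, s ⊆ J ∧ ((mulJ u v J s : ℤ) : ZMod p) = r := by
    intro s hs
    rw [hS, Finset.mem_filter, Finset.mem_powerset] at hs
    exact hs
  have hu0 : ∀ j ∈ J, (u j : ZMod p) ≠ 0 := fun j hj h0 =>
    (h j hj).1 ((ZMod.natCast_eq_zero_iff _ _).1 h0)
  have hv0 : ∀ j ∈ J, (v j : ZMod p) ≠ 0 := fun j hj h0 =>
    (h j hj).2 ((ZMod.natCast_eq_zero_iff _ _).1 h0)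
  have hm0 : ∀ s, ((mulJ u v J s : ℤ) : ZMod p) ≠ 0 := by
    intro s h0
    rw [ZMod.intCast_zmod_eq_zero_iff_dvd] at h0
    have h1 := mulJ_coprime hp h s
    have h2 : IsUnit (p : ℤ) := h1.isUnit_of_dvd' dvd_rfl h0
    have := (Int.isUnit_iff_natAbs_eq.1 h2)
    simp at this
    exact hp.one_lt.ne' this
  have hmaps : ∀ a ∈ S ×ˢ J, flip a.1 a.2 ∈ J.powerset := by
    intro a ha
    obtain ⟨h1, h2⟩ := Finset.mem_product.1 ha
    exact Finset.mem_powerset.2 (flip_subset (hSm _ h1).1 h2)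
  have hcard := Finset.card_le_mul_card_image_of_maps_to (f := fun a : Finset ι × ι => flip a.1 a.2)
    (s := S ×ˢ J) (t := J.powerset) hmaps (2 * Mm) ?_
  · rw [Finset.card_product, Finset.card_powerset] at hcard
    rw [mul_comm]
    exact hcard
  intro t _
  set m : ZMod p := ((mulJ u v J t : ℤ) : ZMod p) with hm
  have hfib : ((S ×ˢ J).filter fun a => flip a.1 a.2 = t).card ≤
      ((J.filter fun j => rho p u v j = m * r⁻¹) ∪ (J.filter fun j => rho p u v j = r * m⁻¹)).card := by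
    refine Finset.card_le_card_of_injOn (fun a => a.2) ?_ ?_
    · intro a ha
      obtain ⟨ha1, ha2⟩ := Finset.mem_filter.1 (Finset.mem_coe.1 ha)
      obtain ⟨ha3, ha4⟩ := Finset.mem_product.1 ha1
      obtain ⟨hs1, hs2⟩ := hSm _ ha3
      have hr0 : r ≠ 0 := by rw [← hs2]; exact hm0 _
      have e1 := mulJ_erase (u := u) (v := v) ha4 a.1
      have e2 := mulJ_erase (u := u) (v := v) ha4 t
      set R := ∏ i ∈ J.erase a.2, if i ∈ a.1 then (u i : ℤ) else (v i : ℤ) with hR
      have e3 : (∏ i ∈ J.erase a.2, if i ∈ t then (u i : ℤ) else (v i : ℤ)) = R := by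
        rw [hR]
        refine Finset.prod_congr rfl fun i hi => ?_
        have hne := Finset.ne_of_mem_erase hi
        have := mem_flip_ne a.1 hne
        rw [ha2] at this
        simp only [this]
      rw [e3] at e2
      have hflip := mem_flip_self a.1 a.2
      rw [ha2] at hflip
      rw [Finset.mem_coe, Finset.mem_union, Finset.mem_filter, Finset.mem_filter]
      by_cases hmem : a.2 ∈ a.1
      · right
        refine ⟨ha4, ?_⟩
        rw [if_pos hmem] at e1
        rw [if_neg (fun h => (hflip.1 h) hmem)] at e2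
        have e4 : r = (u a.2 : ZMod p) * (R : ZMod p) := by
          rw [← hs2, e1]; push_cast; rfl
        have e5 : m = (v a.2 : ZMod p) * (R : ZMod p) := by
          rw [hm, e2]; push_cast; rfl
        have hR0 : (R : ZMod p) ≠ 0 := by
          intro h0
          rw [h0, mul_zero] at e4
          exact hr0 e4
        unfold rho
        rw [e4, e5]
        have := hv0 _ ha4
        field_simp
      · left
        refine ⟨ha4, ?_⟩
        rw [if_neg hmem] at e1
        rw [if_pos (hflip.2 hmem)] at e2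
        have e4 : r = (v a.2 : ZMod p) * (R : ZMod p) := by
          rw [← hs2, e1]; push_cast; rfl
        have e5 : m = (u a.2 : ZMod p) * (R : ZMod p) := by
          rw [hm, e2]; push_cast; rfl
        have hR0 : (R : ZMod p) ≠ 0 := by
          intro h0
          rw [h0, mul_zero] at e4
          exact hr0 e4
        unfold rho
        rw [e4, e5]
        have := hv0 _ ha4
        field_simp
    · intro a ha b hb hab
      obtain ⟨ha1, ha2⟩ := Finset.mem_filter.1 (Finset.mem_coe.1 ha)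
      obtain ⟨hb1, hb2⟩ := Finset.mem_filter.1 (Finset.mem_coe.1 hb)
      have hab' : a.2 = b.2 := hab
      have e1 : a.1 = flip t a.2 := by rw [← ha2, flip_flip]
      have e2 : b.1 = flip t b.2 := by rw [← hb2, flip_flip]
      exact Prod.ext (by rw [e1, e2, hab']) hab'
  refine hfib.trans ((Finset.card_union_le _ _).trans ?_)
  have h1 := hM (m * r⁻¹)
  have h2 := hM (r * m⁻¹)
  omega

/-- the products are spread modulo `p` -/
def Good (γ : ℝ) (u v : ι → ℕ) (p : ℕ) (J : Finset ι) : Prop :=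
  ∀ r : ZMod p, ((J.powerset.filter fun s => ((mulJ u v J s : ℤ) : ZMod p) = r).card : ℝ) ≤
    γ * J.powerset.card

/-- if the products are not spread then many ratios are equal -/
theorem not_good {p : ℕ} (hp : p.Prime) {u v : ι → ℕ} {J : Finset ι} (hJ : J.Nonempty)
    (h : ∀ j ∈ J, ¬ p ∣ u j ∧ ¬ p ∣ v j) {γ : ℝ} (hg : ¬ Good γ u v p J) :
    ∃ r : ZMod p, γ / 2 * J.card < (J.filter fun j => rho p u v j = r).card := by
  unfold Good at hg
  push Not at hg
  obtain ⟨r, hr⟩ := hg
  set Mm : ℕ := J.sup fun i => (J.filter fun j => rho p u v j = rho p u v i).card with hMm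
  have hM : ∀ r : ZMod p, (J.filter fun j => rho p u v j = r).card ≤ Mm := by
    intro r
    rcases (J.filter fun j => rho p u v j = r).eq_empty_or_nonempty with h0 | ⟨i, hi⟩
    · rw [h0]; simp
    · obtain ⟨hi1, hi2⟩ := Finset.mem_filter.1 hi
      rw [← hi2]
      exact Finset.le_sup (f := fun i => (J.filter fun j => rho p u v j = rho p u v i).card) hi1
  have h1 := anti hp h Mm hM r
  obtain ⟨i, hi, hi2⟩ := Finset.exists_mem_eq_sup J hJ
    fun i => (J.filter fun j => rho p u v j = rho p u v i).card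
  refine ⟨rho p u v i, ?_⟩
  rw [← hi2, ← hMm]
  have h2 : (J.card : ℝ) * ((J.powerset.filter fun s =>
      ((mulJ u v J s : ℤ) : ZMod p) = r).card : ℝ) ≤ 2 * Mm * 2 ^ J.card := by exact_mod_cast h1
  have hJc : (0 : ℝ) < J.card := by exact_mod_cast hJ.card_pos
  rw [Finset.card_powerset] at hr
  push_cast at hr
  have h3 : (J.card : ℝ) * (γ * 2 ^ J.card) < 2 * Mm * 2 ^ J.card :=
    lt_of_lt_of_le (mul_lt_mul_of_pos_left hr hJc) h2
  have h4 : (0 : ℝ) < 2 ^ J.card := by positivity
  have h5 : (γ / 2 * J.card) * (2 * 2 ^ J.card) < Mm * (2 * 2 ^ J.card) := by linarith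
  exact lt_of_mul_lt_mul_right h5 (by positivity)

end Pool.Agent.Run7.h650.SP
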