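import Pool.Agent.Run7.h650.SP.Sel

/-!
Selection of the pairs of coordinates.
-/

set_option autoImplicit false

namespace Pool.Agent.Run7.h650.SP

open Finset
open scoped Classical

/-- selection of many disjoint pairs of coordinates at a small price -/
theorem select (d : ℕ) (_hd : 1 ≤ d) (δ ε : ℝ) (hδ : 0 < δ) (hε : 0 < ε) :
    ∃ θ L₀ : ℝ, 0 < θ ∧ 0 < L₀ ∧ ∀ (ι : Type) [Fintype ι] (col x : ι → ℕ) (maj mn : ℕ → ℕ),
      MM col x d maj mn → L₀ ≤ Real.log (Orb col x).card →
      δ * Real.log (Orb col x).card ≤ (univ.filter fun i => x i ≠ maj (col i)).card →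
      ∃ (J : Finset ι) (φ : ι → ι), Set.InjOn φ J ∧
        (∀ j ∈ J, x j = mn (col j) ∧ col (φ j) = col j ∧ x (φ j) = maj (col j)) ∧
        θ * Real.log (Orb col x).card ≤ J.card ∧
        (1 - ε) * Real.log (Orb col x).card ≤ Real.log (XQ col x (J ∪ J.image φ)).card := by
  have hl2 : 0 < Real.log 2 := Real.log_pos (by norm_num)
  have hd1 : (0 : ℝ) < (d : ℝ) + 1 := by positivity
  set lD : ℝ := Real.log (2 * ((d : ℝ) + 1)) with hlD
  have hd0 : (0 : ℝ) ≤ d := Nat.cast_nonneg d
  have hlD2 : Real.log 2 ≤ lD := Real.log_le_log (by norm_num) (by linarith)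
  have hlD0 : 0 < lD := lt_of_lt_of_le hl2 hlD2
  set Cd : ℝ := 2 * lD / Real.log 2 + 1 with hCd
  have hCd0 : 0 < Cd := by positivity
  set Λ : ℝ := 4 * (d + 1) * Cd / δ with hΛ
  have hΛ0 : 0 < Λ := by positivity
  set θ : ℝ := min (δ / (8 * (d + 1))) (ε / (2 * Λ)) with hθ
  have hθ0 : 0 < θ := by positivity
  have hθ1 : θ ≤ δ / (8 * (d + 1)) := min_le_left _ _
  have hθ2 : θ ≤ ε / (2 * Λ) := min_le_right _ _
  refine ⟨θ, max (8 * (d + 1) / δ) (2 * Λ / ε), hθ0, lt_max_of_lt_left (by positivity), ?_⟩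
  intro ι _ col x maj mn hMM hL hs
  set L := Real.log (Orb col x).card with hLdef
  have hL1 : 8 * (d + 1) / δ ≤ L := (le_max_left _ _).trans hL
  have hL2 : 2 * Λ / ε ≤ L := (le_max_right _ _).trans hL
  have hL0 : 0 < L := lt_of_lt_of_le (by positivity) hL1
  rw [div_le_iff₀ hδ] at hL1
  rw [div_le_iff₀ hε] at hL2
  set F := Bp col x mn with hF
  set G := Bp col x maj with hG
  -- the size of the set of the minority coordinates
  have hFs : δ * L ≤ (d + 1) * F.card := by
    refine hs.trans ?_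
    exact_mod_cast minority_le hMM
  obtain ⟨H, hHF, hH1, hH2⟩ := half col F
  obtain ⟨φ, hφ1, hφ2⟩ := matching col F G (by
    intro c
    rw [hF, hG, Bp_fiber, Bp_fiber]
    exact hMM.max c _ (hMM.mn_le c))
  -- the prices
  set cost : ι → ℝ := fun i => Real.log (2 * (mm col ∅ (col i) : ℝ) / nn col x ∅ (col i) (mn (col i)))
    + Real.log (2 * (mm col ∅ (col i) : ℝ) / nn col x ∅ (col i) (maj (col i))) with hcost
  have hcost_le : ∀ i ∈ F, cost i ≤ 2 * lD +
      Real.log ((mm col ∅ (col i) : ℝ) / nn col x ∅ (col i) (mn (col i))) := by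
    intro i hi
    obtain ⟨h1, h2, h3, h4⟩ := col_facts hMM hi
    have p1 : (0 : ℝ) < nn col x ∅ (col i) (mn (col i)) := by exact_mod_cast h1
    have p2 : (0 : ℝ) < nn col x ∅ (col i) (maj (col i)) := by exact_mod_cast lt_of_lt_of_le h1 h2
    have p3 : (0 : ℝ) < mm col ∅ (col i) := by
      have : 0 < mm col ∅ (col i) := by omega
      exact_mod_cast this
    have e1 : Real.log (2 * (mm col ∅ (col i) : ℝ) / nn col x ∅ (col i) (mn (col i))) =
        Real.log 2 + Real.log ((mm col ∅ (col i) : ℝ) / nn col x ∅ (col i) (mn (col i))) := by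
      rw [mul_div_assoc, Real.log_mul (by norm_num) (by positivity)]
    have e2 : Real.log (2 * (mm col ∅ (col i) : ℝ) / nn col x ∅ (col i) (maj (col i))) ≤ lD := by
      apply Real.log_le_log (by positivity)
      rw [div_le_iff₀ p2]
      have : (mm col ∅ (col i) : ℝ) ≤ (d + 1) * nn col x ∅ (col i) (maj (col i)) := by
        exact_mod_cast h4
      linarith
    rw [hcost]
    simp only
    rw [e1]
    linarith
  have hcost0 : ∀ i ∈ F, 0 ≤ cost i := by
    intro i hi
    obtain ⟨h1, h2, h3, h4⟩ := col_facts hMM hi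
    have p1 : (0 : ℝ) < nn col x ∅ (col i) (mn (col i)) := by exact_mod_cast h1
    have p2 : (0 : ℝ) < nn col x ∅ (col i) (maj (col i)) := by exact_mod_cast lt_of_lt_of_le h1 h2
    have h5 := nn_le_mm col x ∅ (col i) (maj (col i))
    have h5' : (nn col x ∅ (col i) (maj (col i)) : ℝ) ≤ mm col ∅ (col i) := by exact_mod_cast h5
    have h2' : (nn col x ∅ (col i) (mn (col i)) : ℝ) ≤ nn col x ∅ (col i) (maj (col i)) := by
      exact_mod_cast h2
    rw [hcost]
    apply add_nonneg
    · apply Real.log_nonneg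
      rw [le_div_iff₀ p1]; linarith
    · apply Real.log_nonneg
      rw [le_div_iff₀ p2]; linarith
  have hsumF : ∑ i ∈ F, cost i ≤ Cd * L := by
    have h1 := Finset.sum_le_sum hcost_le
    have e1 : ∑ i ∈ F, (2 * lD +
        Real.log ((mm col ∅ (col i) : ℝ) / nn col x ∅ (col i) (mn (col i)))) =
        F.card * (2 * lD) + ∑ i ∈ F,
          Real.log ((mm col ∅ (col i) : ℝ) / nn col x ∅ (col i) (mn (col i))) := by
      rw [Finset.sum_add_distrib, Finset.sum_const, nsmul_eq_mul]
    rw [e1] at h1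
    have h2 := low_Bp hMM
    have h3 := Bp_log_two hMM
    rw [← hF] at h2 h3
    have h4 : (F.card : ℝ) ≤ L / Real.log 2 := by
      rw [le_div_iff₀ hl2]; exact h3
    have h5 : (F.card : ℝ) * (2 * lD) ≤ L / Real.log 2 * (2 * lD) :=
      mul_le_mul_of_nonneg_right h4 (by positivity)
    calc ∑ i ∈ F, cost i ≤ L / Real.log 2 * (2 * lD) + L := by linarith
      _ = Cd * L := by rw [hCd]; ring
  -- the cheap coordinates
  set J₀ := H.filter fun i => cost i ≤ Λ with hJ₀
  have hexp : ((H.filter fun i => ¬ cost i ≤ Λ).card : ℝ) * Λ ≤ Cd * L := by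
    refine le_trans ?_ hsumF
    rw [← nsmul_eq_mul]
    refine (Finset.card_nsmul_le_sum _ cost _ ?_).trans ?_
    · intro i hi
      exact (not_le.1 (Finset.mem_filter.1 hi).2).le
    · exact Finset.sum_le_sum_of_subset_of_nonneg ((Finset.filter_subset _ _).trans hHF)
        fun i hi _ => hcost0 i hi
  have hJ₀c : δ * L / (4 * (d + 1)) ≤ J₀.card := by
    have h1 : (J₀.card : ℝ) + (H.filter fun i => ¬ cost i ≤ Λ).card = H.card := by
      have := Finset.card_filter_add_card_filter_not (s := H) fun i => cost i ≤ Λ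
      exact_mod_cast this
    have h2 : (F.card : ℝ) ≤ 2 * H.card := by exact_mod_cast hH1
    have h3 : ((H.filter fun i => ¬ cost i ≤ Λ).card : ℝ) ≤ δ * L / (4 * (d + 1)) := by
      have h4 : ((H.filter fun i => ¬ cost i ≤ Λ).card : ℝ) ≤ Cd * L / Λ := by
        rw [le_div_iff₀ hΛ0]; exact hexp
      refine h4.trans (le_of_eq ?_)
      rw [hΛ]
      field_simp
    have h5 : δ * L / (2 * (d + 1)) ≤ H.card := by
      rw [div_le_iff₀ (by positivity)]
      nlinarith
    have h6 : δ * L / (2 * (d + 1)) = 2 * (δ * L / (4 * (d + 1))) := by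
      field_simp; ring
    linarith
  -- the number of the pairs
  have hceil : ⌈θ * L⌉₊ ≤ J₀.card := by
    have h1 : (⌈θ * L⌉₊ : ℝ) ≤ θ * L + 1 := (Nat.ceil_lt_add_one (by positivity)).le
    have h2 : θ * L + 1 ≤ δ * L / (4 * (d + 1)) := by
      have h3 : θ * L ≤ δ / (8 * (d + 1)) * L := mul_le_mul_of_nonneg_right hθ1 hL0.le
      have h4 : 1 ≤ δ / (8 * (d + 1)) * L := by
        rw [div_mul_eq_mul_div, le_div_iff₀ (by positivity)]
        linarith
      have h5 : δ * L / (4 * (d + 1)) = 2 * (δ / (8 * (d + 1)) * L) := by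
        field_simp; ring
      linarith
    exact_mod_cast h1.trans (h2.trans hJ₀c)
  obtain ⟨J, hJsub, hJc⟩ := Finset.exists_subset_card_eq hceil
  have hJH : J ⊆ H := hJsub.trans (Finset.filter_subset _ _)
  have hJF : J ⊆ F := hJH.trans hHF
  have hJprop : ∀ j ∈ J, x j = mn (col j) ∧ col (φ j) = col j ∧ x (φ j) = maj (col j) := by
    intro j hj
    obtain ⟨h1, h2⟩ := hφ2 j (hJF hj)
    refine ⟨(Finset.mem_filter.1 (hJF hj)).2, h2, ?_⟩
    rw [← h2]
    exact (Finset.mem_filter.1 h1).2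
  have hφJ : Set.InjOn φ J := hφ1.mono (by exact_mod_cast hJF)
  refine ⟨J, φ, hφJ, hJprop, ?_, ?_⟩
  · rw [hJc]; exact Nat.le_ceil _
  have hdisj : Disjoint J (J.image φ) := by
    rw [Finset.disjoint_left]
    intro i hi hi'
    obtain ⟨j, hj, rfl⟩ := Finset.mem_image.1 hi'
    have h1 := (hJprop _ hi).1
    have h2 := hJprop _ hj
    rw [h2.2.2, h2.2.1] at h1
    exact hMM.ne (col j) h1.symm
  have hJfib : ∀ c, 2 * (J.filter fun i => col i = c).card ≤ nn col x ∅ c (mn c) + 1 := by
    intro c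
    have h1 := hH2 c
    rw [hF, Bp_fiber] at h1
    have h2 : (J.filter fun i => col i = c).card ≤ (H.filter fun i => col i = c).card :=
      Finset.card_le_card (Finset.filter_subset_filter _ hJH)
    omega
  have hu := upp (col := col) (x := x) (J ∪ J.image φ) ?_
  · rw [Finset.sum_union hdisj, Finset.sum_image hφJ, ← Finset.sum_add_distrib] at hu
    have h1 : ∑ i ∈ J, (Real.log (2 * (mm col ∅ (col i) : ℝ) / nn col x ∅ (col i) (x i)) +
        Real.log (2 * (mm col ∅ (col (φ i)) : ℝ) / nn col x ∅ (col (φ i)) (x (φ i)))) =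
        ∑ i ∈ J, cost i := by
      refine Finset.sum_congr rfl fun i hi => ?_
      obtain ⟨h2, h3, h4⟩ := hJprop i hi
      rw [h2, h3, h4]
    rw [h1] at hu
    have h2 : ∑ i ∈ J, cost i ≤ (J.card : ℝ) * Λ := by
      rw [← nsmul_eq_mul]
      exact Finset.sum_le_card_nsmul _ _ _ fun i hi => (Finset.mem_filter.1 (hJsub hi)).2
    have h3 : (J.card : ℝ) ≤ θ * L + 1 := by
      rw [hJc]; exact (Nat.ceil_lt_add_one (by positivity)).le
    have h4 : (J.card : ℝ) * Λ ≤ (θ * L + 1) * Λ := mul_le_mul_of_nonneg_right h3 hΛ0.le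
    have h5 : θ * L * Λ ≤ ε / 2 * L := by
      have h6 : θ * Λ ≤ ε / 2 := by
        calc θ * Λ ≤ ε / (2 * Λ) * Λ := mul_le_mul_of_nonneg_right hθ2 hΛ0.le
          _ = ε / 2 := by field_simp
      nlinarith
    linarith
  · intro i hi
    rcases Finset.mem_union.1 hi with hiJ | hiJ
    · have hxi := (hJprop i hiJ).1
      have hsub : ((J ∪ J.image φ).filter fun j => col j = col i ∧ x j = x i) ⊆
          J.filter fun j => col j = col i := by
        intro j hj
        obtain ⟨h1, h2, h3⟩ := Finset.mem_filter.1 hj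
        rcases Finset.mem_union.1 h1 with h4 | h4
        · exact Finset.mem_filter.2 ⟨h4, h2⟩
        · obtain ⟨l, hl, rfl⟩ := Finset.mem_image.1 h4
          obtain ⟨-, h6, h7⟩ := hJprop l hl
          rw [h7, hxi, ← h6, h2] at h3
          exact absurd h3.symm (hMM.ne _)
      have h1 := Finset.card_le_card hsub
      have h2 := hJfib (col i)
      rw [hxi]
      rw [hxi] at h1
      omega
    · obtain ⟨l, hl, rfl⟩ := Finset.mem_image.1 hiJ
      obtain ⟨hx1, hx2, hx3⟩ := hJprop l hl
      have hsub : ((J ∪ J.image φ).filter fun j => col j = col (φ l) ∧ x j = x (φ l)) ⊆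
          (J.filter fun j => col j = col l).image φ := by
        intro j hj
        obtain ⟨h1, h2, h3⟩ := Finset.mem_filter.1 hj
        rw [hx2] at h2
        rw [hx3] at h3
        rcases Finset.mem_union.1 h1 with h4 | h4
        · have h5 := (hJprop j h4).1
          rw [h2, h3] at h5
          exact absurd h5.symm (hMM.ne _)
        · obtain ⟨l', hl', rfl⟩ := Finset.mem_image.1 h4
          obtain ⟨-, h6, -⟩ := hJprop l' hl'
          exact Finset.mem_image.2 ⟨l', Finset.mem_filter.2 ⟨hl', by rw [← h6, h2]⟩, rfl⟩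
      have h1 := (Finset.card_le_card hsub).trans Finset.card_image_le
      have h2 := hJfib (col l)
      have h3 := hMM.max (col l) (mn (col l)) (hMM.mn_le _)
      rw [hx2, hx3]
      rw [hx2, hx3] at h1
      omega

end Pool.Agent.Run7.h650.SP
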