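import Pool.Agent.Run7.h650.SP.Orb

/-!
Products of powers of pairwise coprime numbers with few prime factors.
-/

set_option autoImplicit false

namespace Pool.Agent.Run7.h650.SP

open Finset
open scoped Classical

variable {ι : Type*} [Fintype ι]

/-- pairwise coprime numbers greater than one with at most `K` prime factors -/
structure Gen (g : ι → ℕ) (K : ℕ) : Prop where
  cop : ∀ i j, i ≠ j → (g i).Coprime (g j)
  gt : ∀ i, 1 < g i
  om : ∀ i, (g i).primeFactorsList.length ≤ K

/-- the product of powers -/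
def valN (g y : ι → ℕ) : ℕ := ∏ i, g i ^ y i

theorem Gen.ne_zero {g : ι → ℕ} {K : ℕ} (h : Gen g K) (i : ι) : g i ≠ 0 := by
  have := h.gt i; omega

theorem valN_ne_zero {g : ι → ℕ} {K : ℕ} (h : Gen g K) (y : ι → ℕ) : valN g y ≠ 0 :=
  Finset.prod_ne_zero_iff.2 fun i _ => pow_ne_zero _ (h.ne_zero i)

theorem fact_valN {g : ι → ℕ} {K : ℕ} (h : Gen g K) (y : ι → ℕ) (p : ℕ) :
    (valN g y).factorization p = ∑ i, y i * (g i).factorization p := by
  unfold valN
  rw [Nat.factorization_prod fun i _ => pow_ne_zero _ (h.ne_zero i), Finset.sum_apply']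
  refine Finset.sum_congr rfl fun i _ => ?_
  rw [Nat.factorization_pow]
  rfl

theorem fact_valN_of_dvd {g : ι → ℕ} {K : ℕ} (h : Gen g K) (y : ι → ℕ) {p : ℕ} (hp : p.Prime)
    {i : ι} (hi : p ∣ g i) : (valN g y).factorization p = y i * (g i).factorization p := by
  rw [fact_valN h, Finset.sum_eq_single i]
  · intro j _ hj
    have h1 : ¬ p ∣ g j := by
      intro hpj
      have h2 := h.cop j i hj
      have h3 := Nat.dvd_gcd hpj hi
      rw [h2] at h3
      exact hp.one_lt.ne' (Nat.dvd_one.1 h3)
    rw [Nat.factorization_eq_zero_of_not_dvd h1, mul_zero]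
  · intro h0
    exact absurd (Finset.mem_univ i) h0

theorem fact_valN_of_not {g : ι → ℕ} {K : ℕ} (h : Gen g K) (y : ι → ℕ) {p : ℕ}
    (hp : ∀ i, ¬ p ∣ g i) : (valN g y).factorization p = 0 := by
  rw [fact_valN h]
  refine Finset.sum_eq_zero fun i _ => ?_
  rw [Nat.factorization_eq_zero_of_not_dvd (hp i), mul_zero]

theorem valN_inj {g : ι → ℕ} {K : ℕ} (h : Gen g K) : Function.Injective (valN g) := by
  intro y z hyz
  funext i
  have h1 : (g i).minFac.Prime := Nat.minFac_prime (by have := h.gt i; omega)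
  have h2 := fact_valN_of_dvd h y h1 (Nat.minFac_dvd (g i))
  have h3 := fact_valN_of_dvd h z h1 (Nat.minFac_dvd (g i))
  rw [hyz, h3] at h2
  have h4 : 0 < (g i).factorization (g i).minFac :=
    h1.factorization_pos_of_dvd (h.ne_zero i) (Nat.minFac_dvd _)
  exact (Nat.eq_of_mul_eq_mul_right h4 h2).symm

/-- the primes at which two products differ -/
theorem diff_primes {g : ι → ℕ} {K : ℕ} (h : Gen g K) (y z : ι → ℕ) (S : Finset ℕ)
    (hS : ∀ p ∈ S, p.Prime) :
    (S.filter fun p => (valN g y).factorization p ≠ (valN g z).factorization p).card ≤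
      K * (univ.filter fun i => y i ≠ z i).card := by
  have h1 : (S.filter fun p => (valN g y).factorization p ≠ (valN g z).factorization p) ⊆
      (univ.filter fun i => y i ≠ z i).biUnion fun i => (g i).primeFactors := by
    intro p hp
    obtain ⟨hp1, hp2⟩ := Finset.mem_filter.1 hp
    have hpp := hS p hp1
    by_cases hd : ∃ i, p ∣ g i
    · obtain ⟨i, hi⟩ := hd
      refine Finset.mem_biUnion.2 ⟨i, Finset.mem_filter.2 ⟨Finset.mem_univ _, ?_⟩,
        Nat.mem_primeFactors.2 ⟨hpp, hi, h.ne_zero i⟩⟩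
      intro he
      apply hp2
      rw [fact_valN_of_dvd h y hpp hi, fact_valN_of_dvd h z hpp hi, he]
    · push Not at hd
      exact absurd (by rw [fact_valN_of_not h y hd, fact_valN_of_not h z hd]) hp2
  refine (Finset.card_le_card h1).trans (Finset.card_biUnion_le.trans ?_)
  rw [mul_comm]
  refine Finset.sum_le_card_nsmul _ _ _ fun i _ => ?_
  refine le_trans ?_ (h.om i)
  unfold Nat.primeFactors
  exact List.toFinset_card_le _

/-- a number with few prime factors is bounded by a power of the largest one -/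
theorem le_pow_top {n q K : ℕ} (hn : n ≠ 0) (hq : 1 ≤ q) (h : ∀ p, p.Prime → p ∣ n → p ≤ q)
    (hK : n.primeFactorsList.length ≤ K) : n ≤ q ^ K := by
  have h1 : ∀ l : List ℕ, (∀ p ∈ l, p ≤ q) → l.prod ≤ q ^ l.length := by
    intro l
    induction l with
    | nil => intro _; simp
    | cons a l ih =>
      intro hl
      rw [List.prod_cons, List.length_cons, pow_succ, mul_comm]
      exact Nat.mul_le_mul (ih fun p hp => hl p (List.mem_cons_of_mem _ hp))
        (hl a List.mem_cons_self)
  have h2 := h1 n.primeFactorsList fun p hp =>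
    h p (Nat.prime_of_mem_primeFactorsList hp) (Nat.dvd_of_mem_primeFactorsList hp)
  rw [Nat.prod_primeFactorsList hn] at h2
  exact h2.trans (Nat.pow_le_pow_right hq hK)

end Pool.Agent.Run7.h650.SP
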