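import Pool.Agent.Run7.h650.SP.Cnt
import Pool.Agent.Run7.h650.SP.Sel2
import Pool.Agent.Run7.h650.SP.Val

/-!
Orbits with many coordinates outside of the majority: the sum with every set is large.
-/

set_option autoImplicit false

namespace Pool.Agent.Run7.h650.SP

open Finset
open Pool.Agent.TH83.SQ (cls dil)
open scoped Pointwise Classical

section blocks

variable {ι : Type} [Fintype ι]

/-- exchange the values in some of the pairs -/
theorem exchange {col x y : ι → ℕ} {J : Finset ι} {φ : ι → ι} (hφ : Set.InjOn φ J)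
    (hcol : ∀ j ∈ J, col (φ j) = col j) (hdisj : ∀ j ∈ J, ∀ l ∈ J, φ l ≠ j)
    (hy : y ∈ Orb col x) (s : Finset ι) (hs : s ⊆ J) :
    ∃ z ∈ Orb col x, (∀ i, i ∉ J ∪ J.image φ → z i = y i) ∧
      ∀ j ∈ J, (j ∈ s → z j = y (φ j) ∧ z (φ j) = y j) ∧
        (j ∉ s → z j = y j ∧ z (φ j) = y (φ j)) := by
  induction s using Finset.induction_on with
  | empty =>
    refine ⟨y, hy, fun i _ => rfl, fun j _ => ⟨fun h => absurd h (Finset.notMem_empty j),
      fun _ => ⟨rfl, rfl⟩⟩⟩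
  | insert l s hl ih =>
    obtain ⟨z, hz, hz1, hz2⟩ := ih ((Finset.subset_insert _ _).trans hs)
    have hlJ : l ∈ J := hs (Finset.mem_insert_self _ _)
    refine ⟨z ∘ Equiv.swap l (φ l), swap_mem_Orb hz (hcol l hlJ).symm, ?_, ?_⟩
    · intro i hi
      have h1 : i ≠ l := fun h => hi (Finset.mem_union_left _ (h ▸ hlJ))
      have h2 : i ≠ φ l := fun h => hi (Finset.mem_union_right _
        (h ▸ Finset.mem_image_of_mem φ hlJ))
      rw [Function.comp_apply, Equiv.swap_apply_of_ne_of_ne h1 h2]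
      exact hz1 i hi
    · intro j hj
      obtain ⟨h3, h4⟩ := hz2 j hj
      by_cases hjl : j = l
      · subst hjl
        obtain ⟨h5, h6⟩ := h4 hl
        refine ⟨fun _ => ⟨?_, ?_⟩, fun h => absurd (Finset.mem_insert_self _ _) h⟩
        · rw [Function.comp_apply, Equiv.swap_apply_left]; exact h6
        · rw [Function.comp_apply, Equiv.swap_apply_right]; exact h5
      · have e1 : j ≠ φ l := fun h => hdisj j hj l hlJ h.symm
        have e2 : φ j ≠ l := hdisj l hlJ j hj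
        have e3 : φ j ≠ φ l := fun h => hjl (hφ (Finset.mem_coe.2 hj) (Finset.mem_coe.2 hlJ) h)
        have e4 : (z ∘ Equiv.swap l (φ l)) j = z j := by
          rw [Function.comp_apply, Equiv.swap_apply_of_ne_of_ne hjl e1]
        have e5 : (z ∘ Equiv.swap l (φ l)) (φ j) = z (φ j) := by
          rw [Function.comp_apply, Equiv.swap_apply_of_ne_of_ne e2 e3]
        rw [e4, e5]
        refine ⟨fun h => h3 ?_, fun h => h4 ?_⟩
        · rcases Finset.mem_insert.1 h with h | h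
          · exact absurd h hjl
          · exact h
        · exact fun h' => h (Finset.mem_insert_of_mem h')

theorem prod_pairs {M : Type*} [CommMonoid M] {J : Finset ι} {φ : ι → ι} (hφ : Set.InjOn φ J)
    (hdisj : ∀ j ∈ J, ∀ l ∈ J, φ l ≠ j) (F : ι → M) :
    ∏ i, F i = (∏ i ∈ (J ∪ J.image φ)ᶜ, F i) * ∏ j ∈ J, (F j * F (φ j)) := by
  have hd : Disjoint J (J.image φ) := by
    rw [Finset.disjoint_left]
    intro i hi hi'
    obtain ⟨l, hl, h⟩ := Finset.mem_image.1 hi'
    exact hdisj i hi l hl h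
  rw [Finset.prod_mul_distrib, ← Finset.prod_image (f := F) hφ, ← Finset.prod_union hd,
    Finset.prod_compl_mul_prod]

/-- the largest prime factor of the product of a pair -/
noncomputable def qq (g : ι → ℕ) (φ : ι → ι) (j : ι) : ℕ := (g j * g (φ j)).primeFactors.sup id

/-- the exponent of the block -/
def ce (x : ι → ℕ) (φ : ι → ι) (j : ι) : ℕ := max (x j) (x (φ j)) - min (x j) (x (φ j))

/-- the block with the leading prime -/
noncomputable def uu (g x : ι → ℕ) (φ : ι → ι) (j : ι) : ℕ :=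
  (if qq g φ j ∣ g j then g j else g (φ j)) ^ ce x φ j

/-- the other block -/
noncomputable def vv (g x : ι → ℕ) (φ : ι → ι) (j : ι) : ℕ :=
  (if qq g φ j ∣ g j then g (φ j) else g j) ^ ce x φ j

/-- the common factor -/
def cf (g x : ι → ℕ) (φ : ι → ι) (j : ι) : ℕ := (g j * g (φ j)) ^ min (x j) (x (φ j))

/-- the two products of a pair -/
noncomputable def pp (g x : ι → ℕ) (φ : ι → ι) (j : ι) (e : Prop) : ℕ :=
  if e then g j ^ x (φ j) * g (φ j) ^ x j else g j ^ x j * g (φ j) ^ x (φ j)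

omit [Fintype ι] in
theorem block_eq (g x : ι → ℕ) (φ : ι → ι) (j : ι) : ∃ e : Prop,
    uu g x φ j * cf g x φ j = pp g x φ j e ∧ vv g x φ j * cf g x φ j = pp g x φ j (¬ e) := by
  have key : ∀ a b m n : ℕ, (n ≤ m → a ^ (max m n - min m n) * (a * b) ^ min m n = a ^ m * b ^ n) ∧
      (m ≤ n → a ^ (max m n - min m n) * (a * b) ^ min m n = a ^ n * b ^ m) := by
    intro a b m n
    constructor
    · intro h
      rw [max_eq_left h, min_eq_right h, mul_pow, ← mul_assoc, ← pow_add, Nat.sub_add_cancel h]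
    · intro h
      rw [max_eq_right h, min_eq_left h, mul_pow, ← mul_assoc, ← pow_add, Nat.sub_add_cancel h]
  unfold uu vv cf pp ce
  by_cases hq : qq g φ j ∣ g j
  · simp only [if_pos hq]
    rcases le_total (x (φ j)) (x j) with h | h
    · refine ⟨False, ?_, ?_⟩
      · rw [if_neg not_false]
        exact (key (g j) (g (φ j)) _ _).1 h
      · rw [if_pos not_false, mul_comm (g j) (g (φ j)), (key (g (φ j)) (g j) _ _).1 h, mul_comm]
    · refine ⟨True, ?_, ?_⟩
      · rw [if_pos trivial]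
        exact (key (g j) (g (φ j)) _ _).2 h
      · rw [if_neg (not_not.2 trivial), mul_comm (g j) (g (φ j)),
          (key (g (φ j)) (g j) _ _).2 h, mul_comm]
  · simp only [if_neg hq]
    rcases le_total (x (φ j)) (x j) with h | h
    · refine ⟨True, ?_, ?_⟩
      · rw [if_pos trivial, mul_comm (g j) (g (φ j)), (key (g (φ j)) (g j) _ _).1 h, mul_comm]
      · rw [if_neg (not_not.2 trivial)]
        exact (key (g j) (g (φ j)) _ _).1 h
    · refine ⟨False, ?_, ?_⟩
      · rw [if_neg not_false, mul_comm (g j) (g (φ j)),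
          (key (g (φ j)) (g j) _ _).2 h, mul_comm]
      · rw [if_pos not_false]
        exact (key (g j) (g (φ j)) _ _).2 h

/-- the integers of the orbit -/
noncomputable def AA (g col x : ι → ℕ) : Finset ℤ := (Orb col x).image fun y => (valN g y : ℤ)

/-- the cofactors -/
noncomputable def XX (g col x : ι → ℕ) (φ : ι → ι) (J : Finset ι) : Finset ℤ :=
  (XQ col x (J ∪ J.image φ)).image fun y =>
    ((∏ i ∈ (J ∪ J.image φ)ᶜ, g i ^ y i : ℕ) : ℤ) * ((∏ j ∈ J, cf g x φ j : ℕ) : ℤ)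

theorem dil_XX_subset {g col x : ι → ℕ} {φ : ι → ι} {J : Finset ι} (hφ : Set.InjOn φ J)
    (hcol : ∀ j ∈ J, col (φ j) = col j) (hdisj : ∀ j ∈ J, ∀ l ∈ J, φ l ≠ j) (s : Finset ι) :
    dil (mulJ (uu g x φ) (vv g x φ) J s) (XX g col x φ J) ⊆ AA g col x := by
  intro w hw
  obtain ⟨w', hw', rfl⟩ := Finset.mem_image.1 hw
  obtain ⟨y, hy, rfl⟩ := Finset.mem_image.1 hw'
  obtain ⟨hy1, hy2⟩ := mem_XQ.1 hy
  choose e he1 he2 using fun j => block_eq g x φ j
  set s' : Finset ι := J.filter fun j => (j ∈ s ↔ e j) with hs'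
  obtain ⟨z, hz, hz1, hz2⟩ := exchange hφ hcol hdisj hy1 s' (Finset.filter_subset _ _)
  refine Finset.mem_image.2 ⟨z, hz, ?_⟩
  unfold valN
  rw [prod_pairs hφ hdisj fun i => g i ^ z i]
  have h1 : ∏ i ∈ (J ∪ J.image φ)ᶜ, g i ^ z i = ∏ i ∈ (J ∪ J.image φ)ᶜ, g i ^ y i :=
    Finset.prod_congr rfl fun i hi => by rw [hz1 i (Finset.mem_compl.1 hi)]
  have h2 : ∀ j ∈ J, g j ^ z j * g (φ j) ^ z (φ j) =
      (if j ∈ s then uu g x φ j else vv g x φ j) * cf g x φ j := by
    intro j hj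
    have hyj : y j = x j := hy2 j (Finset.mem_union_left _ hj)
    have hyφ : y (φ j) = x (φ j) := hy2 _ (Finset.mem_union_right _ (Finset.mem_image_of_mem φ hj))
    obtain ⟨h3, h4⟩ := hz2 j hj
    rw [hyj, hyφ] at h3 h4
    by_cases hjs : j ∈ s
    · rw [if_pos hjs, he1]
      unfold pp
      by_cases hej : e j
      · obtain ⟨h5, h6⟩ := h3 (Finset.mem_filter.2 ⟨hj, by simp [hjs, hej]⟩)
        rw [if_pos hej, h5, h6]
      · obtain ⟨h5, h6⟩ := h4 (fun h => hej ((Finset.mem_filter.1 h).2.1 hjs))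
        rw [if_neg hej, h5, h6]
    · rw [if_neg hjs, he2]
      unfold pp
      by_cases hej : e j
      · obtain ⟨h5, h6⟩ := h4 (fun h => hjs ((Finset.mem_filter.1 h).2.2 hej))
        rw [if_neg (not_not.2 hej), h5, h6]
      · obtain ⟨h5, h6⟩ := h3 (Finset.mem_filter.2 ⟨hj, by simp [hjs, hej]⟩)
        rw [if_pos hej, h5, h6]
  rw [h1, Finset.prod_congr rfl h2, Finset.prod_mul_distrib]
  unfold mulJ
  push_cast
  have h3 : (∏ j ∈ J, ((if j ∈ s then (uu g x φ j : ℤ) else (vv g x φ j : ℤ)))) =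
      ∏ j ∈ J, (((if j ∈ s then uu g x φ j else vv g x φ j : ℕ)) : ℤ) := by
    refine Finset.prod_congr rfl fun j _ => ?_
    split_ifs <;> rfl
  have h4 : (∏ j ∈ J, (if j ∈ s then (uu g x φ j : ℤ) else (vv g x φ j : ℤ))) *
      ((∏ i ∈ (J ∪ J.image φ)ᶜ, (g i : ℤ) ^ y i) * ∏ j ∈ J, (cf g x φ j : ℤ)) =
      (∏ i ∈ (J ∪ J.image φ)ᶜ, (g i : ℤ) ^ y i) *
        ((∏ j ∈ J, (if j ∈ s then (uu g x φ j : ℤ) else (vv g x φ j : ℤ))) *
          ∏ j ∈ J, (cf g x φ j : ℤ)) := by ring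
  rw [h4]

theorem card_XX {g col x : ι → ℕ} {K : ℕ} (h : Gen g K) {φ : ι → ι} {J : Finset ι}
    : (XX g col x φ J).card =
      (XQ col x (J ∪ J.image φ)).card := by
  apply Finset.card_image_of_injOn
  intro y hy z hz hyz
  have hy' := mem_XQ.1 (Finset.mem_coe.1 hy)
  have hz' := mem_XQ.1 (Finset.mem_coe.1 hz)
  apply valN_inj h
  have h0 : (∏ j ∈ J, cf g x φ j) ≠ 0 :=
    Finset.prod_ne_zero_iff.2 fun j _ => pow_ne_zero _ (mul_ne_zero (h.ne_zero _) (h.ne_zero _))
  have h1 : ∏ i ∈ (J ∪ J.image φ)ᶜ, g i ^ y i = ∏ i ∈ (J ∪ J.image φ)ᶜ, g i ^ z i := by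
    have h2 : ((∏ i ∈ (J ∪ J.image φ)ᶜ, g i ^ y i : ℕ) : ℤ) * ((∏ j ∈ J, cf g x φ j : ℕ) : ℤ) =
      ((∏ i ∈ (J ∪ J.image φ)ᶜ, g i ^ z i : ℕ) : ℤ) * ((∏ j ∈ J, cf g x φ j : ℕ) : ℤ) := hyz
    have h3 : (∏ i ∈ (J ∪ J.image φ)ᶜ, g i ^ y i) * (∏ j ∈ J, cf g x φ j) =
      (∏ i ∈ (J ∪ J.image φ)ᶜ, g i ^ z i) * (∏ j ∈ J, cf g x φ j) := by exact_mod_cast h2
    exact Nat.eq_of_mul_eq_mul_right (Nat.pos_of_ne_zero h0) h3
  unfold valN
  rw [← Finset.prod_compl_mul_prod (J ∪ J.image φ), ← Finset.prod_compl_mul_prod (J ∪ J.image φ)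
    (fun i => g i ^ z i), h1]
  congr 1
  refine Finset.prod_congr rfl fun i hi => ?_
  rw [hy'.2 i hi, hz'.2 i hi]

theorem qq_spec {g : ι → ℕ} {K : ℕ} (h : Gen g K) (φ : ι → ι) (j : ι) :
    (qq g φ j).Prime ∧ qq g φ j ∣ g j * g (φ j) ∧
      ∀ p, p.Prime → p ∣ g j * g (φ j) → p ≤ qq g φ j := by
  have h0 : g j * g (φ j) ≠ 0 := mul_ne_zero (h.ne_zero _) (h.ne_zero _)
  have h1 : g j * g (φ j) ≠ 1 := by
    intro h2
    have h3 := Nat.eq_one_of_mul_eq_one_right h2
    have := h.gt j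
    omega
  have hne : (g j * g (φ j)).primeFactors.Nonempty := by
    rw [Nat.nonempty_primeFactors]
    omega
  obtain ⟨p, hp, hpe⟩ := Finset.exists_mem_eq_sup _ hne id
  have hq : qq g φ j = p := hpe
  refine ⟨?_, ?_, ?_⟩
  · rw [hq]; exact Nat.prime_of_mem_primeFactors hp
  · rw [hq]; exact Nat.dvd_of_mem_primeFactors hp
  · intro p' hp' hd
    exact Finset.le_sup (f := id) (Nat.mem_primeFactors.2 ⟨hp', hd, h0⟩)

theorem blk {g x : ι → ℕ} {K d : ℕ} (h : Gen g K) {φ : ι → ι} {J : Finset ι}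
    (hφ : Set.InjOn φ J) (hdisj : ∀ j ∈ J, ∀ l ∈ J, φ l ≠ j) (hx : ∀ i, x i ≤ d)
    (hne : ∀ j ∈ J, x j ≠ x (φ j)) :
    Blk (uu g x φ) (vv g x φ) (qq g φ) (K * d) J := by
  have hce : ∀ j ∈ J, 1 ≤ ce x φ j := by
    intro j hj
    unfold ce
    have := hne j hj
    omega
  have hced : ∀ j, ce x φ j ≤ d := by
    intro j
    unfold ce
    have h1 := hx j
    have h2 := hx (φ j)
    omega
  have hsep : ∀ {p : ℕ}, p.Prime → ∀ {i l : ι}, i ≠ l → p ∣ g i → ¬ p ∣ g l := by
    intro p hp i l hil h1 h2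
    have h3 := Nat.dvd_gcd h1 h2
    rw [h.cop i l hil] at h3
    exact hp.one_lt.ne' (Nat.dvd_one.1 h3)
  refine ⟨?_, ?_, ?_, ?_, ?_, ?_, ?_⟩
  · intro j _
    exact (qq_spec h φ j).1
  · intro j hj
    obtain ⟨h1, h2, -⟩ := qq_spec h φ j
    unfold uu
    refine dvd_pow ?_ (by have := hce j hj; omega)
    split_ifs with h3
    · exact h3
    · rcases (Nat.Prime.dvd_mul h1).1 h2 with h4 | h4
      · exact absurd h4 h3
      · exact h4
  · intro j hj hd
    obtain ⟨h1, h2, -⟩ := qq_spec h φ j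
    have hjφ : j ≠ φ j := fun he => hdisj j hj j hj he.symm
    unfold vv at hd
    have h3 := h1.dvd_of_dvd_pow hd
    split_ifs at h3 with h4
    · exact hsep h1 hjφ h4 h3
    · exact h4 h3
  · intro i hi j hj hij
    obtain ⟨h1, h2, -⟩ := qq_spec h φ j
    have e1 : φ i ≠ j := hdisj j hj i hi
    have e2 : φ j ≠ i := hdisj i hi j hj
    have e3 : φ i ≠ φ j := fun he => hij (hφ (Finset.mem_coe.2 hi) (Finset.mem_coe.2 hj) he)
    have h3 : ¬ qq g φ j ∣ g i ∧ ¬ qq g φ j ∣ g (φ i) := by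
      rcases (Nat.Prime.dvd_mul h1).1 h2 with h4 | h4
      · exact ⟨hsep h1 hij.symm h4, hsep h1 e1.symm h4⟩
      · exact ⟨hsep h1 e2 h4, hsep h1 e3.symm h4⟩
    constructor
    · intro hd
      unfold uu at hd
      have h4 := h1.dvd_of_dvd_pow hd
      split_ifs at h4
      · exact h3.1 h4
      · exact h3.2 h4
    · intro hd
      unfold vv at hd
      have h4 := h1.dvd_of_dvd_pow hd
      split_ifs at h4
      · exact h3.2 h4
      · exact h3.1 h4
  · intro j _
    unfold uu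
    apply pow_pos
    split_ifs
    · exact Nat.pos_of_ne_zero (h.ne_zero _)
    · exact Nat.pos_of_ne_zero (h.ne_zero _)
  all_goals
    intro j _
    obtain ⟨h1, -, h3⟩ := qq_spec h φ j
    have h4 : ∀ i, (∀ p, p ∣ g i → p ∣ g j * g (φ j)) → g i ≤ qq g φ j ^ K := by
      intro i hi
      exact le_pow_top (h.ne_zero i) h1.one_lt.le (fun p hp hd => h3 p hp (hi p hd)) (h.om i)
    have h5 := h4 j fun p hp => hp.mul_right _
    have h6 := h4 (φ j) fun p hp => hp.mul_left _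
    have h7 : ∀ n, n ≤ qq g φ j ^ K → n ^ ce x φ j ≤ qq g φ j ^ (K * d) := by
      intro n hn
      calc n ^ ce x φ j ≤ (qq g φ j ^ K) ^ ce x φ j := Nat.pow_le_pow_left hn _
        _ ≤ (qq g φ j ^ K) ^ d := Nat.pow_le_pow_right (pow_pos h1.pos _) (hced j)
        _ = qq g φ j ^ (K * d) := by rw [← pow_mul]
  · unfold uu
    split_ifs
    · exact h7 _ h5
    · exact h7 _ h6
  · unfold vv
    split_ifs
    · exact h7 _ h6
    · exact h7 _ h5

end blocks

/-- many coordinates outside of the majority: a large sum with every set -/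
theorem caseC (d K : ℕ) (hd : 1 ≤ d) (δ ε : ℝ) (hδ : 0 < δ) (hε : 0 < ε) (hε1 : ε ≤ 1) :
    ∃ C L₀ : ℝ, 0 ≤ C ∧ ∀ (ι : Type) [Fintype ι] (g col x : ι → ℕ) (maj mn : ℕ → ℕ),
      Gen g K → MM col x d maj mn → L₀ ≤ Real.log (Orb col x).card →
      δ * Real.log (Orb col x).card ≤ (univ.filter fun i => x i ≠ maj (col i)).card →
      ∀ B : Finset ℤ, B.Nonempty →
        (1 - ε) * (Real.log (Orb col x).card + Real.log B.card) - C ≤
          Real.log ((AA g col x + B).card : ℝ) := by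
  set ε₁ : ℝ := ε / 2 with hε₁
  have hε10 : 0 < ε₁ := by positivity
  obtain ⟨θ, L₀, hθ, hL₀, hsel⟩ := select d hd δ ε₁ hδ hε10
  set M : ℝ := 1 / ε with hM
  have hM0 : 0 < M := by positivity
  obtain ⟨C, hC0, hC⟩ := cube_dilates ε₁ (θ / (1 + M)) hε10 (by positivity) (K * d)
  refine ⟨C, L₀, hC0, ?_⟩
  intro ι _ g col x maj mn hg hMM hL hs B hB
  set L := Real.log (Orb col x).card with hLdef
  have hL0 : 0 < L := lt_of_lt_of_le hL₀ hL
  have hB0 : 0 ≤ Real.log B.card := Real.log_natCast_nonneg _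
  have hAn : (AA g col x).Nonempty := ⟨_, Finset.mem_image_of_mem _ (self_mem_Orb col x)⟩
  by_cases hBM : Real.log B.card ≤ M * L
  · obtain ⟨J, φ, hφ, hJ, hJc, hX⟩ := hsel ι col x maj mn hMM hL hs
    have hdisj : ∀ j ∈ J, ∀ l ∈ J, φ l ≠ j := by
      intro j hj l hl he
      obtain ⟨h1, -, -⟩ := hJ j hj
      obtain ⟨-, h2, h3⟩ := hJ l hl
      rw [← he, h3, h2] at h1
      exact hMM.ne _ h1.symm
    have hne : ∀ j ∈ J, x j ≠ x (φ j) := by
      intro j hj
      obtain ⟨h1, h2, h3⟩ := hJ j hj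
      rw [h1, h3]
      exact hMM.ne _
    have hblk := blk hg hφ hdisj hMM.le hne
    have hXc : ((XX g col x φ J).card : ℝ) = (XQ col x (J ∪ J.image φ)).card := by
      rw [card_XX hg]
    have hXn : (XX g col x φ J).Nonempty := (XQ_nonempty _ _ _).image _
    have hXL : Real.log (XX g col x φ J).card ≤ L := by
      rw [hXc]
      apply Real.log_le_log
      · exact_mod_cast (XQ_nonempty col x _).card_pos
      · exact_mod_cast Finset.card_le_card (Finset.filter_subset _ _)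
    have hθS : θ / (1 + M) * (Real.log (XX g col x φ J).card + Real.log B.card) ≤ J.card := by
      calc θ / (1 + M) * (Real.log (XX g col x φ J).card + Real.log B.card) ≤
            θ / (1 + M) * ((1 + M) * L) :=
            mul_le_mul_of_nonneg_left (by linarith) (by positivity)
        _ = θ * L := by field_simp
        _ ≤ _ := hJc
    obtain ⟨s, -, hsum⟩ := hC ι _ _ _ J hblk (XX g col x φ J) B hXn hB hθS
    have hsub := dil_XX_subset (g := g) (x := x) hφ (fun j hj => (hJ j hj).2.1) hdisj s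
    have hge : Real.log ((dil (mulJ (uu g x φ) (vv g x φ) J s) (XX g col x φ J) + B).card : ℝ) ≤
        Real.log ((AA g col x + B).card : ℝ) := by
      apply Real.log_le_log
      · exact_mod_cast ((hXn.image _).add hB).card_pos
      · exact_mod_cast Finset.card_le_card (Finset.add_subset_add_right hsub)
    rw [hXc] at hsum
    have h2 : (1 - ε₁) * ((1 - ε₁) * L) ≤ (1 - ε₁) *
        Real.log ((XQ col x (J ∪ J.image φ)).card : ℝ) :=
      mul_le_mul_of_nonneg_left hX (by rw [hε₁]; linarith)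
    have h3 : (1 - ε) * L ≤ (1 - ε₁) * ((1 - ε₁) * L) := by
      rw [hε₁]
      nlinarith [mul_nonneg (mul_nonneg hε.le hε.le) hL0.le]
    have h4 : (1 - ε) * Real.log B.card ≤ (1 - ε₁) * Real.log B.card :=
      mul_le_mul_of_nonneg_right (by rw [hε₁]; linarith) hB0
    linarith
  · push Not at hBM
    have hlow : Real.log B.card ≤ Real.log ((AA g col x + B).card : ℝ) := by
      apply Real.log_le_log (by exact_mod_cast hB.card_pos)
      exact_mod_cast Finset.card_le_card_add_left hAn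
    have h1 : (1 - ε) * (L + Real.log B.card) ≤ Real.log B.card := by
      have h2 : L ≤ ε * Real.log B.card := by
        calc L = ε * (M * L) := by rw [hM]; field_simp
          _ ≤ _ := mul_le_mul_of_nonneg_left hBM.le hε.le
      nlinarith [mul_nonneg hε.le hL0.le]
    linarith

end Pool.Agent.Run7.h650.SP
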