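import Pool.Agent.Run7.h650.SP.Cube

/-!
Sums with dilates by the members of a cube of coprime blocks: most levels are good.
-/

set_option autoImplicit false

namespace Pool.Agent.Run7.h650.SP

open Finset
open Pool.Agent.TH83.SQ (cls dil Cst exists_cst Sz Sz_nonneg bd)
open scoped Pointwise Classical

variable {ι : Type*}

/-- two ratios agree modulo few leading primes -/
theorem lev_count {u v q : ι → ℕ} {K : ℕ} {J : Finset ι} (h : Blk u v q K J) {i j : ι}
    (hi : i ∈ J) (hj : j ∈ J) (hij : i ≠ j) :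
    (J.filter fun l => q i < q l ∧ q j < q l ∧
      (q l : ℤ) ∣ (u i : ℤ) * v j - (u j : ℤ) * v i).card ≤ 2 * K := by
  set L := J.filter fun l => q i < q l ∧ q j < q l ∧
      (q l : ℤ) ∣ (u i : ℤ) * v j - (u j : ℤ) * v i with hL
  set z : ℤ := (u i : ℤ) * v j - (u j : ℤ) * v i with hz
  set Q : ℕ := max (q i) (q j) with hQ
  have hz0 : z ≠ 0 := by
    intro h0
    have h1 : u i * v j = u j * v i := by
      have : (u i : ℤ) * v j = (u j : ℤ) * v i := by linarith
      exact_mod_cast this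
    have h2 : q i ∣ u j * v i := by
      rw [← h1]; exact (h.dvd_u i hi).mul_right _
    rcases (Nat.Prime.dvd_mul (h.prime i hi)).1 h2 with h3 | h3
    · exact (h.other j hj i hi hij.symm).1 h3
    · exact h.not_v i hi h3
  have hQ2 : 2 ≤ Q := (h.prime i hi).two_le.trans (le_max_left _ _)
  have hub : ∀ a b : ℕ, a ≤ Q ^ K → b ≤ Q ^ K → a * b ≤ Q ^ (2 * K) := by
    intro a b ha hb
    calc a * b ≤ Q ^ K * Q ^ K := Nat.mul_le_mul ha hb
      _ = Q ^ (2 * K) := by ring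
  have hq1 : u i ≤ Q ^ K := (h.le_u i hi).trans (Nat.pow_le_pow_left (le_max_left _ _) K)
  have hq2 : v i ≤ Q ^ K := (h.le_v i hi).trans (Nat.pow_le_pow_left (le_max_left _ _) K)
  have hq3 : u j ≤ Q ^ K := (h.le_u j hj).trans (Nat.pow_le_pow_left (le_max_right _ _) K)
  have hq4 : v j ≤ Q ^ K := (h.le_v j hj).trans (Nat.pow_le_pow_left (le_max_right _ _) K)
  have hzle : z.natAbs ≤ Q ^ (2 * K) := by
    have h1 : ((u i * v j : ℕ) : ℤ) ≤ ((Q ^ (2 * K) : ℕ) : ℤ) := by
      exact_mod_cast hub _ _ hq1 hq4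
    have h2 : ((u j * v i : ℕ) : ℤ) ≤ ((Q ^ (2 * K) : ℕ) : ℤ) := by
      exact_mod_cast hub _ _ hq3 hq2
    have h3 : (0 : ℤ) ≤ ((u i * v j : ℕ) : ℤ) := Int.natCast_nonneg _
    have h4 : (0 : ℤ) ≤ ((u j * v i : ℕ) : ℤ) := Int.natCast_nonneg _
    have hz' : z = ((u i * v j : ℕ) : ℤ) - ((u j * v i : ℕ) : ℤ) := by rw [hz]; push_cast; ring
    have h5 : |z| ≤ ((Q ^ (2 * K) : ℕ) : ℤ) := by
      rw [abs_le]; constructor <;> linarith
    have h6 : (z.natAbs : ℤ) ≤ ((Q ^ (2 * K) : ℕ) : ℤ) := by rw [Int.natCast_natAbs]; exact h5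
    exact_mod_cast h6
  have hdvd : (∏ l ∈ L, (q l : ℤ)) ∣ z := by
    refine Finset.prod_dvd_of_coprime ?_ ?_
    · intro a ha b hb hab
      have ha' := (Finset.mem_filter.1 (Finset.mem_coe.1 ha)).1
      have hb' := (Finset.mem_filter.1 (Finset.mem_coe.1 hb)).1
      show IsCoprime (q a : ℤ) (q b : ℤ)
      rw [Nat.isCoprime_iff_coprime, Nat.coprime_primes (h.prime a ha') (h.prime b hb')]
      exact fun he => hab (h.inj ha' hb' he)
    · intro l hl
      exact (Finset.mem_filter.1 hl).2.2.2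
  have hprod : ∏ l ∈ L, q l ≤ z.natAbs := by
    have h1 : (∏ l ∈ L, q l) ∣ z.natAbs := by
      have h2 := Int.natAbs_dvd_natAbs.2 hdvd
      have h3 : (∏ l ∈ L, (q l : ℤ)).natAbs = ∏ l ∈ L, q l := by
        have : (∏ l ∈ L, (q l : ℤ)) = ((∏ l ∈ L, q l : ℕ) : ℤ) := by push_cast; rfl
        rw [this, Int.natAbs_natCast]
      rwa [h3] at h2
    exact Nat.le_of_dvd (Int.natAbs_pos.2 hz0) h1
  have hlow : Q ^ L.card ≤ ∏ l ∈ L, q l := by
    rw [← Finset.prod_const]
    refine Finset.prod_le_prod' fun l hl => ?_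
    have h1 := (Finset.mem_filter.1 hl).2
    exact max_le h1.1.le h1.2.1.le
  have h1 := hlow.trans (hprod.trans hzle)
  exact (Nat.pow_le_pow_iff_right (by omega)).1 h1

theorem card_below_lt {u v q : ι → ℕ} {K : ℕ} {J : Finset ι} (h : Blk u v q K J) (m : ℕ) :
    (J.filter fun l => (below q J l).card < m).card ≤ m := by
  conv_rhs => rw [← Finset.card_range m]
  refine Finset.card_le_card_of_injOn (fun l => (below q J l).card) ?_ ?_
  · intro l hl
    have := (Finset.mem_filter.1 (Finset.mem_coe.1 hl)).2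
    exact Finset.mem_coe.2 (Finset.mem_range.2 this)
  · have key : ∀ a ∈ J, ∀ b ∈ J, q a < q b → (below q J a).card < (below q J b).card := by
      intro a ha b hb hab
      apply Finset.card_lt_card
      rw [Finset.ssubset_iff_of_subset]
      · exact ⟨a, Finset.mem_filter.2 ⟨ha, hab⟩, fun h => lt_irrefl _ (Finset.mem_filter.1 h).2⟩
      · intro c hc
        obtain ⟨h1, h2⟩ := Finset.mem_filter.1 hc
        exact Finset.mem_filter.2 ⟨h1, h2.trans hab⟩
    intro a ha b hb hab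
    have ha' := (Finset.mem_filter.1 (Finset.mem_coe.1 ha)).1
    have hb' := (Finset.mem_filter.1 (Finset.mem_coe.1 hb)).1
    have hab' : (below q J a).card = (below q J b).card := hab
    rcases lt_trichotomy (q a) (q b) with h1 | h1 | h1
    · have := key a ha' b hb' h1; omega
    · exact h.inj ha' hb' h1
    · have := key b hb' a ha' h1; omega

/-- pairs of equal ratios at a bad level -/
theorem bad_pairs {u v q : ι → ℕ} {K : ℕ} {J : Finset ι} (h : Blk u v q K J) {γ : ℝ} (hγ : 0 < γ)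
    {l : ι} (hl : l ∈ J) (hbad : ¬ Good γ u v (q l) (below q J l))
    (hbig : J.card ≤ 4 * (below q J l).card) (hn : 8 / γ ≤ J.card) :
    (γ * J.card / 8) ^ 2 / 2 ≤ ((J ×ˢ J).filter fun w => w.1 ≠ w.2 ∧ q w.1 < q l ∧ q w.2 < q l ∧
      (q l : ℤ) ∣ (u w.1 : ℤ) * v w.2 - (u w.2 : ℤ) * v w.1).card := by
  have hp := h.prime l hl
  have : Fact (q l).Prime := ⟨hp⟩
  have hJn : (0 : ℝ) < J.card := lt_of_lt_of_le (by positivity) hn
  have hbn : (below q J l).Nonempty := by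
    rw [Finset.nonempty_iff_ne_empty]
    intro h0
    rw [h0, Finset.card_empty] at hbig
    have : J.card = 0 := by omega
    rw [this] at hJn
    simp at hJn
  have hbsub : below q J l ⊆ J := Finset.filter_subset _ _
  have hdv : ∀ j ∈ below q J l, ¬ q l ∣ u j ∧ ¬ q l ∣ v j := by
    intro j hj
    obtain ⟨h1, h2⟩ := Finset.mem_filter.1 hj
    exact h.other j h1 l hl (fun he => by rw [he] at h2; exact lt_irrefl _ h2)
  obtain ⟨r, hr⟩ := not_good hp hbn hdv hbad
  set F := (below q J l).filter fun j => rho (q l) u v j = r with hF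
  have hbigR : (J.card : ℝ) ≤ 4 * (below q J l).card := by exact_mod_cast hbig
  have hMμ : γ * J.card / 8 < F.card := by
    refine lt_of_le_of_lt ?_ hr
    have := mul_le_mul_of_nonneg_left hbigR hγ.le
    linarith
  have hμ1 : 1 ≤ γ * J.card / 8 := by
    rw [div_le_iff₀ hγ] at hn
    linarith
  have hM2 : 2 ≤ F.card := by
    have h1 : (1 : ℝ) < F.card := lt_of_le_of_lt hμ1 hMμ
    have h2 : 1 < F.card := by exact_mod_cast h1
    omega
  have hsub : F.offDiag ⊆ (J ×ˢ J).filter fun w => w.1 ≠ w.2 ∧ q w.1 < q l ∧ q w.2 < q l ∧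
      (q l : ℤ) ∣ (u w.1 : ℤ) * v w.2 - (u w.2 : ℤ) * v w.1 := by
    intro w hw
    obtain ⟨h1, h2, h3⟩ := Finset.mem_offDiag.1 hw
    obtain ⟨h4, h5⟩ := Finset.mem_filter.1 h1
    obtain ⟨h6, h7⟩ := Finset.mem_filter.1 h2
    obtain ⟨h8, h9⟩ := Finset.mem_filter.1 h4
    obtain ⟨h10, h11⟩ := Finset.mem_filter.1 h6
    refine Finset.mem_filter.2 ⟨Finset.mem_product.2 ⟨h8, h10⟩, h3, h9, h11, ?_⟩
    rw [← ZMod.intCast_zmod_eq_zero_iff_dvd]
    push_cast
    rw [← h7] at h5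
    unfold rho at h5
    have hv1 : (v w.1 : ZMod (q l)) ≠ 0 := fun h0 =>
      (hdv _ h4).2 ((ZMod.natCast_eq_zero_iff _ _).1 h0)
    have hv2 : (v w.2 : ZMod (q l)) ≠ 0 := fun h0 =>
      (hdv _ h6).2 ((ZMod.natCast_eq_zero_iff _ _).1 h0)
    have h12 : (u w.1 : ZMod (q l)) * v w.2 = u w.2 * v w.1 := by
      calc (u w.1 : ZMod (q l)) * v w.2 =
          (u w.1 * (v w.1 : ZMod (q l))⁻¹) * (v w.1 * v w.2) := by
            field_simp
        _ = (u w.2 * (v w.2 : ZMod (q l))⁻¹) * (v w.1 * v w.2) := by rw [h5]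
        _ = _ := by field_simp
    rw [h12, sub_self]
  have hc1 : (F.offDiag.card : ℝ) = F.card * (F.card - 1) := by
    rw [Finset.offDiag_card]
    have : F.card ≤ F.card * F.card := Nat.le_mul_self _
    push_cast [Nat.cast_sub this]
    ring
  refine le_trans ?_ (Nat.cast_le.2 (Finset.card_le_card hsub))
  rw [hc1]
  have hM2' : (2 : ℝ) ≤ F.card := by exact_mod_cast hM2
  have h3 : (γ * J.card / 8) ^ 2 ≤ (F.card : ℝ) ^ 2 :=
    pow_le_pow_left₀ (by positivity) hMμ.le 2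
  nlinarith

/-- most levels are good -/
theorem gl_large (γ : ℝ) (hγ : 0 < γ) (K : ℕ) : ∃ n₀ : ℕ, ∀ (ι : Type) (u v q : ι → ℕ)
    (J : Finset ι), Blk u v q K J → n₀ ≤ J.card → (J.card : ℝ) / 2 ≤ gl γ u v q J := by
  obtain ⟨n₀, hn₀⟩ := exists_nat_ge (max (8 / γ) (8 + 4 * (256 * K / γ ^ 2)))
  refine ⟨n₀, fun ι u v q J h hn => ?_⟩
  have hnR : (n₀ : ℝ) ≤ J.card := by exact_mod_cast hn
  have h8 : 8 / γ ≤ J.card := ((le_max_left _ _).trans hn₀).trans hnR
  have h9 : 8 + 4 * (256 * K / γ ^ 2) ≤ (J.card : ℝ) := ((le_max_right _ _).trans hn₀).trans hnR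
  have hJ0 : (0 : ℝ) < J.card := lt_of_lt_of_le (by positivity) h8
  set Bd := J.filter fun l => ¬ Good γ u v (q l) (below q J l) with hBd
  set B₂ := Bd.filter fun l => J.card ≤ 4 * (below q J l).card with hB₂
  have hsplit : gl γ u v q J + Bd.card = J.card := by
    unfold gl
    exact Finset.card_filter_add_card_filter_not _
  have hB : Bd.card ≤ (J.card / 4 + 1) + B₂.card := by
    have h1 : Bd ⊆ (J.filter fun l => (below q J l).card < J.card / 4 + 1) ∪ B₂ := by
      intro l hl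
      rw [Finset.mem_union]
      by_cases hc : J.card ≤ 4 * (below q J l).card
      · exact Or.inr (Finset.mem_filter.2 ⟨hl, hc⟩)
      · exact Or.inl (Finset.mem_filter.2 ⟨(Finset.mem_filter.1 hl).1, by omega⟩)
    refine (Finset.card_le_card h1).trans ((Finset.card_union_le _ _).trans ?_)
    exact Nat.add_le_add_right (card_below_lt h _) _
  -- double counting
  set R : ι → ι × ι → Prop := fun l w => w.1 ≠ w.2 ∧ q w.1 < q l ∧ q w.2 < q l ∧
      (q l : ℤ) ∣ (u w.1 : ℤ) * v w.2 - (u w.2 : ℤ) * v w.1 with hR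
  have hdc : ∑ l ∈ J, ((J ×ˢ J).filter fun w => R l w).card =
      ∑ w ∈ J ×ˢ J, (J.filter fun l => R l w).card := by
    simp only [Finset.card_filter]
    rw [Finset.sum_comm]
  have hup : ∑ w ∈ J ×ˢ J, (J.filter fun l => R l w).card ≤ (J.card * J.card) * (2 * K) := by
    rw [← Finset.card_product, ← smul_eq_mul, ← Finset.sum_const]
    refine Finset.sum_le_sum fun w hw => ?_
    obtain ⟨h1, h2⟩ := Finset.mem_product.1 hw
    by_cases hne : w.1 = w.2
    · rw [Finset.filter_false_of_mem]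
      · simp
      · intro l _ hc
        exact hc.1 hne
    · refine (Finset.card_le_card ?_).trans (lev_count h h1 h2 hne)
      intro l hl
      obtain ⟨h3, h4⟩ := Finset.mem_filter.1 hl
      exact Finset.mem_filter.2 ⟨h3, h4.2.1, h4.2.2.1, h4.2.2.2⟩
  have hlow : (B₂.card : ℝ) * ((γ * J.card / 8) ^ 2 / 2) ≤
      ((∑ l ∈ J, ((J ×ˢ J).filter fun w => R l w).card : ℕ) : ℝ) := by
    have h1 : ∑ l ∈ B₂, ((J ×ˢ J).filter fun w => R l w).card ≤
        ∑ l ∈ J, ((J ×ˢ J).filter fun w => R l w).card :=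
      Finset.sum_le_sum_of_subset ((Finset.filter_subset _ _).trans (Finset.filter_subset _ _))
    have h2 : (B₂.card : ℝ) * ((γ * J.card / 8) ^ 2 / 2) ≤
        ((∑ l ∈ B₂, ((J ×ˢ J).filter fun w => R l w).card : ℕ) : ℝ) := by
      rw [← nsmul_eq_mul, ← Finset.sum_const]
      push_cast
      refine Finset.sum_le_sum fun l hl => ?_
      obtain ⟨h3, h4⟩ := Finset.mem_filter.1 hl
      obtain ⟨h5, h6⟩ := Finset.mem_filter.1 h3
      exact bad_pairs h hγ h5 h6 h4 h8
    exact h2.trans (by exact_mod_cast h1)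
  have hfin : (B₂.card : ℝ) ≤ 256 * K / γ ^ 2 := by
    have h1 : (B₂.card : ℝ) * ((γ * J.card / 8) ^ 2 / 2) ≤ (J.card * J.card) * (2 * K) := by
      refine hlow.trans ?_
      rw [hdc]
      exact_mod_cast hup
    rw [le_div_iff₀ (by positivity)]
    have h2 : (0 : ℝ) < (J.card : ℝ) ^ 2 := by positivity
    have h3 : (B₂.card : ℝ) * γ ^ 2 * (J.card : ℝ) ^ 2 ≤ 256 * K * (J.card : ℝ) ^ 2 := by
      nlinarith
    exact le_of_mul_le_mul_right h3 h2
  have hBR : (Bd.card : ℝ) ≤ (J.card : ℝ) / 4 + 1 + B₂.card := by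
    have h1 : ((J.card / 4 : ℕ) : ℝ) ≤ (J.card : ℝ) / 4 := Nat.cast_div_le
    have h2 : (Bd.card : ℝ) ≤ ((J.card / 4 : ℕ) : ℝ) + 1 + B₂.card := by exact_mod_cast hB
    linarith
  have hs : (gl γ u v q J : ℝ) + Bd.card = J.card := by exact_mod_cast hsplit
  linarith

/-- **Sums of dilates by a cube of coprime blocks**: some dilate has a large sum set -/
theorem cube_dilates (δ θ : ℝ) (hδ : 0 < δ) (hθ : 0 < θ) (K : ℕ) :
    ∃ C : ℝ, 0 ≤ C ∧ ∀ (ι : Type) (u v q : ι → ℕ) (J : Finset ι), Blk u v q K J →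
      ∀ X B : Finset ℤ, X.Nonempty → B.Nonempty →
      θ * (Real.log X.card + Real.log B.card) ≤ J.card →
      ∃ s ⊆ J, (1 - δ) * (Real.log X.card + Real.log B.card) - C ≤
        Real.log ((dil (mulJ u v J s) X + B).card : ℝ) := by
  have hδm : 0 < min δ (1 / 2) := by positivity
  obtain ⟨c⟩ := exists_cst (min δ (1 / 2)) (8 / θ) hδm
  have hj₀ : (0 : ℝ) < c.j₀ := by
    have := c.hj₀1
    exact_mod_cast this
  obtain ⟨n₀, hn₀⟩ := gl_large (2 / c.j₀) (by positivity) K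
  set C₁ : ℝ := Real.log c.K₀ + (8 / θ / 2) * Real.exp ((c.j₀ : ℝ) / 2) with hC₁
  have hC₁0 : 0 ≤ C₁ := add_nonneg (Real.log_natCast_nonneg _) (by positivity)
  refine ⟨max C₁ (n₀ / θ), le_max_of_le_left hC₁0, ?_⟩
  intro ι u v q J hblk X B hX hB hS
  have hS0 : 0 ≤ Sz X B := Sz_nonneg X B
  have hSe : Sz X B = Real.log X.card + Real.log B.card := rfl
  rw [← hSe] at hS ⊢
  by_cases hn : J.card < n₀
  · refine ⟨∅, Finset.empty_subset _, ?_⟩
    have h1 : Sz X B ≤ n₀ / θ := by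
      rw [le_div_iff₀ hθ]
      have : (J.card : ℝ) ≤ n₀ := by exact_mod_cast hn.le
      linarith
    have h2 := le_max_right C₁ (n₀ / θ)
    have h3 : 0 ≤ δ * Sz X B := by positivity
    have h4 : 0 ≤ Real.log ((dil (mulJ u v J ∅) X + B).card : ℝ) := Real.log_natCast_nonneg _
    linarith
  push Not at hn
  have hg := hn₀ ι u v q J hblk hn
  have hδ1 : min δ (1 / 2) < 1 := lt_of_le_of_lt (min_le_right _ _) (by norm_num)
  have h := tJ_ge hδm hδ1 (by positivity : 0 < 8 / θ) c J hblk X B hX hB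
  have h1 : (1 - δ) * Sz X B - max C₁ (n₀ / θ) ≤ tJ u v J X B := by
    refine le_trans ?_ h
    unfold bd
    have h2 : Real.exp (2 / (8 / θ) * Sz X B - (gl (2 / c.j₀) u v q J : ℝ) / 2) ≤ 1 := by
      rw [Real.exp_le_one_iff]
      have h3 : 2 / (8 / θ) * Sz X B = θ * Sz X B / 4 := by
        field_simp; ring
      rw [h3]
      linarith
    have h4 : (8 / θ / 2) * Real.exp ((c.j₀ : ℝ) / 2) *
        Real.exp (2 / (8 / θ) * Sz X B - (gl (2 / c.j₀) u v q J : ℝ) / 2) ≤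
        (8 / θ / 2) * Real.exp ((c.j₀ : ℝ) / 2) * 1 :=
      mul_le_mul_of_nonneg_left h2 (by positivity)
    have h5 : (1 - δ) * Sz X B ≤ (1 - min δ (1 / 2)) * Sz X B :=
      mul_le_mul_of_nonneg_right (by have := min_le_left δ (1 / 2); linarith) hS0
    have h6 := le_max_left C₁ (n₀ / θ)
    linarith
  by_contra hcon
  push Not at hcon
  have h7 : tJ u v J X B < (1 - δ) * Sz X B - max C₁ (n₀ / θ) := by
    unfold tJ tg
    have hc : (0 : ℝ) < J.powerset.card := by
      exact_mod_cast Finset.card_pos.2 ⟨∅, Finset.empty_mem_powerset _⟩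
    rw [div_lt_iff₀ hc]
    have h8 : ∑ s ∈ J.powerset, Real.log ((dil (mulJ u v J s) X + B).card : ℝ) <
        ∑ s ∈ J.powerset, ((1 - δ) * Sz X B - max C₁ (n₀ / θ)) :=
      Finset.sum_lt_sum_of_nonempty ⟨∅, by simp⟩ fun s hs => hcon s (Finset.mem_powerset.1 hs)
    rw [Finset.sum_const, nsmul_eq_mul] at h8
    linarith
  linarith

end Pool.Agent.Run7.h650.SP
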