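import Pool.Agent.Run7.h650.SP.Anti

/-!
Sums with dilates by the members of a cube `∏ (u j or v j)` of coprime blocks: the induction.
-/

set_option autoImplicit false

namespace Pool.Agent.Run7.h650.SP

open Finset
open Pool.Agent.TH83.SQ (cls dil mx le_mx mx_le exists_mx mx_one' mx_large Cst exists_cst Sz
  Sz_nonneg bd bd_small bd_low bd_comb bd_mono psi sel sel_log avg_ge card_dil cls_sub)
open Pool.Agent.TH959.SQ (dil_nonempty mem_dil mem_cls)
open scoped Pointwise Classical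

variable {ι : Type*}

/-- coprime blocks with a leading prime -/
structure Blk (u v q : ι → ℕ) (K : ℕ) (J : Finset ι) : Prop where
  prime : ∀ j ∈ J, (q j).Prime
  dvd_u : ∀ j ∈ J, q j ∣ u j
  not_v : ∀ j ∈ J, ¬ q j ∣ v j
  other : ∀ i ∈ J, ∀ j ∈ J, i ≠ j → ¬ q j ∣ u i ∧ ¬ q j ∣ v i
  pos_u : ∀ j ∈ J, 0 < u j
  le_u : ∀ j ∈ J, u j ≤ q j ^ K
  le_v : ∀ j ∈ J, v j ≤ q j ^ K

theorem Blk.mono {u v q : ι → ℕ} {K : ℕ} {J J' : Finset ι} (h : Blk u v q K J) (hs : J' ⊆ J) :
    Blk u v q K J' where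
  prime := fun j hj => h.prime j (hs hj)
  dvd_u := fun j hj => h.dvd_u j (hs hj)
  not_v := fun j hj => h.not_v j (hs hj)
  other := fun i hi j hj => h.other i (hs hi) j (hs hj)
  pos_u := fun j hj => h.pos_u j (hs hj)
  le_u := fun j hj => h.le_u j (hs hj)
  le_v := fun j hj => h.le_v j (hs hj)

theorem Blk.inj {u v q : ι → ℕ} {K : ℕ} {J : Finset ι} (h : Blk u v q K J) {i j : ι}
    (hi : i ∈ J) (hj : j ∈ J) (he : q i = q j) : i = j := by
  by_contra hne
  have h1 := (h.other i hi j hj hne).1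
  rw [← he] at h1
  exact h1 (h.dvd_u i hi)

/-- the blocks below `l` -/
noncomputable def below (q : ι → ℕ) (J : Finset ι) (l : ι) : Finset ι := J.filter fun i => q i < q l

/-- the number of the good levels -/
noncomputable def gl (γ : ℝ) (u v q : ι → ℕ) (J : Finset ι) : ℕ :=
  (J.filter fun l => Good γ u v (q l) (below q J l)).card

theorem below_insert {q : ι → ℕ} {J : Finset ι} {j₀ : ι} (hmax : ∀ i ∈ J, q i < q j₀) :
    (∀ l ∈ J, below q (insert j₀ J) l = below q J l) ∧ below q (insert j₀ J) j₀ = J := by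
  constructor
  · intro l hl
    unfold below
    rw [Finset.filter_insert, if_neg (by have := hmax l hl; omega)]
  · unfold below
    rw [Finset.filter_insert, if_neg (lt_irrefl _), Finset.filter_true_of_mem hmax]

theorem gl_insert {γ : ℝ} {u v q : ι → ℕ} {J : Finset ι} {j₀ : ι} (hj : j₀ ∉ J)
    (hmax : ∀ i ∈ J, q i < q j₀) :
    gl γ u v q (insert j₀ J) = gl γ u v q J + if Good γ u v (q j₀) J then 1 else 0 := by
  obtain ⟨h1, h2⟩ := below_insert hmax
  unfold gl
  rw [Finset.filter_insert, h2]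
  have h3 : (J.filter fun l => Good γ u v (q l) (below q (insert j₀ J) l)) =
      J.filter fun l => Good γ u v (q l) (below q J l) := by
    refine Finset.filter_congr fun l hl => ?_
    rw [h1 l hl]
  rw [h3]
  split_ifs with hg
  · rw [Finset.card_insert_of_notMem]
    exact fun h => hj (Finset.mem_filter.1 h).1
  · rw [add_zero]

theorem dil_dil (d e : ℤ) (X : Finset ℤ) : dil d (dil e X) = dil (d * e) X := by
  unfold dil
  rw [Finset.image_image]
  congr 1
  funext x
  simp [mul_assoc]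

/-- the mean over the cube -/
noncomputable def tJ (u v : ι → ℕ) (J : Finset ι) (X B : Finset ℤ) : ℝ :=
  tg J.powerset (mulJ u v J) X B

theorem tJ_nonneg (u v : ι → ℕ) (J : Finset ι) (X B : Finset ℤ) : 0 ≤ tJ u v J X B :=
  tg_nonneg _ _ _ _

theorem tJ_insert {u v : ι → ℕ} {J : Finset ι} {j₀ : ι} (hj : j₀ ∉ J) (X B : Finset ℤ) :
    tJ u v (insert j₀ J) X B = (tJ u v J (dil (v j₀ : ℤ) X) B + tJ u v J (dil (u j₀ : ℤ) X) B) / 2 := by
  unfold tJ tg
  rw [Finset.sum_powerset_insert hj, Finset.card_powerset, Finset.card_powerset,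
    Finset.card_insert_of_notMem hj]
  have h1 : ∀ s ∈ J.powerset, Real.log ((dil (mulJ u v (insert j₀ J) s) X + B).card : ℝ) =
      Real.log ((dil (mulJ u v J s) (dil (v j₀ : ℤ) X) + B).card : ℝ) := by
    intro s hs
    rw [mulJ_insert_right hj (Finset.mem_powerset.1 hs), dil_dil]
  have h2 : ∀ s ∈ J.powerset, Real.log ((dil (mulJ u v (insert j₀ J) (insert j₀ s)) X + B).card : ℝ) =
      Real.log ((dil (mulJ u v J s) (dil (u j₀ : ℤ) X) + B).card : ℝ) := by
    intro s hs
    rw [mulJ_insert_left hj (Finset.mem_powerset.1 hs), dil_dil]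
  rw [Finset.sum_congr rfl h1, Finset.sum_congr rfl h2]
  push_cast
  rw [pow_succ]
  have h3 : (2 : ℝ) ^ J.card ≠ 0 := by positivity
  field_simp

theorem cls_dil_coprime {Q w : ℤ} (h : IsCoprime Q w) (X : Finset ℤ) (x : ℤ) :
    cls Q (dil w X) (w * x) = dil w (cls Q X x) := by
  ext y
  rw [mem_cls, mem_dil, mem_dil]
  constructor
  · rintro ⟨⟨z, hz, rfl⟩, hd⟩
    refine ⟨z, mem_cls.2 ⟨hz, ?_⟩, rfl⟩
    rw [← mul_sub] at hd
    exact h.dvd_of_dvd_mul_left hd
  · rintro ⟨z, hz, rfl⟩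
    obtain ⟨h1, h2⟩ := mem_cls.1 hz
    refine ⟨⟨z, h1, rfl⟩, ?_⟩
    rw [← mul_sub]
    exact h2.mul_left _

theorem tJ_ge {δ R : ℝ} (hδ : 0 < δ) (hδ1 : δ < 1) (hR : 0 < R) (c : Cst δ R)
    {u v q : ι → ℕ} {K : ℕ} (J : Finset ι) :
    Blk u v q K J → ∀ X B : Finset ℤ, X.Nonempty → B.Nonempty →
      bd δ R c (gl (2 / c.j₀) u v q J) (Sz X B) ≤ tJ u v J X B := by
  have hl : 0 < Real.log 2 := Real.log_pos (by norm_num)
  induction J using Finset.induction_on_max_value q with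
  | empty =>
    intro _ X B hX hB
    exact (bd_small hδ hR c (by simp [gl]) (Sz_nonneg X B)).trans (tJ_nonneg _ _ _ _ _)
  | insert j₀ J hj hmax' ih' =>
    intro hblk X B hX hB
    have hblkJ : Blk u v q K J := hblk.mono (Finset.subset_insert _ _)
    have ih := ih' hblkJ
    have hj₀m : j₀ ∈ insert j₀ J := Finset.mem_insert_self _ _
    have hmax : ∀ i ∈ J, q i < q j₀ := by
      intro i hi
      refine lt_of_le_of_ne (hmax' i hi) fun he => ?_
      have := hblk.inj (Finset.mem_insert_of_mem hi) hj₀m he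
      exact hj (this ▸ hi)
    set p : ℕ := q j₀ with hpdef
    have hp : p.Prime := hblk.prime j₀ hj₀m
    have hpu : (p : ℤ) ∣ (u j₀ : ℤ) := by exact_mod_cast hblk.dvd_u j₀ hj₀m
    have hpv : ¬ p ∣ v j₀ := hblk.not_v j₀ hj₀m
    have hv0 : (v j₀ : ℤ) ≠ 0 := by
      intro h0
      apply hpv
      have : v j₀ = 0 := by exact_mod_cast h0
      rw [this]; exact dvd_zero _
    have hu0 : (u j₀ : ℤ) ≠ 0 := by
      have := hblk.pos_u j₀ hj₀m
      exact_mod_cast this.ne'
    have hcopv : IsCoprime (p : ℤ) (v j₀ : ℤ) :=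
      Nat.isCoprime_iff_coprime.2 ((Nat.Prime.coprime_iff_not_dvd hp).2 hpv)
    have hpJ : ∀ i ∈ J, ¬ p ∣ u i ∧ ¬ p ∣ v i := by
      intro i hi
      exact hblk.other i (Finset.mem_insert_of_mem hi) j₀ hj₀m (fun h => hj (h ▸ hi))
    have hSne : (J.powerset).Nonempty := ⟨∅, Finset.empty_mem_powerset _⟩
    rw [gl_insert hj hmax, tJ_insert hj]
    set X₁ : Finset ℤ := dil (v j₀ : ℤ) X with hX₁
    set X₂ : Finset ℤ := dil (u j₀ : ℤ) X with hX₂
    have hX₁n : X₁.Nonempty := dil_nonempty hX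
    have hX₂n : X₂.Nonempty := dil_nonempty hX
    have hX₁c : X₁.card = X.card := card_dil hv0 X
    have hX₂c : X₂.card = X.card := card_dil hu0 X
    have hSz₁ : Sz X₁ B = Sz X B := by unfold Sz; rw [hX₁c]
    have hSz₂ : Sz X₂ B = Sz X B := by unfold Sz; rw [hX₂c]
    have h01 := ih X₁ B hX₁n hB
    have h02 := ih X₂ B hX₂n hB
    rw [hSz₁] at h01
    rw [hSz₂] at h02
    by_cases hgood : Good (2 / c.j₀) u v p J
    swap
    · rw [if_neg hgood, add_zero]
      linarith
    rw [if_pos hgood]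
    set g₀ := gl (2 / c.j₀) u v q J with hg₀
    by_cases hS : Sz X B ≤ Real.log c.K₀
    · have h1 := bd_low (j := g₀ + 1) hδ hR c (Sz_nonneg X B) hS
      have h2 := tJ_nonneg u v J X₁ B
      have h3 := tJ_nonneg u v J X₂ B
      linarith
    push Not at hS
    have hK0 : (0 : ℝ) < c.K₀ := by
      have := c.K₀2
      exact_mod_cast (by omega : 0 < c.K₀)
    have cX : (0 : ℝ) < X₁.card := by exact_mod_cast hX₁n.card_pos
    have cB : (0 : ℝ) < B.card := by exact_mod_cast hB.card_pos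
    rw [← hSz₁] at hS
    have hbig : c.K₀ ≤ X₁.card * B.card := by
      have h1 : Real.log c.K₀ < Real.log (X₁.card * B.card) := by
        rw [Real.log_mul cX.ne' cB.ne']; exact hS
      have h2 := (Real.log_lt_log_iff hK0 (by positivity)).1 h1
      exact_mod_cast h2.le
    -- the level
    have hex : ∃ J : ℕ, mx ((p : ℤ) ^ J) X₁ * mx ((p : ℤ) ^ J) B * c.K₀ ≤ X₁.card * B.card := by
      obtain ⟨J₁, h1⟩ := mx_large hp.two_le X₁
      obtain ⟨J₂, h2⟩ := mx_large hp.two_le B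
      refine ⟨max J₁ J₂, ?_⟩
      calc mx ((p : ℤ) ^ max J₁ J₂) X₁ * mx ((p : ℤ) ^ max J₁ J₂) B * c.K₀ ≤ 1 * 1 * c.K₀ :=
            Nat.mul_le_mul_right _ (Nat.mul_le_mul (h1 _ (le_max_left _ _))
              (h2 _ (le_max_right _ _)))
        _ ≤ _ := by rw [one_mul, one_mul]; exact hbig
    obtain ⟨I, hI, hI'⟩ : ∃ I : ℕ,
        mx ((p : ℤ) ^ (I + 1)) X₁ * mx ((p : ℤ) ^ (I + 1)) B * c.K₀ ≤ X₁.card * B.card ∧
        X₁.card * B.card < mx ((p : ℤ) ^ I) X₁ * mx ((p : ℤ) ^ I) B * c.K₀ := by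
      have h1 := Nat.find_spec hex
      have h2 : Nat.find hex ≠ 0 := by
        intro h0
        rw [h0, pow_zero, mx_one' hX₁n, mx_one' hB] at h1
        have h3 : 0 < X₁.card * B.card := Nat.mul_pos hX₁n.card_pos hB.card_pos
        have := c.K₀2
        nlinarith
      obtain ⟨I, hIe⟩ := Nat.exists_eq_succ_of_ne_zero h2
      refine ⟨I, ?_, ?_⟩
      · rw [hIe] at h1; exact h1
      · have := Nat.find_min hex (m := I) (by rw [hIe]; exact Nat.lt_succ_self I)
        exact not_le.1 this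
    -- the heavy class of `X`
    obtain ⟨x₁, hx₁, hx₁m⟩ := exists_mx ((p : ℤ) ^ I) hX₁n
    have hheavy : X₁.card ≤ (cls ((p : ℤ) ^ I) X₁ x₁).card * c.K₀ := by
      rw [hx₁m]
      by_contra hcon
      push Not at hcon
      have h1 := mx_le ((p : ℤ) ^ I) B
      have h2 : mx ((p : ℤ) ^ I) X₁ * mx ((p : ℤ) ^ I) B * c.K₀ ≤
          mx ((p : ℤ) ^ I) X₁ * B.card * c.K₀ :=
        Nat.mul_le_mul_right _ (Nat.mul_le_mul_left _ h1)
      have h3 : mx ((p : ℤ) ^ I) X₁ * B.card * c.K₀ = mx ((p : ℤ) ^ I) X₁ * c.K₀ * B.card := by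
        ring
      have h4 : mx ((p : ℤ) ^ I) X₁ * c.K₀ * B.card ≤ X₁.card * B.card :=
        Nat.mul_le_mul_right _ hcon.le
      omega
    obtain ⟨x₀, hx₀, hx₀e⟩ := mem_dil.1 hx₁
    have hclsc : (cls ((p : ℤ) ^ I) X₁ x₁).card = (cls ((p : ℤ) ^ I) X x₀).card := by
      rw [← hx₀e, hX₁, cls_dil_coprime (IsCoprime.pow_left hcopv), card_dil hv0]
    -- the selections
    obtain ⟨iX, T, hT, hTn, hTi, hT1, hT2⟩ := sel ((p : ℤ) ^ (I + 1)) X₁ hX₁n
    obtain ⟨iB, U, hU, hUn, hUi, hU1, hU2⟩ := sel ((p : ℤ) ^ (I + 1)) B hB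
    obtain ⟨hTl, hTk, hTc⟩ := sel_log hX₁n hT hTn hTi hT1 hT2
    obtain ⟨hUl, hUk, hUc⟩ := sel_log hB hU hUn hUi hU1 hU2
    have hsum : c.K₀ ≤ 2 ^ (iX + iB + 2) := by
      obtain ⟨t, ht⟩ := hTn
      obtain ⟨w, hw⟩ := hUn
      have h1 := (hT1 t ht).1.trans (Nat.mul_le_mul_left _ (le_mx _ (hT ht)))
      have h2 := (hU1 w hw).1.trans (Nat.mul_le_mul_left _ (le_mx _ (hU hw)))
      have h3 : X₁.card * B.card ≤ 2 ^ (iX + iB + 2) *
          (mx ((p : ℤ) ^ (I + 1)) X₁ * mx ((p : ℤ) ^ (I + 1)) B) := by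
        calc X₁.card * B.card ≤ (2 ^ (iX + 1) * mx ((p : ℤ) ^ (I + 1)) X₁) *
              (2 ^ (iB + 1) * mx ((p : ℤ) ^ (I + 1)) B) := Nat.mul_le_mul h1 h2
          _ = _ := by ring
      have h4 : 0 < mx ((p : ℤ) ^ (I + 1)) X₁ * mx ((p : ℤ) ^ (I + 1)) B := by
        rcases Nat.eq_zero_or_pos (mx ((p : ℤ) ^ (I + 1)) X₁ * mx ((p : ℤ) ^ (I + 1)) B) with
          h | h
        · rw [h, mul_zero] at h3
          have : 0 < X₁.card * B.card := Nat.mul_pos hX₁n.card_pos hB.card_pos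
          omega
        · exact h
      have h5 : mx ((p : ℤ) ^ (I + 1)) X₁ * mx ((p : ℤ) ^ (I + 1)) B * c.K₀ ≤
          mx ((p : ℤ) ^ (I + 1)) X₁ * mx ((p : ℤ) ^ (I + 1)) B * 2 ^ (iX + iB + 2) := by
        rw [mul_comm (mx _ X₁ * mx _ B) (2 ^ _)]
        exact hI.trans h3
      exact Nat.le_of_mul_le_mul_left h5 h4
    obtain ⟨hnum, hRsum⟩ := c.hK₀ iX iB hsum
    have hδ' : 0 ≤ 1 - δ := by linarith
    have hTc' : (T.card : ℝ) ≤ 2 ^ (iX + 1) := by exact_mod_cast hTc
    have hUc' : (U.card : ℝ) ≤ 2 ^ (iB + 1) := by exact_mod_cast hUc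
    by_cases hiB : c.MB ≤ iB
    · -- the second summand has large residue entropy
      obtain ⟨hB1, hB2⟩ := c.hMB iB hiB
      have hcI := caseI (p := p) hSne (mulJ u v J) X B I (u j₀ : ℤ) hpu x₀ hx₀ U hU hUn hUi
      refine bd_comb hR c (S' := Sz X B - iB * Real.log 2) (g := Real.log U.card -
        (1 - δ) * (Real.log c.K₀ + Real.log 2)) (by linarith) ?_ h01 (le_trans ?_ hcI)
      · have hk : 0 ≤ δ * (Real.log c.K₀ + Real.log 2) :=
          mul_nonneg hδ.le (add_nonneg (Real.log_natCast_nonneg _) hl.le)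
        linarith
      · have h1 : ∀ t ∈ U, (1 - δ) * (Sz X B - Real.log c.K₀ - (iB + 1) * Real.log 2) -
            Real.log c.K₀ - (R / 2) * Real.exp ((c.j₀ : ℝ) / 2) *
            Real.exp (2 / R * (Sz X B - iB * Real.log 2) - (g₀ : ℝ) / 2) ≤
            tg J.powerset (mulJ u v J) (dil (u j₀ : ℤ) (cls ((p : ℤ) ^ I) X x₀))
              (cls ((p : ℤ) ^ (I + 1)) B t) := by
          intro t ht
          obtain ⟨h2, h3⟩ := hUl t ht
          have hn1 : (cls ((p : ℤ) ^ I) X x₀).Nonempty := ⟨x₀, self_mem_cls _ hx₀⟩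
          have h4 := ih (dil (u j₀ : ℤ) (cls ((p : ℤ) ^ I) X x₀)) (cls ((p : ℤ) ^ (I + 1)) B t)
            (dil_nonempty hn1) ⟨t, self_mem_cls _ (hU ht)⟩
          refine le_trans ?_ h4
          have h5 : Sz (dil (u j₀ : ℤ) (cls ((p : ℤ) ^ I) X x₀)) (cls ((p : ℤ) ^ (I + 1)) B t) =
              Real.log (cls ((p : ℤ) ^ I) X x₀).card +
                Real.log (cls ((p : ℤ) ^ (I + 1)) B t).card := by
            unfold Sz
            rw [card_dil hu0]
          have cc : (0 : ℝ) < (cls ((p : ℤ) ^ I) X x₀).card := by exact_mod_cast hn1.card_pos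
          have h6 : Real.log (cls ((p : ℤ) ^ I) X x₀).card ≤ Real.log X.card :=
            Real.log_le_log cc (by exact_mod_cast Finset.card_le_card (cls_sub _ _ _))
          have h7 : Real.log X.card ≤ Real.log (cls ((p : ℤ) ^ I) X x₀).card +
              Real.log c.K₀ := by
            rw [← Real.log_mul cc.ne' hK0.ne', ← hX₁c]
            apply Real.log_le_log cX
            rw [hclsc] at hheavy
            exact_mod_cast hheavy
          apply bd_mono hR c
          · apply mul_le_mul_of_nonneg_left _ hδ'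
            rw [h5]
            unfold Sz
            linarith
          · rw [h5]
            unfold Sz
            linarith
        have h2 := avg_ge hUn h1
        unfold bd
        nlinarith
    push Not at hiB
    by_cases hiX : c.MX ≤ iX
    · -- the first summand has large residue entropy
      obtain ⟨hX1, hX2⟩ := c.hMX iX hiX
      obtain ⟨b₀, hb₀⟩ := hUn
      have hcI := caseIIa (p := p) hSne (mulJ u v J) (fun s _ => mulJ_coprime hp hpJ s)
        X₁ B (I + 1) T hT hTn hTi b₀ (hU hb₀)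
      rw [add_comm (tJ u v J X₁ B)]
      have hiB' : (iB : ℝ) + 1 ≤ c.MB := by exact_mod_cast hiB
      refine bd_comb hR c (S' := Sz X B - iX * Real.log 2) (g := Real.log T.card -
        (1 - δ) * ((c.MB + 1) * Real.log 2)) (by linarith) ?_ h02 (le_trans ?_ hcI)
      · have hk : 0 ≤ δ * (((c.MB : ℝ) + 1) * Real.log 2) := by positivity
        linarith
      · obtain ⟨h8, h9⟩ := hUl b₀ hb₀
        have h1 : ∀ t ∈ T, (1 - δ) * (Sz X B - (iX + 1) * Real.log 2 - (iB + 1) * Real.log 2) -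
            Real.log c.K₀ - (R / 2) * Real.exp ((c.j₀ : ℝ) / 2) *
            Real.exp (2 / R * (Sz X B - iX * Real.log 2) - (g₀ : ℝ) / 2) ≤
            tg J.powerset (mulJ u v J) (cls ((p : ℤ) ^ (I + 1)) X₁ t)
              (cls ((p : ℤ) ^ (I + 1)) B b₀) := by
          intro t ht
          obtain ⟨h2, h3⟩ := hTl t ht
          have h4 := ih (cls ((p : ℤ) ^ (I + 1)) X₁ t) (cls ((p : ℤ) ^ (I + 1)) B b₀)
            ⟨t, self_mem_cls _ (hT ht)⟩ ⟨b₀, self_mem_cls _ (hU hb₀)⟩
          refine le_trans ?_ h4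
          have h10 : 0 ≤ iB * Real.log 2 := by positivity
          rw [hX₁c] at h2 h3
          apply bd_mono hR c
          · apply mul_le_mul_of_nonneg_left _ hδ'
            unfold Sz
            linarith
          · unfold Sz
            linarith
        have h2 := avg_ge hTn h1
        have h10 : (1 - δ) * ((iB + 1) * Real.log 2) ≤ (1 - δ) * (c.MB * Real.log 2) :=
          mul_le_mul_of_nonneg_left (mul_le_mul_of_nonneg_right hiB' hl.le) hδ'
        unfold bd
        nlinarith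
    push Not at hiX
    · -- both small: generic dilates
      have hβ : ((T.card : ℝ) * U.card) ^ 2 * (2 / c.j₀) ≤ δ / 2 := by
        have h1 : (2 : ℝ) ^ (iX + 1) ≤ 2 ^ c.MX :=
          pow_le_pow_right₀ (by norm_num) (by omega)
        have h2 : (2 : ℝ) ^ (iB + 1) ≤ 2 ^ c.MB :=
          pow_le_pow_right₀ (by norm_num) (by omega)
        have h3 : (T.card : ℝ) * U.card ≤ 2 ^ c.MX * 2 ^ c.MB :=
          mul_le_mul (hTc'.trans h1) (hUc'.trans h2) (by positivity) (by positivity)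
        have h4 : ((T.card : ℝ) * U.card) ^ 2 ≤ (2 ^ c.MX * 2 ^ c.MB) ^ 2 :=
          pow_le_pow_left₀ (by positivity) h3 2
        have hj₀ : (0 : ℝ) < c.j₀ := by
          have := c.hj₀1
          exact_mod_cast this
        rw [mul_div_assoc', div_le_iff₀ hj₀]
        linarith [c.hj₀]
      have hcI := caseIIb hp hSne (mulJ u v J) (2 / c.j₀) hgood X₁ B (I + 1) T hT hTn hTi
        U hU hUn hUi (δ / 2) hβ
      rw [add_comm (tJ u v J X₁ B)]
      refine bd_comb hR c (S' := Sz X B - (iX + iB) * Real.log 2)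
        (g := (1 - δ / 2) * (Real.log T.card + Real.log U.card) - (1 - δ) * (2 * Real.log 2))
        (by linarith) ?_ h02 (le_trans ?_ hcI)
      · have hx1 : (1 - δ / 2) * (iX * Real.log 2 - psi iX + (iB * Real.log 2 - psi iB)) ≤
            (1 - δ / 2) * (Real.log T.card + Real.log U.card) :=
          mul_le_mul_of_nonneg_left (by linarith) (by linarith)
        have hps1 : 0 ≤ psi iX := Real.log_nonneg (by nlinarith [(Nat.cast_nonneg iX : (0:ℝ) ≤ iX)])
        have hps2 : 0 ≤ psi iB := Real.log_nonneg (by nlinarith [(Nat.cast_nonneg iB : (0:ℝ) ≤ iB)])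
        nlinarith
      · have h1 : ∀ t ∈ T, (1 - δ) * (Sz X B - (iX + iB + 2) * Real.log 2) -
            Real.log c.K₀ - (R / 2) * Real.exp ((c.j₀ : ℝ) / 2) *
            Real.exp (2 / R * (Sz X B - (iX + iB) * Real.log 2) - (g₀ : ℝ) / 2) ≤
            (∑ w ∈ U, tg J.powerset (mulJ u v J) (cls ((p : ℤ) ^ (I + 1)) X₁ t)
              (cls ((p : ℤ) ^ (I + 1)) B w)) / U.card := by
          intro t ht
          obtain ⟨h2, h3⟩ := hTl t ht
          apply avg_ge hUn
          intro w hw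
          obtain ⟨h8, h9⟩ := hUl w hw
          have h4 := ih (cls ((p : ℤ) ^ (I + 1)) X₁ t) (cls ((p : ℤ) ^ (I + 1)) B w)
            ⟨t, self_mem_cls _ (hT ht)⟩ ⟨w, self_mem_cls _ (hU hw)⟩
          refine le_trans ?_ h4
          rw [hX₁c] at h2 h3
          apply bd_mono hR c
          · apply mul_le_mul_of_nonneg_left _ hδ'
            unfold Sz
            linarith
          · unfold Sz
            linarith
        have h2 := avg_ge hTn h1
        have h3 : (∑ t ∈ T, (∑ w ∈ U, tg J.powerset (mulJ u v J) (cls ((p : ℤ) ^ (I + 1)) X₁ t)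
            (cls ((p : ℤ) ^ (I + 1)) B w)) / U.card) / T.card =
            (∑ t ∈ T, ∑ w ∈ U, tg J.powerset (mulJ u v J) (cls ((p : ℤ) ^ (I + 1)) X₁ t)
              (cls ((p : ℤ) ^ (I + 1)) B w)) / (T.card * U.card) := by
          rw [← Finset.sum_div, div_div, mul_comm (U.card : ℝ)]
        rw [h3] at h2
        unfold bd
        nlinarith

end Pool.Agent.Run7.h650.SP
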