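import Pool.Agent.TH83.SQ.Dilates

/-!
Averages of `log |d X + B|` over a finite family of dilates `d`: splitting into residue classes
modulo a prime power (generalisation of the splitting inequalities of `TH959.SQ`, `TH828.SQ1822`
from the divisors of a squarefree number to arbitrary families).
-/

set_option autoImplicit false

namespace Pool.Agent.Run7.h650.SP

open Finset
open Pool.Agent.TH83.SQ (cls dil)
open Pool.Agent.TH959.SQ (log_split mem_cls cls_subset mem_dil dil_mono dil_nonempty)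
open scoped Pointwise

/-- the mean over a family of dilates -/
noncomputable def tg {σ : Type*} (S : Finset σ) (M : σ → ℤ) (X B : Finset ℤ) : ℝ :=
  (∑ s ∈ S, Real.log ((dil (M s) X + B).card : ℝ)) / S.card

theorem tg_nonneg {σ : Type*} (S : Finset σ) (M : σ → ℤ) (X B : Finset ℤ) : 0 ≤ tg S M X B := by
  unfold tg
  exact div_nonneg (Finset.sum_nonneg fun s _ => Real.log_natCast_nonneg _) (Nat.cast_nonneg _)

theorem self_mem_cls (Q : ℤ) {X : Finset ℤ} {t : ℤ} (h : t ∈ X) : t ∈ cls Q X t :=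
  mem_cls.2 ⟨h, by simp⟩

/-- averaging over the family -/
theorem tg_avg {ι σ : Type*} {S : Finset σ} (hS : S.Nonempty) (M : σ → ℤ) (F : Finset ι)
    (X' B' : ι → Finset ℤ) (X B : Finset ℤ)
    (h : ∀ s ∈ S, Real.log F.card +
      (∑ i ∈ F, Real.log ((dil (M s) (X' i) + B' i).card : ℝ)) / F.card ≤
        Real.log ((dil (M s) X + B).card : ℝ)) :
    Real.log F.card + (∑ i ∈ F, tg S M (X' i) (B' i)) / F.card ≤ tg S M X B := by
  unfold tg
  have h2 : (0 : ℝ) < S.card := by exact_mod_cast hS.card_pos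
  rw [le_div_iff₀ h2]
  have h3 := Finset.sum_le_sum h
  refine le_trans (le_of_eq ?_) h3
  rw [Finset.sum_add_distrib, Finset.sum_const, ← Finset.sum_div,
    Finset.sum_comm, nsmul_eq_mul, ← Finset.sum_div]
  rw [add_mul, mul_comm (Real.log _) _]
  congr 1
  rw [div_mul_eq_mul_div, div_mul_cancel₀ _ h2.ne']

/-- the second set has many classes, the dilate is divisible by `p` -/
theorem caseI {p : ℕ} {σ : Type*} {S : Finset σ} (hS : S.Nonempty) (M : σ → ℤ)
    (X B : Finset ℤ) (I : ℕ) (w : ℤ) (hw : (p : ℤ) ∣ w) (x₀ : ℤ)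
    (hx₀ : x₀ ∈ X) (U : Finset ℤ) (hU : U ⊆ B) (hUn : U.Nonempty)
    (hUi : ∀ t ∈ U, ∀ t' ∈ U, ((p : ℤ) ^ (I + 1)) ∣ t - t' → t = t') :
    Real.log U.card + (∑ t ∈ U, tg S M (dil w (cls ((p : ℤ) ^ I) X x₀))
      (cls ((p : ℤ) ^ (I + 1)) B t)) / U.card ≤ tg S M (dil w X) B := by
  refine tg_avg hS M U (fun _ => dil w (cls ((p : ℤ) ^ I) X x₀))
    (fun t => cls ((p : ℤ) ^ (I + 1)) B t) (dil w X) B ?_
  intro s _
  refine log_split U hUn _ _ ?_ ?_ ?_
  · intro t _
    exact Finset.add_subset_add (dil_mono (dil_mono (cls_subset _ _ _))) (cls_subset _ _ _)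
  · intro t ht
    exact (dil_nonempty (dil_nonempty ⟨x₀, self_mem_cls _ hx₀⟩)).add
      ⟨t, self_mem_cls _ (hU ht)⟩
  · intro t ht t' ht' htt
    rw [Finset.disjoint_left]
    intro z hz hz'
    apply htt
    have key : ∀ t, z ∈ dil (M s) (dil w (cls ((p : ℤ) ^ I) X x₀)) + cls ((p : ℤ) ^ (I + 1)) B t →
        ((p : ℤ) ^ (I + 1)) ∣ z - (M s * (w * x₀) + t) := by
      intro t hz
      obtain ⟨a, ha, b, hb, rfl⟩ := Finset.mem_add.1 hz
      obtain ⟨a', ha', rfl⟩ := mem_dil.1 ha
      obtain ⟨x, hx, rfl⟩ := mem_dil.1 ha'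
      have h1 := (mem_cls.1 hx).2
      have h2 := (mem_cls.1 hb).2
      have h3 : ((p : ℤ) ^ (I + 1)) ∣ M s * (w * (x - x₀)) := by
        refine Dvd.dvd.mul_left ?_ _
        rw [pow_succ, mul_comm]
        exact mul_dvd_mul hw h1
      have h4 : M s * (w * x) + b - (M s * (w * x₀) + t) =
          M s * (w * (x - x₀)) + (b - t) := by ring
      rw [h4]
      exact dvd_add h3 h2
    have h5 := key t hz
    have h6 := key t' hz'
    have h7 := dvd_sub h6 h5
    refine hUi t ht t' ht' ?_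
    have h8 : z - (M s * (w * x₀) + t') - (z - (M s * (w * x₀) + t)) = t - t' := by ring
    rwa [h8] at h7

/-- the first set has many classes, the dilates are prime to `p` -/
theorem caseIIa {p : ℕ} {σ : Type*} {S : Finset σ} (hS : S.Nonempty) (M : σ → ℤ)
    (hM : ∀ s ∈ S, IsCoprime (p : ℤ) (M s))
    (X B : Finset ℤ) (I : ℕ) (T : Finset ℤ) (hT : T ⊆ X) (hTn : T.Nonempty)
    (hTi : ∀ t ∈ T, ∀ t' ∈ T, ((p : ℤ) ^ I) ∣ t - t' → t = t') (b₀ : ℤ) (hb₀ : b₀ ∈ B) :
    Real.log T.card + (∑ t ∈ T, tg S M (cls ((p : ℤ) ^ I) X t) (cls ((p : ℤ) ^ I) B b₀)) / T.card ≤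
      tg S M X B := by
  refine tg_avg hS M T (fun t => cls ((p : ℤ) ^ I) X t)
    (fun _ => cls ((p : ℤ) ^ I) B b₀) X B ?_
  intro s hs
  have hcop : IsCoprime ((p : ℤ) ^ I) (M s) := IsCoprime.pow_left (hM s hs)
  refine log_split T hTn _ _ ?_ ?_ ?_
  · intro t _
    exact Finset.add_subset_add (dil_mono (cls_subset _ _ _)) (cls_subset _ _ _)
  · intro t ht
    exact (dil_nonempty ⟨t, self_mem_cls _ (hT ht)⟩).add ⟨b₀, self_mem_cls _ hb₀⟩
  · intro t ht t' ht' htt
    rw [Finset.disjoint_left]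
    intro z hz hz'
    apply htt
    have key : ∀ t, z ∈ dil (M s) (cls ((p : ℤ) ^ I) X t) + cls ((p : ℤ) ^ I) B b₀ →
        ((p : ℤ) ^ I) ∣ z - (M s * t + b₀) := by
      intro t hz
      obtain ⟨a, ha, b, hb, rfl⟩ := Finset.mem_add.1 hz
      obtain ⟨x, hx, rfl⟩ := mem_dil.1 ha
      have h1 := (mem_cls.1 hx).2
      have h2 := (mem_cls.1 hb).2
      have h3 : ((p : ℤ) ^ I) ∣ M s * (x - t) := h1.mul_left _
      have h4 : M s * x + b - (M s * t + b₀) = M s * (x - t) + (b - b₀) := by ring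
      rw [h4]
      exact dvd_add h3 h2
    have h5 := key t hz
    have h6 := key t' hz'
    have h7 := dvd_sub h6 h5
    refine hTi t ht t' ht' ?_
    have h8 : z - (M s * t' + b₀) - (z - (M s * t + b₀)) = M s * (t - t') := by ring
    rw [h8] at h7
    exact hcop.dvd_of_dvd_mul_left h7

open scoped Classical in
/-- both sets have few classes, the dilates are spread modulo `p` -/
theorem caseIIb {p : ℕ} (hp : p.Prime) {σ : Type*} {S : Finset σ} (hS : S.Nonempty) (M : σ → ℤ)
    (γ : ℝ) (hγ : ∀ r : ZMod p, ((S.filter fun s => ((M s : ℤ) : ZMod p) = r).card : ℝ) ≤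
      γ * S.card)
    (X B : Finset ℤ) (I : ℕ) (T : Finset ℤ) (hT : T ⊆ X) (hTn : T.Nonempty)
    (hTi : ∀ t ∈ T, ∀ t' ∈ T, ((p : ℤ) ^ I) ∣ t - t' → t = t')
    (U : Finset ℤ) (hU : U ⊆ B) (hUn : U.Nonempty)
    (hUi : ∀ t ∈ U, ∀ t' ∈ U, ((p : ℤ) ^ I) ∣ t - t' → t = t')
    (β : ℝ) (hβ : ((T.card : ℝ) * U.card) ^ 2 * γ ≤ β) :
    (1 - β) * (Real.log T.card + Real.log U.card) +
      (∑ t ∈ T, ∑ v ∈ U, tg S M (cls ((p : ℤ) ^ I) X t) (cls ((p : ℤ) ^ I) B v)) /
        (T.card * U.card) ≤ tg S M X B := by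
  have : Fact p.Prime := ⟨hp⟩
  have hTc : (0 : ℝ) < T.card := by exact_mod_cast hTn.card_pos
  have hUc : (0 : ℝ) < U.card := by exact_mod_cast hUn.card_pos
  have hSc : (0 : ℝ) < S.card := by exact_mod_cast hS.card_pos
  set Q : ℤ := (p : ℤ) ^ I with hQ
  set W : Finset (ℤ × ℤ) := T ×ˢ U with hW
  have hWn : W.Nonempty := hTn.product hUn
  have hWc : (W.card : ℝ) = T.card * U.card := by rw [hW, Finset.card_product]; push_cast; ring
  have hWc0 : (0 : ℝ) < W.card := by rw [hWc]; positivity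
  have hWc1 : (1 : ℝ) ≤ W.card := by exact_mod_cast hWn.card_pos
  -- the pieces
  set D : ℤ → ℤ × ℤ → Finset ℤ := fun d w => dil d (cls Q X w.1) + cls Q B w.2 with hD
  have hDne : ∀ d, ∀ w ∈ W, (D d w).Nonempty := by
    intro d w hw
    rw [hW, Finset.mem_product] at hw
    exact (dil_nonempty ⟨w.1, self_mem_cls _ (hT hw.1)⟩).add ⟨w.2, self_mem_cls _ (hU hw.2)⟩
  have hDsub : ∀ d, ∀ w ∈ W, D d w ⊆ dil d X + B := by
    intro d w _
    refine Finset.add_subset_add ?_ (Finset.filter_subset _ _)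
    exact Finset.image_subset_image (Finset.filter_subset _ _)
  -- good indices
  set good : σ → Prop := fun s => ∀ w ∈ W, ∀ w' ∈ W,
    Q ∣ M s * (w.1 - w'.1) + (w.2 - w'.2) → w = w' with hgood
  have hbad_case : ∀ s, (∑ w ∈ W, Real.log ((D (M s) w).card : ℝ)) / W.card ≤
      Real.log ((dil (M s) X + B).card : ℝ) := by
    intro s
    rw [div_le_iff₀ hWc0, mul_comm, ← nsmul_eq_mul, ← Finset.sum_const]
    refine Finset.sum_le_sum fun w hw => ?_
    refine Real.log_le_log (by exact_mod_cast (hDne _ w hw).card_pos) ?_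
    exact_mod_cast Finset.card_le_card (hDsub _ w hw)
  have hgood_case : ∀ s, good s → Real.log W.card +
      (∑ w ∈ W, Real.log ((D (M s) w).card : ℝ)) / W.card ≤
      Real.log ((dil (M s) X + B).card : ℝ) := by
    intro s hs
    refine log_split W hWn _ _ (hDsub _) (hDne _) ?_
    intro w hw w' hw' hne
    rw [Finset.disjoint_left]
    intro x hx hx'
    apply hne
    refine hs w hw w' hw' ?_
    obtain ⟨y, hy, b, hb, rfl⟩ := Finset.mem_add.1 hx
    obtain ⟨y', hy', b', hb', he⟩ := Finset.mem_add.1 hx'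
    obtain ⟨a, ha, rfl⟩ := Finset.mem_image.1 hy
    obtain ⟨a', ha', rfl⟩ := Finset.mem_image.1 hy'
    obtain ⟨k1, hk1⟩ := (Finset.mem_filter.1 ha).2
    obtain ⟨k2, hk2⟩ := (Finset.mem_filter.1 ha').2
    obtain ⟨k3, hk3⟩ := (Finset.mem_filter.1 hb).2
    obtain ⟨k4, hk4⟩ := (Finset.mem_filter.1 hb').2
    refine ⟨M s * (k2 - k1) + (k4 - k3), ?_⟩
    have e1 : w.1 = a - Q * k1 := by linarith
    have e2 : w'.1 = a' - Q * k2 := by linarith
    have e3 : w.2 = b - Q * k3 := by linarith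
    have e4 : w'.2 = b' - Q * k4 := by linarith
    rw [e1, e2, e3, e4]
    have e5 : b' = M s * a + b - M s * a' := by linarith
    rw [e5]
    ring
  -- the number of bad indices
  set bad : Finset σ := S.filter fun s => ¬ good s with hbad
  have hγ0 : 0 ≤ γ := by
    obtain ⟨s, hs⟩ := hS
    have h1 := hγ ((M s : ℤ) : ZMod p)
    have h2 : (0 : ℝ) ≤ γ * S.card := le_trans (Nat.cast_nonneg _) h1
    by_contra hcon
    push Not at hcon
    have := mul_neg_of_neg_of_pos hcon hSc
    linarith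
  have hpair : ∀ w ∈ W, ∀ w' ∈ W, w ≠ w' → ((S.filter fun s =>
      Q ∣ M s * (w.1 - w'.1) + (w.2 - w'.2)).card : ℝ) ≤ γ * S.card := by
    intro w hw w' hw' hne
    rcases (S.filter fun s =>
      Q ∣ M s * (w.1 - w'.1) + (w.2 - w'.2)).eq_empty_or_nonempty with h0 | ⟨s0, hs0⟩
    · rw [h0]; simp; positivity
    · refine le_trans ?_ (hγ ((M s0 : ℤ) : ZMod p))
      have hsub : (S.filter fun s => Q ∣ M s * (w.1 - w'.1) + (w.2 - w'.2)) ⊆
          S.filter fun s => ((M s : ℤ) : ZMod p) = ((M s0 : ℤ) : ZMod p) := by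
        intro s hs
        rw [Finset.mem_filter] at hs hs0 ⊢
        refine ⟨hs.1, ?_⟩
        rw [hW, Finset.mem_product] at hw hw'
        have h1 : Q ∣ (M s - M s0) * (w.1 - w'.1) := by
          have := dvd_sub hs.2 hs0.2
          have e : M s * (w.1 - w'.1) + (w.2 - w'.2) - (M s0 * (w.1 - w'.1) + (w.2 - w'.2)) =
            (M s - M s0) * (w.1 - w'.1) := by ring
          rwa [e] at this
        by_contra hcon
        have h2 : ¬ (p : ℤ) ∣ M s - M s0 := by
          intro h
          apply hcon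
          rw [← sub_eq_zero, ← Int.cast_sub, ZMod.intCast_zmod_eq_zero_iff_dvd]
          exact h
        have h3 : IsCoprime Q (M s - M s0) := by
          rw [hQ]
          refine IsCoprime.pow_left ?_
          exact (Int.prime_iff_natAbs_prime.2 (by simpa using hp)).coprime_iff_not_dvd.2 h2
        have h4 : Q ∣ w.1 - w'.1 := h3.dvd_of_dvd_mul_left h1
        have h5 : w.1 = w'.1 := hTi _ hw.1 _ hw'.1 h4
        have h6 : Q ∣ w.2 - w'.2 := by
          have := hs.2
          rw [h5, sub_self, mul_zero, zero_add] at this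
          exact this
        have h7 : w.2 = w'.2 := hUi _ hw.2 _ hw'.2 h6
        exact hne (Prod.ext h5 h7)
      exact_mod_cast Finset.card_le_card hsub
  have hbadc : (bad.card : ℝ) ≤ β * S.card := by
    have h1 : bad ⊆ (W ×ˢ W).biUnion fun a => if a.1 = a.2 then ∅ else
        S.filter fun s => Q ∣ M s * (a.1.1 - a.2.1) + (a.1.2 - a.2.2) := by
      intro s hs
      rw [hbad, Finset.mem_filter] at hs
      obtain ⟨hsP, hs⟩ := hs
      simp only [hgood] at hs
      push Not at hs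
      obtain ⟨w, hw, w', hw', hd, hne⟩ := hs
      rw [Finset.mem_biUnion]
      refine ⟨(w, w'), Finset.mk_mem_product hw hw', ?_⟩
      rw [if_neg hne, Finset.mem_filter]
      exact ⟨hsP, hd⟩
    have h2 : (bad.card : ℝ) ≤ (W.card * W.card) * (γ * S.card) := by
      calc (bad.card : ℝ) ≤ ∑ a ∈ W ×ˢ W, (((if a.1 = a.2 then ∅ else
            S.filter fun s => Q ∣ M s * (a.1.1 - a.2.1) + (a.1.2 - a.2.2)) : Finset σ).card : ℝ) := by
            exact_mod_cast (Finset.card_le_card h1).trans Finset.card_biUnion_le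
        _ ≤ ∑ a ∈ W ×ˢ W, γ * S.card := by
            refine Finset.sum_le_sum fun a ha => ?_
            rw [Finset.mem_product] at ha
            split_ifs with h
            · simp; positivity
            · exact hpair _ ha.1 _ ha.2 h
        _ = (W.card * W.card) * (γ * S.card) := by
            rw [Finset.sum_const, Finset.card_product, nsmul_eq_mul]
            push_cast
            ring
    refine h2.trans ?_
    rw [hWc]
    calc (T.card * U.card : ℝ) * (T.card * U.card) * (γ * S.card) =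
        ((T.card * U.card : ℝ) ^ 2 * γ) * S.card := by ring
      _ ≤ β * S.card := mul_le_mul_of_nonneg_right hβ hSc.le
  -- averaging
  have hlogW : 0 ≤ Real.log W.card := Real.log_nonneg hWc1
  have hsum : (1 - β) * S.card * Real.log W.card +
      ∑ s ∈ S, (∑ w ∈ W, Real.log ((D (M s) w).card : ℝ)) / W.card ≤
      ∑ s ∈ S, Real.log ((dil (M s) X + B).card : ℝ) := by
    have h1 : ∑ s ∈ S, ((∑ w ∈ W, Real.log ((D (M s) w).card : ℝ)) / W.card +
        if good s then Real.log W.card else 0) ≤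
        ∑ s ∈ S, Real.log ((dil (M s) X + B).card : ℝ) := by
      refine Finset.sum_le_sum fun s _ => ?_
      split_ifs with h
      · have := hgood_case s h; linarith
      · rw [add_zero]; exact hbad_case s
    rw [Finset.sum_add_distrib, ← Finset.sum_filter, Finset.sum_const, nsmul_eq_mul] at h1
    have h2 : ((S.filter good).card : ℝ) + bad.card = S.card := by
      have := Finset.card_filter_add_card_filter_not (s := S) good
      exact_mod_cast this
    have h3 : (1 - β) * S.card ≤ ((S.filter good).card : ℝ) := by linarith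
    have h4 := mul_le_mul_of_nonneg_right h3 hlogW
    linarith
  have hlog : Real.log W.card = Real.log T.card + Real.log U.card := by
    rw [hWc, Real.log_mul hTc.ne' hUc.ne']
  rw [← hlog, ← hWc]
  have hexp : ∑ t ∈ T, ∑ v ∈ U, tg S M (cls Q X t) (cls Q B v) =
      (∑ s ∈ S, ∑ w ∈ W, Real.log ((D (M s) w).card : ℝ)) / S.card := by
    rw [hW, ← Finset.sum_product', Finset.sum_comm, Finset.sum_div]
    rfl
  rw [hexp]
  unfold tg
  rw [le_div_iff₀ hSc]
  rw [← Finset.sum_div] at hsum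
  have e : ((1 - β) * Real.log W.card + (∑ s ∈ S, ∑ w ∈ W,
      Real.log ((D (M s) w).card : ℝ)) / S.card / W.card) * S.card =
      (1 - β) * S.card * Real.log W.card +
      (∑ s ∈ S, ∑ w ∈ W, Real.log ((D (M s) w).card : ℝ)) / W.card := by
    field_simp
  rw [e]
  exact hsum

end Pool.Agent.Run7.h650.SP
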