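import Pool.Agent.Run7.h650.SP.One

/-!
Unions of few orbits, and sets that are symmetric with respect to boundedly many colours.
-/

set_option autoImplicit false

namespace Pool.Agent.Run7.h650.SP

open Finset
open Pool.Agent.TH83.DC (kSum kSum_ge kSum_nonempty pow_of_log)
open scoped Pointwise Classical

/-- the integers with exponent vectors in `E` -/
noncomputable def AE {ι : Type} [Fintype ι] (g : ι → ℕ) (E : Finset (ι → ℕ)) : Finset ℤ :=
  E.image fun y => (valN g y : ℤ)

theorem card_AE {ι : Type} [Fintype ι] {g : ι → ℕ} {K : ℕ} (h : Gen g K) (E : Finset (ι → ℕ)) :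
    (AE g E).card = E.card := by
  apply Finset.card_image_of_injOn
  intro y _ z _ hyz
  have h1 : (valN g y : ℤ) = valN g z := hyz
  exact valN_inj h (by exact_mod_cast h1)

theorem kSum_mono {k : ℕ} {A B : Finset ℤ} (h : A ⊆ B) : kSum k A ⊆ kSum k B := by
  unfold kSum
  exact Finset.image_subset_image (Fintype.piFinset_subset _ _ fun _ => h)

theorem kPr_mono {k : ℕ} {A B : Finset ℤ} (h : A ⊆ B) : kPr k A ⊆ kPr k B := by
  unfold kPr
  exact Finset.image_subset_image (Fintype.piFinset_subset _ _ fun _ => h)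

/-- the inequality in terms of logarithms for unions of few orbits -/
theorem few_log (k d K : ℕ) (hk : 1 ≤ k) (ε : ℝ) (hε : 0 < ε) (hε1 : ε ≤ 1) :
    ∃ η C : ℝ, 0 < η ∧ 0 ≤ C ∧ ∀ (ι : Type) [Fintype ι] (g col : ι → ℕ) (E R : Finset (ι → ℕ)),
      Gen g K → E.Nonempty → (∀ x ∈ E, ∀ i, x i ≤ d) → (∀ x ∈ R, Orb col x ⊆ E) →
      (∀ y ∈ E, ∃ x ∈ R, y ∈ Orb col x) →
      Real.log R.card ≤ η * Real.log E.card →
      (k - ε) * Real.log E.card - C ≤
        Real.log (max ((kSum k (AE g E)).card : ℝ) ((kPr k (AE g E)).card : ℝ)) := by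
  have hk1 : (1 : ℝ) ≤ k := by exact_mod_cast hk
  have hk0 : (0 : ℝ) < k := by linarith
  obtain ⟨C, hC0, hC⟩ := one k d K hk (ε / 2) (by positivity) (by linarith)
  refine ⟨ε / (2 * k), C, by positivity, hC0, ?_⟩
  intro ι _ g col E R hg hE hd hR1 hR2 hRc
  set L := Real.log E.card with hL
  have hL0 : 0 ≤ L := Real.log_natCast_nonneg _
  have hRn : R.Nonempty := by
    obtain ⟨y, hy⟩ := hE
    obtain ⟨x, hx, -⟩ := hR2 y hy
    exact ⟨x, hx⟩
  obtain ⟨x, hx, hmax⟩ := Finset.exists_max_image R (fun x => (Orb col x).card) hRn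
  have h1 : E.card ≤ R.card * (Orb col x).card := by
    have h2 : E ⊆ R.biUnion fun x => Orb col x := by
      intro y hy
      obtain ⟨x, hx, hyx⟩ := hR2 y hy
      exact Finset.mem_biUnion.2 ⟨x, hx, hyx⟩
    calc E.card ≤ _ := Finset.card_le_card h2
      _ ≤ ∑ z ∈ R, (Orb col z).card := Finset.card_biUnion_le
      _ ≤ ∑ _z ∈ R, (Orb col x).card := Finset.sum_le_sum fun z hz => hmax z hz
      _ = _ := by rw [Finset.sum_const, smul_eq_mul]
  have cE : (0 : ℝ) < E.card := by exact_mod_cast hE.card_pos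
  have cR : (0 : ℝ) < R.card := by exact_mod_cast hRn.card_pos
  have cO : (0 : ℝ) < (Orb col x).card := by
    exact_mod_cast Finset.card_pos.2 ⟨x, self_mem_Orb col x⟩
  have h2 : L ≤ Real.log R.card + Real.log (Orb col x).card := by
    rw [← Real.log_mul cR.ne' cO.ne']
    exact Real.log_le_log cE (by exact_mod_cast h1)
  have hsub := hR1 x hx
  have hAsub : AA g col x ⊆ AE g E := Finset.image_subset_image hsub
  have h3 := hC ι g col x hg (hd x (hsub (self_mem_Orb col x)))
  have hAn : (AA g col x).Nonempty := ⟨_, Finset.mem_image_of_mem _ (self_mem_Orb col x)⟩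
  have h4 : Real.log (max ((kSum k (AA g col x)).card : ℝ) ((kPr k (AA g col x)).card : ℝ)) ≤
      Real.log (max ((kSum k (AE g E)).card : ℝ) ((kPr k (AE g E)).card : ℝ)) := by
    apply Real.log_le_log
    · apply lt_max_of_lt_left
      exact_mod_cast (kSum_nonempty k hAn).card_pos
    · apply max_le_max
      · exact_mod_cast Finset.card_le_card (kSum_mono hAsub)
      · exact_mod_cast Finset.card_le_card (kPr_mono hAsub)
  have h5 : (k - ε / 2) * ((1 - ε / (2 * k)) * L) ≤ (k - ε / 2) * Real.log (Orb col x).card :=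
    mul_le_mul_of_nonneg_left (by linarith) (by linarith)
  have h6 : (k - ε) * L ≤ (k - ε / 2) * ((1 - ε / (2 * k)) * L) := by
    have h7 : (k - ε) ≤ (k - ε / 2) * (1 - ε / (2 * k)) := by
      have h8 : (k - ε / 2) * (1 - ε / (2 * k)) = k - ε + ε ^ 2 / (4 * k) := by
        field_simp
        ring
      rw [h8]
      have : 0 ≤ ε ^ 2 / (4 * k) := by positivity
      linarith
    nlinarith
  linarith

/-- vectors with the same numbers of values for every colour lie in the same orbit -/
theorem same_type {ι : Type} [Fintype ι] {col x y : ι → ℕ}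
    (h : ∀ c a, nn col x ∅ c a = nn col y ∅ c a) : y ∈ Orb col x := by
  have hf : ∀ w : ℕ × ℕ, Nonempty ({i // (col i, y i) = w} ≃ {i // (col i, x i) = w}) := by
    intro w
    refine ⟨Fintype.equivOfCardEq ?_⟩
    have h1 := h w.1 w.2
    rw [nn_empty, nn_empty] at h1
    rw [Fintype.card_subtype, Fintype.card_subtype]
    have e : ∀ z : ι → ℕ, (univ.filter fun i => (col i, z i) = w) =
        univ.filter fun i => col i = w.1 ∧ z i = w.2 := by
      intro z
      ext i
      simp [Prod.ext_iff]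
    rw [e, e, h1]
  have f := fun w => (hf w).some
  refine mem_Orb.2 ⟨Equiv.ofFiberEquiv f, ?_, ?_⟩
  · intro i
    have := Equiv.ofFiberEquiv_map f i
    exact congrArg Prod.fst this
  · funext i
    have := Equiv.ofFiberEquiv_map f i
    exact congrArg Prod.snd this

/-- a polynomial in a logarithm is smaller than a small power -/
theorem poly_le (a b η : ℝ) (n : ℕ) (ha : 0 < a) (hb : 0 < b) (hη : 0 < η) :
    ∃ L₀ : ℝ, ∀ L, 0 ≤ L → L₀ ≤ L → Real.log a + n * Real.log (1 + b * L) ≤ η * L := by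
  set κ : ℝ := η / (2 * (n + 1) * b) with hκ
  have hn : (0 : ℝ) ≤ n := Nat.cast_nonneg n
  have hκ0 : 0 < κ := by positivity
  refine ⟨2 * (Real.log a + n * (κ - Real.log κ)) / η, fun L hL0 hL => ?_⟩
  rw [div_le_iff₀ hη] at hL
  have h1 : Real.log (1 + b * L) ≤ κ * (1 + b * L) - Real.log κ := by
    have h2 : 0 < 1 + b * L := by positivity
    have h3 := Real.log_le_sub_one_of_pos (by positivity : 0 < κ * (1 + b * L))
    rw [Real.log_mul hκ0.ne' h2.ne'] at h3
    linarith
  have h2 : n * Real.log (1 + b * L) ≤ n * (κ * (1 + b * L) - Real.log κ) :=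
    mul_le_mul_of_nonneg_left h1 hn
  have h3 : n * (κ * b * L) ≤ η * L / 2 := by
    have h4 : (n : ℝ) * (κ * b) ≤ η / 2 := by
      have h5 : (n : ℝ) * (κ * b) = η / 2 * (n / (n + 1)) := by
        rw [hκ]
        field_simp
      rw [h5]
      have h6 : (n : ℝ) / (n + 1) ≤ 1 := by
        rw [div_le_one (by positivity)]; linarith
      nlinarith
    nlinarith
  nlinarith

/-- representatives of the orbits: few if there are boundedly many colours -/
theorem few_types (t d : ℕ) {ι : Type} [Fintype ι] (col : ι → ℕ) (ht : ∀ i, col i < t)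
    (hd : 1 ≤ d) (E : Finset (ι → ℕ)) (hE : E.Nonempty) (hx : ∀ x ∈ E, ∀ i, x i ≤ d)
    (hsym : ∀ x ∈ E, Orb col x ⊆ E) :
    ∃ R ⊆ E, (∀ y ∈ E, ∃ x ∈ R, y ∈ Orb col x) ∧
      (R.card : ℝ) ≤ (((d : ℝ) + 1) ^ t) *
        (1 + (d + 1) / Real.log 2 * Real.log E.card) ^ (t * (d + 1)) := by
  have hl2 : 0 < Real.log 2 := Real.log_pos (by norm_num)
  have hMM : ∀ x : ι → ℕ, ∃ maj mn : ℕ → ℕ, x ∈ E → MM col x d maj mn := by
    intro x
    by_cases h : x ∈ E
    · obtain ⟨maj, mn, hm⟩ := exists_MM col x hd (hx x h)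
      exact ⟨maj, mn, fun _ => hm⟩
    · exact ⟨0, 0, fun h' => absurd h' h⟩
  choose maj mn hm using hMM
  -- the largest number of minority coordinates
  set S : ℕ := ⌊(d + 1) / Real.log 2 * Real.log E.card⌋₊ with hS
  have hSle : ∀ x ∈ E, (univ.filter fun i => x i ≠ maj x (col i)).card ≤ S := by
    intro x hxE
    apply Nat.le_floor
    have h1 := minority_le (hm x hxE)
    have h2 := Bp_log_two (hm x hxE)
    have h3 : Real.log (Orb col x).card ≤ Real.log E.card := by
      apply Real.log_le_log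
      · exact_mod_cast Finset.card_pos.2 ⟨x, self_mem_Orb col x⟩
      · exact_mod_cast Finset.card_le_card (hsym x hxE)
    have h4 : ((univ.filter fun i => x i ≠ maj x (col i)).card : ℝ) ≤
        (d + 1) * (Bp col x (mn x)).card := by exact_mod_cast h1
    have h5 : ((Bp col x (mn x)).card : ℝ) ≤ Real.log E.card / Real.log 2 := by
      rw [le_div_iff₀ hl2]; linarith
    calc ((univ.filter fun i => x i ≠ maj x (col i)).card : ℝ) ≤
          (d + 1) * (Bp col x (mn x)).card := h4
      _ ≤ (d + 1) * (Real.log E.card / Real.log 2) :=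
          mul_le_mul_of_nonneg_left h5 (by positivity)
      _ = _ := by ring
  -- the invariant
  set inv : (ι → ℕ) → (Fin t → Fin (d + 1)) × (Fin t × Fin (d + 1) → Fin (S + 1)) := fun x =>
    (fun c => Fin.ofNat (d + 1) (maj x c), fun w => if (w.2 : ℕ) = maj x w.1 then 0 else
      Fin.ofNat (S + 1) (nn col x ∅ w.1 w.2)) with hinv
  have hkey : ∀ x ∈ E, ∀ y ∈ E, inv x = inv y → y ∈ Orb col x := by
    intro x hxE y hyE hxy
    apply same_type
    obtain ⟨h1, h2⟩ := Prod.ext_iff.1 hxy
    have hmaj : ∀ c : Fin t, maj x c = maj y c := by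
      intro c
      have h3 := congrFun h1 c
      have h4 := congrArg Fin.val h3
      have h5 := (hm x hxE).maj_le c
      have h6 := (hm y hyE).maj_le c
      simp only [hinv, Fin.ofNat, Fin.val_mk] at h4
      rw [Nat.mod_eq_of_lt (by omega), Nat.mod_eq_of_lt (by omega)] at h4
      exact h4
    have hle : ∀ z ∈ E, ∀ (c : Fin t) (a : ℕ), a ≠ maj z c → nn col z ∅ c a ≤ S := by
      intro z hz c a ha
      refine le_trans ?_ (hSle z hz)
      rw [nn_empty]
      refine Finset.card_le_card fun i hi => ?_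
      obtain ⟨-, h3, h4⟩ := Finset.mem_filter.1 hi
      refine Finset.mem_filter.2 ⟨Finset.mem_univ _, ?_⟩
      rw [h3, h4]; exact ha
    have hne : ∀ (c : Fin t) (a : ℕ), a ≤ d → a ≠ maj x c → nn col x ∅ c a = nn col y ∅ c a := by
      intro c a had ha
      have h3 := congrFun h2 (c, ⟨a, by omega⟩)
      have h4 := congrArg Fin.val h3
      have h5 : a ≠ maj y c := by rw [← hmaj c]; exact ha
      simp only [hinv, if_neg ha, if_neg h5, Fin.ofNat, Fin.val_mk] at h4
      rw [Nat.mod_eq_of_lt (by have := hle x hxE c a ha; omega),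
        Nat.mod_eq_of_lt (by have := hle y hyE c a h5; omega)] at h4
      exact h4
    intro c a
    by_cases hc : c < t
    · by_cases had : a ≤ d
      · by_cases ha : a = maj x c
        · -- the majority value
          have e1 := mm_sum (col := col) (hx x hxE) c
          have e2 := mm_sum (col := col) (hx y hyE) c
          have e3 : a ∈ range (d + 1) := Finset.mem_range.2 (by omega)
          rw [← Finset.add_sum_erase _ _ e3] at e1 e2
          have e4 : ∑ b ∈ (range (d + 1)).erase a, nn col x ∅ c b =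
              ∑ b ∈ (range (d + 1)).erase a, nn col y ∅ c b := by
            refine Finset.sum_congr rfl fun b hb => ?_
            obtain ⟨h3, h4⟩ := Finset.mem_erase.1 hb
            have h5 := Finset.mem_range.1 h4
            exact hne ⟨c, hc⟩ b (by omega) (by rw [← ha]; exact h3)
          omega
        · exact hne ⟨c, hc⟩ a had ha
      · have : ∀ z ∈ E, nn col z ∅ c a = 0 := by
          intro z hz
          rw [nn_empty, Finset.card_eq_zero, Finset.filter_eq_empty_iff]
          rintro i - ⟨-, h3⟩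
          have := hx z hz i
          omega
        rw [this x hxE, this y hyE]
    · have : ∀ z : ι → ℕ, nn col z ∅ c a = 0 := by
        intro z
        rw [nn_empty, Finset.card_eq_zero, Finset.filter_eq_empty_iff]
        rintro i - ⟨h3, -⟩
        have := ht i
        omega
      rw [this x, this y]
  -- the representatives
  have hrep : ∀ w ∈ E.image inv, ∃ x ∈ E, inv x = w := fun w hw => Finset.mem_image.1 hw
  choose! r hr1 hr2 using hrep
  refine ⟨(E.image inv).image r, ?_, ?_, ?_⟩
  · intro x hx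
    obtain ⟨w, hw, rfl⟩ := Finset.mem_image.1 hx
    exact hr1 w hw
  · intro y hy
    have hw : inv y ∈ E.image inv := Finset.mem_image_of_mem _ hy
    exact ⟨r (inv y), Finset.mem_image_of_mem _ hw, hkey _ (hr1 _ hw) _ hy (hr2 _ hw)⟩
  · have h1 : ((E.image inv).image r).card ≤ Fintype.card
        ((Fin t → Fin (d + 1)) × (Fin t × Fin (d + 1) → Fin (S + 1))) :=
      Finset.card_image_le.trans (Finset.card_le_univ _)
    have h2 : Fintype.card ((Fin t → Fin (d + 1)) × (Fin t × Fin (d + 1) → Fin (S + 1))) =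
        (d + 1) ^ t * (S + 1) ^ (t * (d + 1)) := by
      simp
    rw [h2] at h1
    have hL : 0 ≤ Real.log E.card := Real.log_natCast_nonneg _
    have h3 : (S : ℝ) ≤ (d + 1) / Real.log 2 * Real.log E.card :=
      Nat.floor_le (by positivity)
    calc ((((E.image inv).image r).card : ℕ) : ℝ) ≤ (((d + 1) ^ t * (S + 1) ^ (t * (d + 1)) : ℕ) : ℝ) := by
          exact_mod_cast h1
      _ = ((d : ℝ) + 1) ^ t * ((S : ℝ) + 1) ^ (t * (d + 1)) := by push_cast; ring
      _ ≤ _ := by
          apply mul_le_mul_of_nonneg_left _ (by positivity)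
          apply pow_le_pow_left₀ (by positivity)
          linarith

/-- symmetric sets with boundedly many colours -/
theorem sym_log (k d K t : ℕ) (hk : 1 ≤ k) (ε : ℝ) (hε : 0 < ε) (hε1 : ε ≤ 1) :
    ∃ C : ℝ, 0 ≤ C ∧ ∀ (ι : Type) [Fintype ι] (g col : ι → ℕ) (E : Finset (ι → ℕ)),
      Gen g K → (∀ i, col i < t) → E.Nonempty → (∀ x ∈ E, ∀ i, x i ≤ d) →
      (∀ x ∈ E, Orb col x ⊆ E) →
      (k - ε) * Real.log E.card - C ≤
        Real.log (max ((kSum k (AE g E)).card : ℝ) ((kPr k (AE g E)).card : ℝ)) := by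
  have hk1 : (1 : ℝ) ≤ k := by exact_mod_cast hk
  have hk0 : (0 : ℝ) < k := by linarith
  have hl2 : 0 < Real.log 2 := Real.log_pos (by norm_num)
  obtain ⟨η, C, hη, hC0, hC⟩ := few_log k (d + 1) K hk ε hε hε1
  obtain ⟨L₁, hL₁⟩ := poly_le ((((d + 1 : ℕ) : ℝ) + 1) ^ t) (((d + 1 : ℕ) + 1) / Real.log 2) η
    (t * (d + 1 + 1)) (by positivity) (by positivity) hη
  refine ⟨max C (k * max L₁ 0), le_max_of_le_left hC0, ?_⟩
  intro ι _ g col E hg ht hE hx hsym
  set L := Real.log E.card with hL
  have hL0 : 0 ≤ L := Real.log_natCast_nonneg _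
  have hAn : (AE g E).Nonempty := hE.image _
  have hkS : (1 : ℝ) ≤ ((kSum k (AE g E)).card : ℝ) := by
    exact_mod_cast (kSum_nonempty k hAn).card_pos
  by_cases hLL : L₁ ≤ L
  swap
  · push Not at hLL
    have h1 := le_max_right C (k * max L₁ 0)
    have h2 : k * L ≤ k * max L₁ 0 := mul_le_mul_of_nonneg_left (hLL.le.trans (le_max_left _ _)) hk0.le
    have h3 : 0 ≤ ε * L := by positivity
    have h4 : 0 ≤ Real.log (max ((kSum k (AE g E)).card : ℝ) ((kPr k (AE g E)).card : ℝ)) :=
      Real.log_nonneg (hkS.trans (le_max_left _ _))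
    linarith
  obtain ⟨R, hRE, hR1, hR2⟩ := few_types t (d + 1) col ht (by omega) E hE
    (fun x hxE i => (hx x hxE i).trans (by omega)) hsym
  have hRn : R.Nonempty := by
    obtain ⟨y, hy⟩ := hE
    obtain ⟨x, hx, -⟩ := hR1 y hy
    exact ⟨x, hx⟩
  have cR : (0 : ℝ) < R.card := by exact_mod_cast hRn.card_pos
  have h1 := hC ι g col E R hg hE (fun x hxE i => (hx x hxE i).trans (by omega))
    (fun x hxR => hsym x (hRE hxR)) hR1 ?_
  · have h2 := le_max_left C (k * max L₁ 0)
    linarith
  · refine le_trans ?_ (hL₁ L hL0 hLL)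
    have hpos : (0 : ℝ) < 1 + (((d + 1 : ℕ) : ℝ) + 1) / Real.log 2 * L := by positivity
    rw [← Real.log_pow, ← Real.log_mul (by positivity) (by positivity)]
    exact Real.log_le_log cR hR2

end Pool.Agent.Run7.h650.SP
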