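import Pool.Agent.Run7.h650.SP.Few

/-!
Sum-product inequality for symmetric sets: final form.
-/

set_option autoImplicit false

namespace Pool.Agent.Run7.h650.SP

open Finset
open Pool.Agent.TH83.DC (kSum kSum_ge kSum_nonempty pow_of_log)
open scoped Pointwise

open scoped Classical in
theorem kPr_card_pos {k : ℕ} {A : Finset ℤ} (hA : A.Nonempty) : 0 < (kPr k A).card := by
  unfold kPr
  rw [Finset.card_pos, Finset.image_nonempty, Fintype.piFinset_nonempty]
  exact fun _ => hA

/-- from logarithms to powers -/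
theorem max_of_log {N S P : ℕ} (hS : 0 < S) (hN : 0 < N) {a C : ℝ}
    (h : a * Real.log N - C ≤ Real.log (max (S : ℝ) (P : ℝ))) :
    Real.exp (-C) * (N : ℝ) ^ a ≤ max (S : ℝ) (P : ℝ) := by
  have cN : (0 : ℝ) < N := by exact_mod_cast hN
  have cM : (0 : ℝ) < max (S : ℝ) (P : ℝ) := lt_max_of_lt_left (by exact_mod_cast hS)
  rw [Real.rpow_def_of_pos cN, ← Real.exp_add]
  calc Real.exp (-C + Real.log N * a) ≤ Real.exp (Real.log (max (S : ℝ) (P : ℝ))) :=
        Real.exp_le_exp.2 (by linarith)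
    _ = _ := Real.exp_log cM

open scoped Classical in
theorem final (k d K : ℕ) (hk : 1 ≤ k) (ε : ℝ) (hε : 0 < ε) :
    ∃ η : ℝ, 0 < η ∧ ∀ t : ℕ, ∃ c : ℝ, 0 < c ∧
      ∀ (ι : Type) [Fintype ι] (g col : ι → ℕ) (E R : Finset (ι → ℕ)), Gen g K →
        E.Nonempty → (∀ x ∈ E, ∀ i, x i ≤ d) →
        (∀ x ∈ E, ∀ σ : Equiv.Perm ι, (∀ i, col (σ i) = col i) → x ∘ σ ∈ E) →
        (∀ y ∈ E, ∃ x ∈ R, ∃ σ : Equiv.Perm ι, (∀ i, col (σ i) = col i) ∧ x ∘ σ = y) →
        ((∀ i, col i < t) ∨ (R.card : ℝ) ≤ ((AE g E).card : ℝ) ^ η) →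
        c * ((AE g E).card : ℝ) ^ ((k : ℝ) - ε) ≤
          max ((kSum k (AE g E)).card : ℝ) ((kPr k (AE g E)).card : ℝ) := by
  set ε₁ : ℝ := min ε 1 with hε₁
  have hε10 : 0 < ε₁ := by positivity
  obtain ⟨η, C, hη, hC0, hC⟩ := few_log k d K hk ε₁ hε10 (min_le_right _ _)
  refine ⟨η, hη, fun t => ?_⟩
  obtain ⟨C', hC'0, hC'⟩ := sym_log k d K t hk ε₁ hε10 (min_le_right _ _)
  refine ⟨Real.exp (-(max C C')), Real.exp_pos _, ?_⟩
  intro ι _ g col E R hg hE hx hsym hR hor
  have hAn : (AE g E).Nonempty := hE.image _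
  have cA : (1 : ℝ) ≤ (AE g E).card := by exact_mod_cast hAn.card_pos
  have hOrb : ∀ x ∈ E, Orb col x ⊆ E := by
    intro x hxE y hy
    obtain ⟨σ, hσ, rfl⟩ := mem_Orb.1 hy
    exact hsym x hxE σ hσ
  have hcE : ((AE g E).card : ℝ) = E.card := by rw [card_AE hg]
  have hlog0 : 0 ≤ Real.log (AE g E).card := Real.log_natCast_nonneg _
  have hmain : (k - ε₁) * Real.log (AE g E).card - max C C' ≤
      Real.log (max ((kSum k (AE g E)).card : ℝ) ((kPr k (AE g E)).card : ℝ)) := by
    rcases hor with ht | hfew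
    · have h1 := hC' ι g col E hg ht hE hx hOrb
      rw [hcE]
      have := le_max_right C C'
      linarith
    · have hRf : ∀ y ∈ E, ∃ x ∈ R.filter (fun x => x ∈ E), y ∈ Orb col x := by
        intro y hy
        obtain ⟨x, hxR, σ, hσ, hxy⟩ := hR y hy
        have hxE : x ∈ E := by
          have h1 := hsym y hy σ.symm (fun i => by
            have := hσ (σ.symm i)
            rw [Equiv.apply_symm_apply] at this
            exact this.symm)
          have h2 : y ∘ σ.symm = x := by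
            rw [← hxy]
            funext i
            simp
          rwa [h2] at h1
        exact ⟨x, Finset.mem_filter.2 ⟨hxR, hxE⟩, mem_Orb.2 ⟨σ, hσ, hxy⟩⟩
      have hRn : (R.filter fun x => x ∈ E).Nonempty := by
        obtain ⟨y, hy⟩ := hE
        obtain ⟨x, hx, -⟩ := hRf y hy
        exact ⟨x, hx⟩
      have h1 := hC ι g col E (R.filter fun x => x ∈ E) hg hE hx
        (fun x hxR => hOrb x (Finset.mem_filter.1 hxR).2) hRf ?_
      · rw [hcE]
        have := le_max_left C C'
        linarith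
      · rw [← hcE, ← Real.log_rpow (by linarith)]
        apply Real.log_le_log (by exact_mod_cast hRn.card_pos)
        refine le_trans ?_ hfew
        exact_mod_cast Finset.card_le_card (Finset.filter_subset _ _)
  have h1 := max_of_log (kSum_nonempty k hAn).card_pos hAn.card_pos hmain
  refine le_trans ?_ h1
  apply mul_le_mul_of_nonneg_left _ (Real.exp_pos _).le
  apply Real.rpow_le_rpow_of_exponent_le cA
  have := min_le_left ε 1
  linarith

end Pool.Agent.Run7.h650.SP
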