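import Pool.Agent.Run7.h650.SP.CaseC
import Pool.Agent.TH83.DC.KFold
import Pool.Agent.H254R2.SP.R

/-!
The sum-product inequality for one orbit.
-/

set_option autoImplicit false

namespace Pool.Agent.Run7.h650.SP

open Finset
open Pool.Agent.TH83.DC (kSum kSum_ge kSum_nonempty)
open scoped Pointwise Classical

/-- the `k`-fold product set -/
def kPr (k : ℕ) (A : Finset ℤ) : Finset ℤ :=
  (Fintype.piFinset fun _ : Fin k => A).image fun f => ∏ i, f i

theorem card_AA {ι : Type} [Fintype ι] {g : ι → ℕ} {K : ℕ} (h : Gen g K) (col x : ι → ℕ) :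
    (AA g col x).card = (Orb col x).card := by
  apply Finset.card_image_of_injOn
  intro y _ z _ hyz
  have h1 : (valN g y : ℤ) = valN g z := hyz
  exact valN_inj h (by exact_mod_cast h1)

/-- few coordinates outside of the majority -/
theorem caseS (k K : ℕ) (hk : 1 ≤ k) (ε : ℝ) (hε : 0 < ε) :
    ∃ δ L₀ : ℝ, 0 < δ ∧ 0 < L₀ ∧ ∀ (ι : Type) [Fintype ι] (g col x : ι → ℕ) (maj : ℕ → ℕ),
      Gen g K → L₀ ≤ Real.log (Orb col x).card →
      (univ.filter fun i => x i ≠ maj (col i)).card ≤ δ * Real.log (Orb col x).card →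
      (k - ε) * Real.log (Orb col x).card ≤
        Real.log (max ((kSum k (AA g col x)).card : ℝ) ((kPr k (AA g col x)).card : ℝ)) := by
  have hk0 : (0 : ℝ) < k := by exact_mod_cast hk
  set K₁ : ℝ := (K : ℝ) + 1 with hK₁
  have hK₁0 : 0 < K₁ := by positivity
  set δ : ℝ := ε ^ 2 / (110 ^ 2 * k ^ 3 * K₁) with hδ
  have hδ0 : 0 < δ := by positivity
  refine ⟨δ, max 1 (1 / δ), hδ0, lt_max_of_lt_left one_pos, ?_⟩
  intro ι _ g col x maj hg hL hs
  set L := Real.log (Orb col x).card with hLdef
  have hL1 : 1 ≤ L := (le_max_left _ _).trans hL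
  have hL2 : 1 / δ ≤ L := (le_max_right _ _).trans hL
  have hL0 : 0 < L := by linarith
  rw [div_le_iff₀ hδ0] at hL2
  have hOc : (1 : ℝ) < (Orb col x).card := by
    by_contra hcon
    push Not at hcon
    have h1 : L ≤ 0 := Real.log_nonpos (Nat.cast_nonneg _) hcon
    linarith
  have hO0 : (0 : ℝ) < (Orb col x).card := by linarith
  have hAc : ((AA g col x).card : ℝ) = (Orb col x).card := by rw [card_AA hg]
  have hA2 : 2 ≤ (AA g col x).card := by
    rw [card_AA hg]
    have : 1 < (Orb col x).card := by exact_mod_cast hOc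
    omega
  set s : ℕ := (univ.filter fun i => x i ≠ maj (col i)).card with hsdef
  have h := H254R2.SP.final k hk (AA g col x) (AA g col x) (Finset.Subset.refl _) hA2
    (valN g fun i => maj (col i)) (valN_ne_zero hg _) (max 1 (K * s)) (le_max_left _ _) ?_
  · rw [hAc, ← hLdef] at h
    have hmax : (0 : ℝ) < max ((kSum k (AA g col x)).card : ℝ) ((kPr k (AA g col x)).card : ℝ) := by
      apply lt_max_of_lt_left
      have : (kSum k (AA g col x)).Nonempty :=
        kSum_nonempty k ⟨_, Finset.mem_image_of_mem _ (self_mem_Orb col x)⟩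
      exact_mod_cast this.card_pos
    have h1 : ((Orb col x).card : ℝ) ^ k *
        Real.exp (-(110 * Real.sqrt ((k : ℝ) ^ 3 * ((max 1 (K * s) : ℕ) : ℝ) * L))) ≤
        max ((kSum k (AA g col x)).card : ℝ) ((kPr k (AA g col x)).card : ℝ) := by
      refine h.trans (le_of_eq ?_)
      unfold kSum kPr
      congr!
    have h2 := Real.log_le_log (by positivity) h1
    rw [Real.log_mul (by positivity) (by positivity), Real.log_pow, Real.log_exp, ← hLdef] at h2
    refine le_trans ?_ h2
    have h3 : ((max 1 (K * s) : ℕ) : ℝ) ≤ K₁ * (δ * L) := by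
      rw [Nat.cast_max]
      apply max_le
      · push_cast
        have : 1 * 1 ≤ K₁ * (δ * L) := by
          apply mul_le_mul _ (by linarith) zero_le_one hK₁0.le
          rw [hK₁]
          have : (0 : ℝ) ≤ K := Nat.cast_nonneg K
          linarith
        linarith
      · push_cast
        have h4 : (K : ℝ) * s ≤ K * (δ * L) := mul_le_mul_of_nonneg_left hs (Nat.cast_nonneg K)
        have h5 : 0 ≤ δ * L := by positivity
        rw [hK₁]
        linarith
    have h4 : Real.sqrt ((k : ℝ) ^ 3 * ((max 1 (K * s) : ℕ) : ℝ) * L) ≤ ε / 110 * L := by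
      apply Real.sqrt_le_iff.2
      refine ⟨by positivity, ?_⟩
      calc (k : ℝ) ^ 3 * ((max 1 (K * s) : ℕ) : ℝ) * L ≤ (k : ℝ) ^ 3 * (K₁ * (δ * L)) * L := by
            apply mul_le_mul_of_nonneg_right _ hL0.le
            exact mul_le_mul_of_nonneg_left h3 (by positivity)
        _ = (ε / 110 * L) ^ 2 := by
            rw [hδ]
            field_simp
    linarith
  · intro a ha _
    obtain ⟨y, hy, rfl⟩ := Finset.mem_image.1 ha
    rw [Int.natAbs_natCast]
    have h1 := diff_primes hg y (fun i => maj (col i))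
      ((valN g y).primeFactors ∪ (valN g fun i => maj (col i)).primeFactors) (by
        intro p hp
        rcases Finset.mem_union.1 hp with hp | hp
        · exact Nat.prime_of_mem_primeFactors hp
        · exact Nat.prime_of_mem_primeFactors hp)
    have h2 : (univ.filter fun i => y i ≠ maj (col i)).card = s := by
      rw [hsdef]
      convert card_Orb hy (fun c a => a ≠ maj c)
    rw [h2] at h1
    refine le_trans ?_ (le_max_right _ _)
    convert h1

/-- one orbit -/
theorem one (k d K : ℕ) (hk : 1 ≤ k) (ε : ℝ) (hε : 0 < ε) (hε1 : ε ≤ 1) :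
    ∃ C : ℝ, 0 ≤ C ∧ ∀ (ι : Type) [Fintype ι] (g col x : ι → ℕ), Gen g K → (∀ i, x i ≤ d) →
      (k - ε) * Real.log (Orb col x).card - C ≤
        Real.log (max ((kSum k (AA g col x)).card : ℝ) ((kPr k (AA g col x)).card : ℝ)) := by
  have hk1 : (1 : ℝ) ≤ k := by exact_mod_cast hk
  have hk0 : (0 : ℝ) < k := by linarith
  set ε' : ℝ := ε / k ^ 2 with hε'
  have hε'0 : 0 < ε' := by positivity
  have hε'1 : ε' ≤ 1 := by
    rw [hε', div_le_one (by positivity)]
    exact hε1.trans (one_le_pow₀ hk1)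
  obtain ⟨δ, L₁, hδ, hL₁, hS⟩ := caseS k K hk ε hε
  obtain ⟨C, L₂, hC0, hCc⟩ := caseC (d + 1) K (by omega) δ ε' hδ hε'0 hε'1
  refine ⟨max (k * C) (k * max L₁ L₂), le_max_of_le_left (by positivity), ?_⟩
  intro ι _ g col x hg hx
  set L := Real.log (Orb col x).card with hLdef
  have hL0 : 0 ≤ L := Real.log_natCast_nonneg _
  have hAn : (AA g col x).Nonempty := ⟨_, Finset.mem_image_of_mem _ (self_mem_Orb col x)⟩
  have hkS : (1 : ℝ) ≤ ((kSum k (AA g col x)).card : ℝ) := by
    exact_mod_cast (kSum_nonempty k hAn).card_pos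
  have hlog0 : 0 ≤ Real.log (max ((kSum k (AA g col x)).card : ℝ)
      ((kPr k (AA g col x)).card : ℝ)) := Real.log_nonneg (hkS.trans (le_max_left _ _))
  by_cases hL : max L₁ L₂ ≤ L
  swap
  · push Not at hL
    have h1 := le_max_right (k * C) (k * max L₁ L₂)
    have h2 : k * L ≤ k * max L₁ L₂ := mul_le_mul_of_nonneg_left hL.le hk0.le
    have h3 : 0 ≤ ε * L := by positivity
    linarith
  have hL1 : L₁ ≤ L := (le_max_left _ _).trans hL
  have hL2 : L₂ ≤ L := (le_max_right _ _).trans hL
  obtain ⟨maj, mn, hMM⟩ := exists_MM col x (d := d + 1) (by omega) fun i => (hx i).trans (by omega)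
  have hCk : 0 ≤ max (k * C) (k * max L₁ L₂) := le_max_of_le_left (by positivity)
  rcases le_total ((univ.filter fun i => x i ≠ maj (col i)).card : ℝ) (δ * L) with hs | hs
  · have := hS ι g col x maj hg hL1 hs
    linarith
  · have h1 := hCc ι g col x maj mn hg hMM hL2 hs
    have h2 := kSum_ge hAn hL0 hε'0.le hε'1 hC0 h1 k
    have h3 : Real.log ((kSum k (AA g col x)).card : ℝ) ≤
        Real.log (max ((kSum k (AA g col x)).card : ℝ) ((kPr k (AA g col x)).card : ℝ)) :=
      Real.log_le_log (by linarith) (le_max_left _ _)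
    have h4 : ε' * k ^ 2 = ε := by rw [hε']; field_simp
    rw [h4] at h2
    have h5 := le_max_left (k * C) (k * max L₁ L₂)
    linarith

end Pool.Agent.Run7.h650.SP
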