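import Mathlib

/-!
Orbits of exponent vectors under the permutations that preserve a colouring: the numbers of the
members of an orbit with prescribed coordinates.
-/

set_option autoImplicit false

namespace Pool.Agent.Run7.h650.SP

open Finset
open scoped Classical

variable {ι : Type*} [Fintype ι]

/-- the orbit of `x` under the permutations preserving `col` -/
noncomputable def Orb (col : ι → ℕ) (x : ι → ℕ) : Finset (ι → ℕ) :=
  (univ.filter fun σ : Equiv.Perm ι => ∀ i, col (σ i) = col i).image fun σ => x ∘ σ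

theorem mem_Orb {col x y : ι → ℕ} :
    y ∈ Orb col x ↔ ∃ σ : Equiv.Perm ι, (∀ i, col (σ i) = col i) ∧ x ∘ σ = y := by
  unfold Orb
  simp

theorem self_mem_Orb (col x : ι → ℕ) : x ∈ Orb col x :=
  mem_Orb.2 ⟨1, fun _ => rfl, rfl⟩

theorem swap_mem_Orb {col x y : ι → ℕ} (hy : y ∈ Orb col x) {i j : ι} (hij : col i = col j) :
    y ∘ Equiv.swap i j ∈ Orb col x := by
  obtain ⟨σ, hσ, rfl⟩ := mem_Orb.1 hy
  refine mem_Orb.2 ⟨σ * Equiv.swap i j, fun l => ?_, rfl⟩
  rw [Equiv.Perm.mul_apply, hσ]
  by_cases h1 : l = i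
  · rw [h1, Equiv.swap_apply_left, hij]
  by_cases h2 : l = j
  · rw [h2, Equiv.swap_apply_right, hij]
  rw [Equiv.swap_apply_of_ne_of_ne h1 h2]

/-- the number of the coordinates with a property of the colour and the value is constant -/
theorem card_Orb {col x y : ι → ℕ} (hy : y ∈ Orb col x) (P : ℕ → ℕ → Prop) :
    (univ.filter fun i => P (col i) (y i)).card = (univ.filter fun i => P (col i) (x i)).card := by
  obtain ⟨σ, hσ, rfl⟩ := mem_Orb.1 hy
  refine Finset.card_bij (fun i _ => σ i) ?_ ?_ ?_
  · intro i hi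
    have := (Finset.mem_filter.1 hi).2
    refine Finset.mem_filter.2 ⟨Finset.mem_univ _, ?_⟩
    rw [hσ]; exact this
  · intro i _ j _ h
    exact σ.injective h
  · intro i hi
    have := (Finset.mem_filter.1 hi).2
    refine ⟨σ.symm i, Finset.mem_filter.2 ⟨Finset.mem_univ _, ?_⟩, by simp⟩
    have h1 := hσ (σ.symm i)
    rw [Equiv.apply_symm_apply] at h1
    rw [← h1]
    simpa using this

/-- the members of the orbit that agree with `x` on `Q` -/
noncomputable def XQ (col x : ι → ℕ) (Q : Finset ι) : Finset (ι → ℕ) :=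
  (Orb col x).filter fun y => ∀ i ∈ Q, y i = x i

theorem mem_XQ {col x y : ι → ℕ} {Q : Finset ι} :
    y ∈ XQ col x Q ↔ y ∈ Orb col x ∧ ∀ i ∈ Q, y i = x i := Finset.mem_filter

theorem XQ_empty (col x : ι → ℕ) : XQ col x ∅ = Orb col x := by
  unfold XQ
  exact Finset.filter_true_of_mem fun y _ i hi => absurd hi (Finset.notMem_empty i)

theorem XQ_nonempty (col x : ι → ℕ) (Q : Finset ι) : (XQ col x Q).Nonempty :=
  ⟨x, mem_XQ.2 ⟨self_mem_Orb col x, fun _ _ => rfl⟩⟩

/-- the free coordinates with the colour `c` and the value `a` -/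
noncomputable def nn (col x : ι → ℕ) (Q : Finset ι) (c a : ℕ) : ℕ :=
  (univ.filter fun i => i ∉ Q ∧ col i = c ∧ x i = a).card

/-- the free coordinates with the colour `c` -/
noncomputable def mm (col : ι → ℕ) (Q : Finset ι) (c : ℕ) : ℕ :=
  (univ.filter fun i => i ∉ Q ∧ col i = c).card

theorem nn_XQ {col x y : ι → ℕ} {Q : Finset ι} (hy : y ∈ XQ col x Q) (c a : ℕ) :
    nn col y Q c a = nn col x Q c a := by
  obtain ⟨h1, h2⟩ := mem_XQ.1 hy
  have h3 : (univ.filter fun i => col i = c ∧ y i = a).card =
      (univ.filter fun i => col i = c ∧ x i = a).card := by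
    convert card_Orb h1 (fun c' a' => c' = c ∧ a' = a)
  have key : ∀ z : ι → ℕ, nn col z Q c a + (Q.filter fun i => col i = c ∧ z i = a).card =
      (univ.filter fun i => col i = c ∧ z i = a).card := by
    intro z
    unfold nn
    rw [← Finset.card_union_of_disjoint]
    · congr 1
      ext i
      simp only [Finset.mem_union, Finset.mem_filter, Finset.mem_univ, true_and]
      tauto
    · rw [Finset.disjoint_left]
      intro i hi hi'
      exact (Finset.mem_filter.1 hi).2.1 (Finset.mem_filter.1 hi').1
  have h4 : (Q.filter fun i => col i = c ∧ y i = a) = Q.filter fun i => col i = c ∧ x i = a := by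
    refine Finset.filter_congr fun i hi => ?_
    rw [h2 i hi]
  have h5 := key x
  have h6 := key y
  rw [h4, h3] at h6
  omega

/-- one more prescribed coordinate -/
theorem XQ_insert {col x : ι → ℕ} {Q : Finset ι} {i : ι} (hi : i ∉ Q) :
    (XQ col x Q).card * nn col x Q (col i) (x i) =
      (XQ col x (insert i Q)).card * mm col Q (col i) := by
  set P : Finset ((ι → ℕ) × ι) := ((XQ col x Q) ×ˢ univ).filter fun w =>
    w.2 ∉ Q ∧ col w.2 = col i ∧ w.1 w.2 = x i with hP
  have h1 : P.card = (XQ col x Q).card * nn col x Q (col i) (x i) := by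
    rw [hP, Finset.card_filter, Finset.sum_product, ← smul_eq_mul, ← Finset.sum_const]
    refine Finset.sum_congr rfl fun y hy => ?_
    rw [← nn_XQ hy, nn, Finset.card_filter]
  have h2 : ((XQ col x (insert i Q)) ×ˢ univ.filter fun l => l ∉ Q ∧ col l = col i).card =
      (XQ col x (insert i Q)).card * mm col Q (col i) := by
    rw [Finset.card_product]; rfl
  rw [← h1, ← h2]
  refine Finset.card_bij' (fun w _ => (w.1 ∘ Equiv.swap i w.2, w.2))
    (fun w _ => (w.1 ∘ Equiv.swap i w.2, w.2)) ?_ ?_ ?_ ?_
  · intro w hw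
    obtain ⟨h3, h4, h5, h6⟩ := Finset.mem_filter.1 hw
    obtain ⟨h7, -⟩ := Finset.mem_product.1 h3
    obtain ⟨h8, h9⟩ := mem_XQ.1 h7
    refine Finset.mem_product.2 ⟨mem_XQ.2 ⟨swap_mem_Orb h8 h5.symm, ?_⟩,
      Finset.mem_filter.2 ⟨Finset.mem_univ _, h4, h5⟩⟩
    intro l hl
    show w.1 (Equiv.swap i w.2 l) = x l
    rcases Finset.mem_insert.1 hl with rfl | hl
    · rw [Equiv.swap_apply_left, h6]
    · have e1 : l ≠ i := fun h => hi (h ▸ hl)
      have e2 : l ≠ w.2 := fun h => h4 (h ▸ hl)
      rw [Equiv.swap_apply_of_ne_of_ne e1 e2]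
      exact h9 l hl
  · intro w hw
    obtain ⟨h3, h4⟩ := Finset.mem_product.1 hw
    obtain ⟨-, h5, h6⟩ := Finset.mem_filter.1 h4
    obtain ⟨h7, h8⟩ := mem_XQ.1 h3
    refine Finset.mem_filter.2 ⟨Finset.mem_product.2 ⟨mem_XQ.2 ⟨swap_mem_Orb h7 h6.symm, ?_⟩,
      Finset.mem_univ _⟩, h5, h6, ?_⟩
    · intro l hl
      show w.1 (Equiv.swap i w.2 l) = x l
      have e1 : l ≠ i := fun h => hi (h ▸ hl)
      have e2 : l ≠ w.2 := fun h => h5 (h ▸ hl)
      rw [Equiv.swap_apply_of_ne_of_ne e1 e2]
      exact h8 l (Finset.mem_insert_of_mem hl)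
    · show (w.1 ∘ Equiv.swap i w.2) w.2 = x i
      rw [Function.comp_apply, Equiv.swap_apply_right]
      exact h8 i (Finset.mem_insert_self _ _)
  · intro w _
    refine Prod.ext ?_ rfl
    funext l
    simp
  · intro w _
    refine Prod.ext ?_ rfl
    funext l
    simp

theorem nn_pos {col x : ι → ℕ} {Q : Finset ι} {i : ι} (hi : i ∉ Q) :
    0 < nn col x Q (col i) (x i) :=
  Finset.card_pos.2 ⟨i, Finset.mem_filter.2 ⟨Finset.mem_univ _, hi, rfl, rfl⟩⟩

theorem mm_pos {col : ι → ℕ} {Q : Finset ι} {i : ι} (hi : i ∉ Q) : 0 < mm col Q (col i) :=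
  Finset.card_pos.2 ⟨i, Finset.mem_filter.2 ⟨Finset.mem_univ _, hi, rfl⟩⟩

/-- the logarithm of the number of the members with prescribed coordinates -/
theorem log_XQ_insert {col x : ι → ℕ} {Q : Finset ι} {i : ι} (hi : i ∉ Q) :
    Real.log (XQ col x Q).card = Real.log (XQ col x (insert i Q)).card +
      Real.log ((mm col Q (col i) : ℝ) / nn col x Q (col i) (x i)) := by
  have h := XQ_insert (col := col) (x := x) hi
  have h1 : (0 : ℝ) < nn col x Q (col i) (x i) := by exact_mod_cast nn_pos hi
  have h2 : (0 : ℝ) < mm col Q (col i) := by exact_mod_cast mm_pos hi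
  have h3 : (0 : ℝ) < (XQ col x Q).card := by exact_mod_cast (XQ_nonempty col x Q).card_pos
  have h4 : (0 : ℝ) < (XQ col x (insert i Q)).card := by
    exact_mod_cast (XQ_nonempty col x _).card_pos
  have h5 : ((XQ col x Q).card : ℝ) * nn col x Q (col i) (x i) =
      (XQ col x (insert i Q)).card * mm col Q (col i) := by exact_mod_cast h
  have h6 := congrArg Real.log h5
  rw [Real.log_mul h3.ne' h1.ne', Real.log_mul h4.ne' h2.ne'] at h6
  rw [Real.log_div h2.ne' h1.ne']
  linarith

/-- the numbers of coordinates, free and prescribed -/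
theorem nn_add {col x : ι → ℕ} (Q : Finset ι) (c a : ℕ) :
    nn col x Q c a + (Q.filter fun i => col i = c ∧ x i = a).card = nn col x ∅ c a := by
  unfold nn
  rw [← Finset.card_union_of_disjoint]
  · congr 1
    ext i
    simp only [Finset.mem_union, Finset.mem_filter, Finset.mem_univ, true_and]
    have : i ∉ (∅ : Finset ι) := Finset.notMem_empty i
    tauto
  · rw [Finset.disjoint_left]
    intro i hi hi'
    exact (Finset.mem_filter.1 hi).2.1 (Finset.mem_filter.1 hi').1

theorem mm_add {col : ι → ℕ} (Q : Finset ι) (c : ℕ) :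
    mm col Q c + (Q.filter fun i => col i = c).card = mm col ∅ c := by
  unfold mm
  rw [← Finset.card_union_of_disjoint]
  · congr 1
    ext i
    simp only [Finset.mem_union, Finset.mem_filter, Finset.mem_univ, true_and]
    have : i ∉ (∅ : Finset ι) := Finset.notMem_empty i
    tauto
  · rw [Finset.disjoint_left]
    intro i hi hi'
    exact (Finset.mem_filter.1 hi).2.1 (Finset.mem_filter.1 hi').1

theorem nn_le_mm (col x : ι → ℕ) (Q : Finset ι) (c a : ℕ) : nn col x Q c a ≤ mm col Q c := by
  refine Finset.card_le_card fun i hi => ?_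
  obtain ⟨h1, h2, h3, h4⟩ := Finset.mem_filter.1 hi
  exact Finset.mem_filter.2 ⟨h1, h2, h3⟩

theorem mm_mono (col : ι → ℕ) (Q : Finset ι) (c : ℕ) : mm col Q c ≤ mm col ∅ c := by
  have := mm_add (col := col) Q c
  omega

/-- lower bound: prescribing the coordinates of a set with one value per colour -/
theorem low {col x : ι → ℕ} (b : ℕ → ℕ) (Q : Finset ι) (hQ : ∀ i ∈ Q, x i = b (col i)) :
    Real.log (XQ col x Q).card + ∑ i ∈ Q, Real.log ((mm col ∅ (col i) : ℝ) / nn col x ∅ (col i) (x i))
      ≤ Real.log (Orb col x).card := by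
  induction Q using Finset.induction_on with
  | empty => rw [XQ_empty, Finset.sum_empty, add_zero]
  | insert i Q hi ih =>
    have ih' := ih fun j hj => hQ j (Finset.mem_insert_of_mem hj)
    rw [Finset.sum_insert hi]
    have h1 := log_XQ_insert (col := col) (x := x) hi
    have h2 : Real.log ((mm col ∅ (col i) : ℝ) / nn col x ∅ (col i) (x i)) ≤
        Real.log ((mm col Q (col i) : ℝ) / nn col x Q (col i) (x i)) := by
      have p1 : (0 : ℝ) < nn col x Q (col i) (x i) := by exact_mod_cast nn_pos hi
      have p2 : (0 : ℝ) < mm col Q (col i) := by exact_mod_cast mm_pos hi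
      have e1 := nn_add (col := col) (x := x) Q (col i) (x i)
      have e2 := mm_add (col := col) Q (col i)
      have e3 : (Q.filter fun j => col j = col i ∧ x j = x i) = Q.filter fun j => col j = col i := by
        refine Finset.filter_congr fun j hj => ?_
        constructor
        · exact fun h => h.1
        · intro h
          refine ⟨h, ?_⟩
          rw [hQ j (Finset.mem_insert_of_mem hj), hQ i (Finset.mem_insert_self _ _), h]
      rw [e3] at e1
      have e4 := nn_le_mm col x Q (col i) (x i)
      set t := (Q.filter fun j => col j = col i).card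
      have p3 : (0 : ℝ) < nn col x ∅ (col i) (x i) := by
        rw [← e1]; push_cast; positivity
      have p4 : (0 : ℝ) < mm col ∅ (col i) := by
        rw [← e2]; push_cast; positivity
      apply Real.log_le_log (by positivity)
      rw [div_le_div_iff₀ p3 p1, ← e1, ← e2]
      push_cast
      have e5 : (nn col x Q (col i) (x i) : ℝ) ≤ mm col Q (col i) := by exact_mod_cast e4
      have e6 : (0 : ℝ) ≤ t := Nat.cast_nonneg t
      nlinarith
    linarith

/-- upper bound: prescribing at most half of the coordinates with a given colour and value -/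
theorem upp {col x : ι → ℕ} (Q : Finset ι)
    (hQ : ∀ i ∈ Q, 2 * (Q.filter fun j => col j = col i ∧ x j = x i).card ≤
      nn col x ∅ (col i) (x i) + 1) :
    Real.log (Orb col x).card ≤ Real.log (XQ col x Q).card +
      ∑ i ∈ Q, Real.log (2 * (mm col ∅ (col i) : ℝ) / nn col x ∅ (col i) (x i)) := by
  have main : ∀ Q' : Finset ι, Q' ⊆ Q → Real.log (Orb col x).card ≤
      Real.log (XQ col x Q').card +
        ∑ i ∈ Q', Real.log (2 * (mm col ∅ (col i) : ℝ) / nn col x ∅ (col i) (x i)) := by
    intro Q'
    induction Q' using Finset.induction_on with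
    | empty => intro _; rw [XQ_empty, Finset.sum_empty, add_zero]
    | insert i Q' hi ih =>
      intro hsub
      have ih' := ih ((Finset.subset_insert _ _).trans hsub)
      have hiQ : i ∈ Q := hsub (Finset.mem_insert_self _ _)
      rw [Finset.sum_insert hi]
      have h1 := log_XQ_insert (col := col) (x := x) hi
      have h2 : Real.log ((mm col Q' (col i) : ℝ) / nn col x Q' (col i) (x i)) ≤
          Real.log (2 * (mm col ∅ (col i) : ℝ) / nn col x ∅ (col i) (x i)) := by
        have p1 : (0 : ℝ) < nn col x Q' (col i) (x i) := by exact_mod_cast nn_pos hi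
        have p2 : (0 : ℝ) < mm col Q' (col i) := by exact_mod_cast mm_pos hi
        have e1 := nn_add (col := col) (x := x) Q' (col i) (x i)
        have e2 := mm_mono col Q' (col i)
        have e3 : (Q'.filter fun j => col j = col i ∧ x j = x i).card + 1 ≤
            (Q.filter fun j => col j = col i ∧ x j = x i).card := by
          have h3 : insert i (Q'.filter fun j => col j = col i ∧ x j = x i) ⊆
              Q.filter fun j => col j = col i ∧ x j = x i := by
            intro j hj
            rcases Finset.mem_insert.1 hj with rfl | hj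
            · exact Finset.mem_filter.2 ⟨hiQ, rfl, rfl⟩
            · obtain ⟨h4, h5⟩ := Finset.mem_filter.1 hj
              exact Finset.mem_filter.2 ⟨hsub (Finset.mem_insert_of_mem h4), h5⟩
          have h4 := Finset.card_le_card h3
          rwa [Finset.card_insert_of_notMem fun h => hi (Finset.mem_filter.1 h).1] at h4
        have e4 := hQ i hiQ
        have e5 : nn col x ∅ (col i) (x i) ≤ 2 * nn col x Q' (col i) (x i) := by omega
        have e5' : (nn col x ∅ (col i) (x i) : ℝ) ≤ 2 * nn col x Q' (col i) (x i) := by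
          exact_mod_cast e5
        have p3 : (0 : ℝ) < nn col x ∅ (col i) (x i) := by
          have : 0 < nn col x ∅ (col i) (x i) := nn_pos (Finset.notMem_empty i)
          exact_mod_cast this
        have e2' : (mm col Q' (col i) : ℝ) ≤ mm col ∅ (col i) := by exact_mod_cast e2
        apply Real.log_le_log (by positivity)
        rw [div_le_div_iff₀ p1 p3]
        nlinarith
      linarith
  exact main Q (Finset.Subset.refl _)

end Pool.Agent.Run7.h650.SP
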