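import Pool.Agent.Run7.h650.SP.Orb

/-!
Selection of many disjoint pairs of coordinates with different values such that few members of the
orbit are lost if these coordinates are prescribed.
-/

set_option autoImplicit false

namespace Pool.Agent.Run7.h650.SP

open Finset
open scoped Classical

variable {ι : Type*} [Fintype ι]

/-- a subset with about half of the elements of every colour -/
theorem half (col : ι → ℕ) (F : Finset ι) : ∃ H ⊆ F, F.card ≤ 2 * H.card ∧
    ∀ c, 2 * (H.filter fun i => col i = c).card ≤ (F.filter fun i => col i = c).card + 1 := by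
  set S := F.powerset.filter fun H => ∀ c, 2 * (H.filter fun i => col i = c).card ≤
    (F.filter fun i => col i = c).card + 1 with hS
  have hSn : S.Nonempty := ⟨∅, by simp [hS]⟩
  obtain ⟨H, hH, hmax⟩ := Finset.exists_max_image S Finset.card hSn
  obtain ⟨hH1, hH2⟩ := Finset.mem_filter.1 hH
  have hHF : H ⊆ F := Finset.mem_powerset.1 hH1
  refine ⟨H, hHF, ?_, hH2⟩
  have key : ∀ c, (F.filter fun i => col i = c).card ≤ 2 * (H.filter fun i => col i = c).card := by
    intro c
    by_contra hcon
    push Not at hcon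
    obtain ⟨i, hiF, hiH⟩ : ∃ i ∈ F.filter (fun i => col i = c), i ∉ H.filter fun i => col i = c := by
      by_contra h
      push Not at h
      have := Finset.card_le_card h
      omega
    obtain ⟨hi1, hi2⟩ := Finset.mem_filter.1 hiF
    have hiH' : i ∉ H := fun h => hiH (Finset.mem_filter.2 ⟨h, hi2⟩)
    have hin : insert i H ∈ S := by
      refine Finset.mem_filter.2 ⟨Finset.mem_powerset.2 (Finset.insert_subset hi1 hHF), ?_⟩
      intro c'
      by_cases hc : c' = c
      · subst hc
        have h1 : ((insert i H).filter fun j => col j = c') = insert i (H.filter fun j => col j = c') := by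
          rw [Finset.filter_insert, if_pos hi2]
        rw [h1, Finset.card_insert_of_notMem hiH]
        omega
      · have h1 : ((insert i H).filter fun j => col j = c') = H.filter fun j => col j = c' := by
          rw [Finset.filter_insert, if_neg]
          rw [hi2]; exact fun h => hc h.symm
        rw [h1]
        exact hH2 c'
    have := hmax _ hin
    rw [Finset.card_insert_of_notMem hiH'] at this
    omega
  have e1 : F.card = ∑ c ∈ univ.image col, (F.filter fun i => col i = c).card :=
    Finset.card_eq_sum_card_fiberwise fun i _ => Finset.mem_coe.2 (Finset.mem_image_of_mem _ (Finset.mem_univ i))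
  have e2 : H.card = ∑ c ∈ univ.image col, (H.filter fun i => col i = c).card :=
    Finset.card_eq_sum_card_fiberwise fun i _ => Finset.mem_coe.2 (Finset.mem_image_of_mem _ (Finset.mem_univ i))
  rw [e1, e2, Finset.mul_sum]
  exact Finset.sum_le_sum fun c _ => key c

/-- matching of coordinates with two kinds of values, colour by colour -/
theorem matching (col : ι → ℕ) (F G : Finset ι)
    (h : ∀ c, (F.filter fun i => col i = c).card ≤ (G.filter fun i => col i = c).card) :
    ∃ φ : ι → ι, Set.InjOn φ F ∧ ∀ i ∈ F, φ i ∈ G ∧ col (φ i) = col i := by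
  have hemb : ∀ c, Nonempty ({i // i ∈ F.filter fun i => col i = c} ↪
      {i // i ∈ G.filter fun i => col i = c}) := by
    intro c
    apply Function.Embedding.nonempty_of_card_le
    rw [Fintype.card_coe, Fintype.card_coe]
    exact h c
  have f := fun c => (hemb c).some
  set φ : ι → ι := fun i => if hi : i ∈ F then
    ((f (col i) ⟨i, Finset.mem_filter.2 ⟨hi, rfl⟩⟩ : {j // j ∈ G.filter fun j => col j = col i}) : ι)
    else i with hφ
  have hval : ∀ i (hi : i ∈ F), φ i =
    ((f (col i) ⟨i, Finset.mem_filter.2 ⟨hi, rfl⟩⟩ : {j // j ∈ G.filter fun j => col j = col i}) : ι) :=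
    fun i hi => by rw [hφ]; simp only [dif_pos hi]
  have hmem : ∀ i ∈ F, φ i ∈ G ∧ col (φ i) = col i := by
    intro i hi
    rw [hval i hi]
    exact Finset.mem_filter.1 (f (col i) ⟨i, Finset.mem_filter.2 ⟨hi, rfl⟩⟩).2
  refine ⟨φ, ?_, hmem⟩
  intro i hi j hj hij
  have hi' := Finset.mem_coe.1 hi
  have hj' := Finset.mem_coe.1 hj
  have hc : col i = col j := by rw [← (hmem i hi').2, ← (hmem j hj').2, hij]
  have key : ∀ c (hic : col i = c) (hjc : col j = c),
      ((f c ⟨i, Finset.mem_filter.2 ⟨hi', hic⟩⟩ : {j // j ∈ G.filter fun j => col j = c}) : ι) =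
      (f c ⟨j, Finset.mem_filter.2 ⟨hj', hjc⟩⟩ : {j // j ∈ G.filter fun j => col j = c}) → i = j := by
    intro c hic hjc he
    have h1 := (f c).injective (Subtype.ext he)
    exact congrArg Subtype.val h1
  apply key (col j) hc rfl
  have h1 := hval i hi'
  have h2 := hval j hj'
  rw [h1, h2] at hij
  rw [← hij]
  have : ∀ c (hic : col i = c), ((f c ⟨i, Finset.mem_filter.2 ⟨hi', hic⟩⟩ :
      {j // j ∈ G.filter fun j => col j = c}) : ι) =
      (f (col i) ⟨i, Finset.mem_filter.2 ⟨hi', rfl⟩⟩ : {j // j ∈ G.filter fun j => col j = col i}) := by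
    intro c hic
    subst hic
    rfl
  exact this (col j) hc

theorem nn_empty (col x : ι → ℕ) (c a : ℕ) :
    nn col x ∅ c a = (univ.filter fun i => col i = c ∧ x i = a).card := by
  unfold nn
  congr 1
  ext i
  simp

theorem mm_empty (col : ι → ℕ) (c : ℕ) : mm col ∅ c = (univ.filter fun i => col i = c).card := by
  unfold mm
  congr 1
  ext i
  simp

/-- the total number of the coordinates with a given colour -/
theorem mm_sum {col x : ι → ℕ} {d : ℕ} (hd : ∀ i, x i ≤ d) (c : ℕ) :
    mm col ∅ c = ∑ a ∈ range (d + 1), nn col x ∅ c a := by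
  rw [mm_empty, Finset.card_eq_sum_card_fiberwise (f := x) (t := range (d + 1))]
  · refine Finset.sum_congr rfl fun a _ => ?_
    rw [nn_empty, Finset.filter_filter]
  · intro i _
    exact Finset.mem_coe.2 (Finset.mem_range.2 (Nat.lt_succ_of_le (hd i)))

/-- the majority and the first minority value of every colour -/
structure MM (col x : ι → ℕ) (d : ℕ) (maj mn : ℕ → ℕ) : Prop where
  le : ∀ i, x i ≤ d
  max : ∀ c a, a ≤ d → nn col x ∅ c a ≤ nn col x ∅ c (maj c)
  ne : ∀ c, mn c ≠ maj c
  min : ∀ c a, a ≤ d → a ≠ maj c → nn col x ∅ c a ≤ nn col x ∅ c (mn c)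
  mn_le : ∀ c, mn c ≤ d
  maj_le : ∀ c, maj c ≤ d

theorem exists_MM (col x : ι → ℕ) {d : ℕ} (hd : 1 ≤ d) (hx : ∀ i, x i ≤ d) :
    ∃ maj mn : ℕ → ℕ, MM col x d maj mn := by
  have h1 : ∀ c, ∃ a ∈ range (d + 1), ∀ a' ∈ range (d + 1), nn col x ∅ c a' ≤ nn col x ∅ c a :=
    fun c => Finset.exists_max_image _ _ ⟨0, Finset.mem_range.2 (by omega)⟩
  choose maj hm1 hm2 using h1
  have h2 : ∀ c, ∃ b ∈ (range (d + 1)).erase (maj c), ∀ a' ∈ (range (d + 1)).erase (maj c),
      nn col x ∅ c a' ≤ nn col x ∅ c b := by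
    intro c
    apply Finset.exists_max_image
    by_cases h : maj c = 0
    · exact ⟨1, Finset.mem_erase.2 ⟨by omega, Finset.mem_range.2 (by omega)⟩⟩
    · exact ⟨0, Finset.mem_erase.2 ⟨fun h' => h h'.symm, Finset.mem_range.2 (by omega)⟩⟩
  choose mn hn1 hn2 using h2
  refine ⟨maj, mn, hx, ?_, ?_, ?_, ?_, ?_⟩
  · intro c a ha
    exact hm2 c a (Finset.mem_range.2 (by omega))
  · intro c
    exact (Finset.mem_erase.1 (hn1 c)).1
  · intro c a ha hne
    exact hn2 c a (Finset.mem_erase.2 ⟨hne, Finset.mem_range.2 (by omega)⟩)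
  · intro c
    have := Finset.mem_range.1 (Finset.mem_erase.1 (hn1 c)).2
    omega
  · intro c
    have := Finset.mem_range.1 (hm1 c)
    omega

/-- the coordinates with the first minority value -/
noncomputable def Bp (col x : ι → ℕ) (mn : ℕ → ℕ) : Finset ι := univ.filter fun i => x i = mn (col i)

theorem Bp_fiber (col x : ι → ℕ) (b : ℕ → ℕ) (c : ℕ) :
    ((Bp col x b).filter fun i => col i = c).card = nn col x ∅ c (b c) := by
  rw [nn_empty]
  congr 1
  ext i
  unfold Bp
  simp only [Finset.mem_filter, Finset.mem_univ, true_and]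
  constructor
  · rintro ⟨h1, h2⟩
    exact ⟨h2, by rw [h1, h2]⟩
  · rintro ⟨h1, h2⟩
    exact ⟨by rw [h1, h2], h1⟩

/-- few coordinates have other values than the majority and the first minority value -/
theorem minority_le {col x : ι → ℕ} {d : ℕ} {maj mn : ℕ → ℕ} (h : MM col x d maj mn) :
    (univ.filter fun i => x i ≠ maj (col i)).card ≤ (d + 1) * (Bp col x mn).card := by
  have e1 : (univ.filter fun i => x i ≠ maj (col i)).card = ∑ c ∈ univ.image col,
      ((univ.filter fun i => x i ≠ maj (col i)).filter fun i => col i = c).card :=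
    Finset.card_eq_sum_card_fiberwise fun i _ =>
      Finset.mem_coe.2 (Finset.mem_image_of_mem _ (Finset.mem_univ i))
  have e2 : (Bp col x mn).card = ∑ c ∈ univ.image col, ((Bp col x mn).filter fun i => col i = c).card :=
    Finset.card_eq_sum_card_fiberwise fun i _ =>
      Finset.mem_coe.2 (Finset.mem_image_of_mem _ (Finset.mem_univ i))
  rw [e1, e2, Finset.mul_sum]
  refine Finset.sum_le_sum fun c _ => ?_
  rw [Bp_fiber]
  have h1 : ((univ.filter fun i => x i ≠ maj (col i)).filter fun i => col i = c) ⊆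
      ((range (d + 1)).erase (maj c)).biUnion fun a => univ.filter fun i => col i = c ∧ x i = a := by
    intro i hi
    obtain ⟨h2, h3⟩ := Finset.mem_filter.1 hi
    have h4 := (Finset.mem_filter.1 h2).2
    refine Finset.mem_biUnion.2 ⟨x i, Finset.mem_erase.2 ⟨?_, ?_⟩, ?_⟩
    · rw [← h3]; exact h4
    · exact Finset.mem_range.2 (Nat.lt_succ_of_le (h.le i))
    · exact Finset.mem_filter.2 ⟨Finset.mem_univ _, h3, rfl⟩
  refine (Finset.card_le_card h1).trans (Finset.card_biUnion_le.trans ?_)
  have h2 : ∀ a ∈ (range (d + 1)).erase (maj c),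
      (univ.filter fun i => col i = c ∧ x i = a).card ≤ nn col x ∅ c (mn c) := by
    intro a ha
    obtain ⟨h3, h4⟩ := Finset.mem_erase.1 ha
    rw [← nn_empty]
    exact h.min c a (by have := Finset.mem_range.1 h4; omega) h3
  refine (Finset.sum_le_card_nsmul _ _ _ h2).trans ?_
  rw [smul_eq_mul]
  apply Nat.mul_le_mul_right
  refine (Finset.card_le_card (Finset.erase_subset _ _)).trans ?_
  rw [Finset.card_range]

/-- the basic numerical facts on a colour -/
theorem col_facts {col x : ι → ℕ} {d : ℕ} {maj mn : ℕ → ℕ} (h : MM col x d maj mn) {i : ι}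
    (hi : i ∈ Bp col x mn) :
    0 < nn col x ∅ (col i) (mn (col i)) ∧
      nn col x ∅ (col i) (mn (col i)) ≤ nn col x ∅ (col i) (maj (col i)) ∧
      2 * nn col x ∅ (col i) (mn (col i)) ≤ mm col ∅ (col i) ∧
      mm col ∅ (col i) ≤ (d + 1) * nn col x ∅ (col i) (maj (col i)) := by
  have hxi : x i = mn (col i) := (Finset.mem_filter.1 hi).2
  have h1 : 0 < nn col x ∅ (col i) (mn (col i)) := by
    rw [← hxi]; exact nn_pos (Finset.notMem_empty i)
  have h2 := h.max (col i) (mn (col i)) (h.mn_le _)
  refine ⟨h1, h2, ?_, ?_⟩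
  · have h3 : nn col x ∅ (col i) (mn (col i)) + nn col x ∅ (col i) (maj (col i)) ≤
        mm col ∅ (col i) := by
      rw [mm_sum h.le]
      have h4 : ({mn (col i), maj (col i)} : Finset ℕ) ⊆ range (d + 1) := by
        intro a ha
        rw [Finset.mem_insert, Finset.mem_singleton] at ha
        have h5 := h.mn_le (col i)
        have h6 := h.maj_le (col i)
        rw [Finset.mem_range]
        rcases ha with rfl | rfl <;> omega
      have h5 := Finset.sum_le_sum_of_subset (f := fun a => nn col x ∅ (col i) a) h4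
      rwa [Finset.sum_pair (h.ne _)] at h5
    omega
  · rw [mm_sum h.le]
    refine (Finset.sum_le_card_nsmul _ _ _ fun a ha => h.max (col i) a ?_).trans ?_
    · have := Finset.mem_range.1 ha; omega
    · rw [Finset.card_range, smul_eq_mul]

theorem low_Bp {col x : ι → ℕ} {d : ℕ} {maj mn : ℕ → ℕ} (_h : MM col x d maj mn) :
    ∑ i ∈ Bp col x mn, Real.log ((mm col ∅ (col i) : ℝ) / nn col x ∅ (col i) (mn (col i))) ≤
      Real.log (Orb col x).card := by
  have h1 := low (col := col) (x := x) mn (Bp col x mn) fun i hi => (Finset.mem_filter.1 hi).2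
  have h2 : 0 ≤ Real.log (XQ col x (Bp col x mn)).card := Real.log_natCast_nonneg _
  have h3 : ∑ i ∈ Bp col x mn, Real.log ((mm col ∅ (col i) : ℝ) / nn col x ∅ (col i) (x i)) =
      ∑ i ∈ Bp col x mn, Real.log ((mm col ∅ (col i) : ℝ) / nn col x ∅ (col i) (mn (col i))) := by
    refine Finset.sum_congr rfl fun i hi => ?_
    rw [(Finset.mem_filter.1 hi).2]
  rw [h3] at h1
  linarith

theorem Bp_log_two {col x : ι → ℕ} {d : ℕ} {maj mn : ℕ → ℕ} (h : MM col x d maj mn) :
    (Bp col x mn).card * Real.log 2 ≤ Real.log (Orb col x).card := by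
  refine le_trans ?_ (low_Bp h)
  rw [← nsmul_eq_mul]
  refine Finset.card_nsmul_le_sum _ _ _ fun i hi => ?_
  obtain ⟨h1, -, h3, -⟩ := col_facts h hi
  have p1 : (0 : ℝ) < nn col x ∅ (col i) (mn (col i)) := by exact_mod_cast h1
  apply Real.log_le_log (by norm_num)
  rw [le_div_iff₀ p1]
  exact_mod_cast h3

end Pool.Agent.Run7.h650.SP
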